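import Pool.Agent.H37.MHD.Defs2

/-!
# M5a: existence of the background profile (helper92)
-/

open MeasureTheory Set Filter Topology
open scoped ContDiff
open H36.MHD

noncomputable section

namespace H37.MHD

/-! ### partial derivatives -/

theorem pd_mul {f g : V3 → ℝ} {x : V3} (hf : DifferentiableAt ℝ f x)
    (hg : DifferentiableAt ℝ g x) (j : Fin 3) :
    pd j (fun y => f y * g y) x = pd j f x * g x + f x * pd j g x := by
  unfold pd
  rw [fderiv_fun_mul hf hg]
  simp
  ring

theorem pd_add {f g : V3 → ℝ} {x : V3} (hf : DifferentiableAt ℝ f x)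
    (hg : DifferentiableAt ℝ g x) (j : Fin 3) :
    pd j (fun y => f y + g y) x = pd j f x + pd j g x := by
  unfold pd
  rw [fderiv_fun_add hf hg]
  simp

theorem pd_const_mul {f : V3 → ℝ} {x : V3} (hf : DifferentiableAt ℝ f x) (c : ℝ) (j : Fin 3) :
    pd j (fun y => c * f y) x = c * pd j f x := by
  unfold pd
  rw [fderiv_const_mul hf]
  simp

theorem pd_const (c : ℝ) (j : Fin 3) (x : V3) : pd j (fun _ => c) x = 0 := by
  unfold pd
  simp

theorem pd_coord (c : ℝ) (i j : Fin 3) (x : V3) :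
    pd j (fun y => y i - c) x = if i = j then 1 else 0 := by
  unfold pd
  have hp : HasFDerivAt (fun y : V3 => y i - c) (ContinuousLinearMap.proj (R := ℝ) i) x :=
    ((ContinuousLinearMap.proj (R := ℝ) (φ := fun _ : Fin 3 => ℝ) i).hasFDerivAt).sub_const c
  rw [hp.fderiv]
  simp [Pi.single_apply]

/-- `q(x) = r² - |x-c|²` (Euclidean). -/
def qf (r : ℝ) (c : V3) (x : V3) : ℝ := r ^ 2 - ∑ j, (x j - c j) ^ 2

theorem contDiff_qf (r : ℝ) (c : V3) : ContDiff ℝ ∞ (qf r c) := by
  unfold qf
  fun_prop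

theorem pd_qf (r : ℝ) (c : V3) (j : Fin 3) (x : V3) : pd j (qf r c) x = -2 * (x j - c j) := by
  unfold pd
  have hp : ∀ i : Fin 3, HasFDerivAt (fun y : V3 => y i - c i)
      (ContinuousLinearMap.proj (R := ℝ) i) x := fun i =>
    ((ContinuousLinearMap.proj (R := ℝ) (φ := fun _ : Fin 3 => ℝ) i).hasFDerivAt).sub_const (c i)
  have h2 : HasFDerivAt (qf r c) _ x :=
    (hasFDerivAt_const (r ^ 2) x).sub
      (HasFDerivAt.fun_sum (u := Finset.univ) fun i _ => (hp i).pow 2)
  rw [h2.fderiv]
  fin_cases j <;> simp [Fin.sum_univ_three]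

theorem pd_comp_qf {G : ℝ → ℝ} (hG : Differentiable ℝ G) (r : ℝ) (c : V3) (j : Fin 3) (x : V3) :
    pd j (fun y => G (qf r c y)) x = deriv G (qf r c x) * (-2 * (x j - c j)) := by
  have hq : DifferentiableAt ℝ (qf r c) x := (contDiff_qf r c).differentiable (by simp) x
  have h : HasFDerivAt (fun y => G (qf r c y)) (deriv G (qf r c x) • fderiv ℝ (qf r c) x) x :=
    (hG (qf r c x)).hasDerivAt.comp_hasFDerivAt x hq.hasFDerivAt
  rw [← pd_qf r c j x]
  unfold pd
  rw [h.fderiv]
  simp

/-! ### the flat function -/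

theorem glue_contDiff : ContDiff ℝ ∞ expNegInvGlue := expNegInvGlue.contDiff (n := ⊤)

theorem glue_deriv_contDiff : ContDiff ℝ ∞ (deriv expNegInvGlue) := by
  have := glue_contDiff
  exact (contDiff_infty_iff_deriv.1 this).2

theorem glue_deriv2_contDiff : ContDiff ℝ ∞ (deriv (deriv expNegInvGlue)) := by
  have := glue_deriv_contDiff
  exact (contDiff_infty_iff_deriv.1 this).2

theorem deriv_eq_zero_of_flat {G : ℝ → ℝ} (h0 : ∀ s ≤ 0, G s = 0) (hc : Continuous (deriv G)) :
    ∀ s ≤ 0, deriv G s = 0 := by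
  have h1 : ∀ s < 0, deriv G s = 0 := by
    intro s hs
    have : G =ᶠ[𝓝 s] fun _ => 0 := by
      filter_upwards [Iio_mem_nhds hs] with y hy
      exact h0 y (le_of_lt hy)
    rw [this.deriv_eq]
    simp
  intro s hs
  have hcl : IsClosed {s | deriv G s = 0} := isClosed_eq hc continuous_const
  have hsub : Iio (0 : ℝ) ⊆ {s | deriv G s = 0} := fun y hy => h1 y hy
  have := closure_minimal hsub hcl
  rw [closure_Iio] at this
  exact this hs

theorem glue_zero : ∀ s ≤ 0, expNegInvGlue s = 0 := fun _ hs => expNegInvGlue.zero_of_nonpos hs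

theorem glue_deriv_zero : ∀ s ≤ 0, deriv expNegInvGlue s = 0 :=
  deriv_eq_zero_of_flat glue_zero glue_deriv_contDiff.continuous

theorem glue_deriv2_zero : ∀ s ≤ 0, deriv (deriv expNegInvGlue) s = 0 :=
  deriv_eq_zero_of_flat glue_deriv_zero glue_deriv2_contDiff.continuous

/-! ### the profile -/

/-- the coefficient functions of the rotation field `(-(x1-c1), x0-c0, 0)`: `A k` times the
coordinate number `I k` -/
def Ak (k : Fin 3) : ℝ := if k = 0 then -1 else if k = 1 then 1 else 0

/-- see `Ak` -/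
def Ik (k : Fin 3) : Fin 3 := if k = 0 then 1 else 0

/-- normalised profile -/
def w1 (r : ℝ) (c : V3) (k : Fin 3) (x : V3) : ℝ :=
  Ak k * (expNegInvGlue (qf r c x) * (x (Ik k) - c (Ik k)))

theorem contDiff_w1 (r : ℝ) (c : V3) (k : Fin 3) : ContDiff ℝ ∞ (w1 r c k) := by
  unfold w1
  have h1 : ContDiff ℝ ∞ (fun x => expNegInvGlue (qf r c x)) :=
    glue_contDiff.comp (contDiff_qf r c)
  fun_prop

theorem pd_w1 (r : ℝ) (c : V3) (k j : Fin 3) (x : V3) :
    pd j (w1 r c k) x = Ak k * (deriv expNegInvGlue (qf r c x) * (-2 * (x j - c j)) *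
      (x (Ik k) - c (Ik k)) + expNegInvGlue (qf r c x) * (if Ik k = j then 1 else 0)) := by
  have h1 : DifferentiableAt ℝ (fun x => expNegInvGlue (qf r c x)) x :=
    (glue_contDiff.comp (contDiff_qf r c)).differentiable (by simp) x
  have h2 : DifferentiableAt ℝ (fun y : V3 => y (Ik k) - c (Ik k)) x := by fun_prop
  unfold w1
  rw [pd_const_mul (h1.fun_mul h2), pd_mul h1 h2,
    pd_comp_qf (glue_contDiff.differentiable (by simp)), pd_coord]

theorem div_w1 (r : ℝ) (c : V3) (x : V3) : ∑ k, pd k (w1 r c k) x = 0 := by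
  simp only [pd_w1, Fin.sum_univ_three]
  simp [Ak, Ik]
  ring

theorem w1_eq_zero_cases {r : ℝ} {c x : V3} (h : ∀ k, w1 r c k x = 0) :
    qf r c x ≤ 0 ∨ (x 0 - c 0 = 0 ∧ x 1 - c 1 = 0) := by
  by_cases hq : qf r c x ≤ 0
  · exact Or.inl hq
  · right
    have hpos : 0 < expNegInvGlue (qf r c x) := expNegInvGlue.pos_of_pos (not_le.mp hq)
    have h0 := h 0
    have h1 := h 1
    simp [w1, Ak, Ik, hpos.ne'] at h0 h1
    exact ⟨h1, h0⟩

theorem lap_w1 {r : ℝ} {c x : V3} (h : ∀ k, w1 r c k x = 0) (k : Fin 3) :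
    lap3 (w1 r c k) x = 0 := by
  unfold lap3
  apply Finset.sum_eq_zero
  intro j _
  have e : pd j (w1 r c k) = fun y => Ak k * ((deriv expNegInvGlue (qf r c y) *
      (-2 * ((y j - c j) * (y (Ik k) - c (Ik k))))) +
      expNegInvGlue (qf r c y) * (if Ik k = j then 1 else 0)) := by
    funext y
    rw [pd_w1]
    ring
  rw [e]
  have hg : DifferentiableAt ℝ (fun x => expNegInvGlue (qf r c x)) x :=
    (glue_contDiff.comp (contDiff_qf r c)).differentiable (by simp) x
  have hg' : DifferentiableAt ℝ (fun x => deriv expNegInvGlue (qf r c x)) x :=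
    (glue_deriv_contDiff.comp (contDiff_qf r c)).differentiable (by simp) x
  have hj : DifferentiableAt ℝ (fun y : V3 => y j - c j) x := by fun_prop
  have hk : DifferentiableAt ℝ (fun y : V3 => y (Ik k) - c (Ik k)) x := by fun_prop
  have hjk : DifferentiableAt ℝ (fun y : V3 => (y j - c j) * (y (Ik k) - c (Ik k))) x := hj.mul hk
  have hjk2 : DifferentiableAt ℝ (fun y : V3 => -2 * ((y j - c j) * (y (Ik k) - c (Ik k)))) x :=
    hjk.const_mul _
  have hc : DifferentiableAt ℝ (fun _ : V3 => (if Ik k = j then (1:ℝ) else 0)) x := by fun_prop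
  rw [pd_const_mul ((hg'.fun_mul hjk2).fun_add (hg.fun_mul hc)), pd_add (hg'.fun_mul hjk2) (hg.fun_mul hc),
    pd_mul hg' hjk2, pd_mul hg hc, pd_const_mul hjk, pd_mul hj hk, pd_const, pd_coord, pd_coord,
    pd_comp_qf (glue_contDiff.differentiable (by simp)),
    pd_comp_qf (glue_deriv_contDiff.differentiable (by simp))]
  rcases w1_eq_zero_cases h with hq | ⟨h0, h1⟩
  · rw [glue_zero _ hq, glue_deriv_zero _ hq, glue_deriv2_zero _ hq]
    ring
  · fin_cases k
    · simp [Ik, h1]
      right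
      intro hj1
      right
      rw [← hj1, h1]
    · simp [Ik, h0]
      right
      intro hj1
      right
      rw [← hj1, h0]
    · simp [Ak]

theorem w1_supp {r : ℝ} (hr : 0 < r) {c x : V3} {k : Fin 3} (h : w1 r c k x ≠ 0) :
    ‖x - c‖ ≤ r := by
  have hq : 0 < qf r c x := by
    by_contra hc
    apply h
    unfold w1
    rw [glue_zero _ (not_lt.mp hc)]
    ring
  unfold qf at hq
  rw [Fin.sum_univ_three] at hq
  rw [pi_norm_le_iff_of_nonneg hr.le]
  intro i
  rw [Real.norm_eq_abs]
  apply abs_le_of_sq_le_sq _ hr.le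
  have h0 := sq_nonneg (x 0 - c 0)
  have h1 := sq_nonneg (x 1 - c 1)
  have h2 := sq_nonneg (x 2 - c 2)
  fin_cases i <;> simp <;> nlinarith

theorem w1_vec_smooth (r : ℝ) (c : V3) : ContDiff ℝ ∞ (fun x => (fun k => w1 r c k x : V3)) := by
  rw [contDiff_pi]
  exact contDiff_w1 r c

theorem w1_vec_compact {r : ℝ} (hr : 0 < r) (c : V3) :
    HasCompactSupport (fun x => (fun k => w1 r c k x : V3)) := by
  apply HasCompactSupport.of_support_subset_isCompact (isCompact_closedBall c r)
  intro x hx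
  have : ∃ k, w1 r c k x ≠ 0 := by
    by_contra hc
    push Not at hc
    exact hx (funext hc)
  obtain ⟨k, hk⟩ := this
  rw [mem_closedBall_iff_norm]
  exact w1_supp hr hk

theorem w1_lip {r : ℝ} (hr : 0 < r) (c : V3) : ∃ L : ℝ, 0 < L ∧ ∀ x y : V3,
    ‖(fun k => w1 r c k x) - (fun k => w1 r c k y)‖ ≤ L * ‖x - y‖ := by
  have hs := w1_vec_smooth r c
  have hcd : Continuous (fderiv ℝ (fun x => (fun k => w1 r c k x : V3))) :=
    hs.continuous_fderiv (by simp)
  obtain ⟨C, hC⟩ := hcd.bounded_above_of_compact_support ((w1_vec_compact hr c).fderiv (𝕜 := ℝ))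
  refine ⟨max C 1, lt_of_lt_of_le one_pos (le_max_right _ _), fun x y => ?_⟩
  have := Convex.norm_image_sub_le_of_norm_fderiv_le (𝕜 := ℝ) (s := univ)
    (f := fun x => (fun k => w1 r c k x : V3)) (C := max C 1)
    (fun z _ => hs.differentiable (by simp) z)
    (fun z _ => (hC z).trans (le_max_left _ _)) convex_univ (mem_univ y) (mem_univ x)
  exact this

theorem exists_bg (Ω : Set V3) (hΩ : IsOpen Ω) (hne : Ω.Nonempty) (T : ℝ) (hT : 0 < T) :
    ∃ B : Bg, B.T = T ∧ Metric.closedBall B.x0 B.r ⊆ Ω := by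
  obtain ⟨c, hc⟩ := hne
  obtain ⟨ε, hε, hball⟩ := Metric.isOpen_iff.mp hΩ c hc
  set r : ℝ := min (ε / 2) 1 with hrdef
  have hr : 0 < r := lt_min (by linarith) one_pos
  have hr1 : r ≤ 1 := min_le_right _ _
  obtain ⟨L, hL, hlip⟩ := w1_lip hr c
  set κ : ℝ := 1 / (400 * T ^ 4 * L) with hκdef
  have hT4 : 0 < T ^ 4 := by positivity
  have hκ : 0 < κ := by positivity
  refine ⟨{
    T := T
    hT := hT
    x0 := c
    r := r
    hr := hr
    hr1 := hr1
    kap := κ * L
    hkap := by positivity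
    hkT := ?_
    w := fun k x => κ * w1 r c k x
    w_smooth := fun k => contDiff_const.mul (contDiff_w1 r c k)
    w_supp := ?_
    w_div := ?_
    w_lap := ?_
    w_lip := ?_
    w_ne := ?_ }, rfl, ?_⟩
  · rw [hκdef]
    apply le_of_eq
    field_simp
  · intro k x h
    exact w1_supp hr (right_ne_zero_of_mul h)
  · intro x
    have h1 : ∀ k, pd k (fun x => κ * w1 r c k x) x = κ * pd k (w1 r c k) x := fun k =>
      pd_const_mul ((contDiff_w1 r c k).differentiable (by simp) x) κ k
    simp only [h1]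
    rw [← Finset.mul_sum, div_w1, mul_zero]
  · intro x h k
    have h0 : ∀ k, w1 r c k x = 0 := fun k => (mul_eq_zero.mp (h k)).resolve_left hκ.ne'
    have h1 := lap_w1 h0 k
    unfold lap3 at h1 ⊢
    have e : ∀ j, pd j (fun x => κ * w1 r c k x) = fun y => κ * pd j (w1 r c k) y := fun j => by
      funext y
      exact pd_const_mul ((contDiff_w1 r c k).differentiable (by simp) y) κ j
    have hd : ∀ j, DifferentiableAt ℝ (pd j (w1 r c k)) x := by
      intro j
      have h2 : Differentiable ℝ (fderiv ℝ (w1 r c k)) :=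
        ((contDiff_w1 r c k).fderiv_right (m := ∞) (by simp)).differentiable (by simp)
      have h3 : Differentiable ℝ (fun y => fderiv ℝ (w1 r c k) y (Pi.single j 1)) := by fun_prop
      exact h3 x
    simp only [e]
    have h2 : ∀ j, pd j (fun y => κ * pd j (w1 r c k) y) x = κ * pd j (pd j (w1 r c k)) x :=
      fun j => pd_const_mul (hd j) κ j
    simp only [h2]
    rw [← Finset.mul_sum, h1, mul_zero]
  · intro x y
    have := hlip x y
    have e : (fun k => κ * w1 r c k x) - (fun k => κ * w1 r c k y) =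
        κ • ((fun k => w1 r c k x) - (fun k => w1 r c k y)) := by
      funext k
      simp
      ring
    rw [e, norm_smul, Real.norm_eq_abs, abs_of_pos hκ, mul_assoc]
    exact mul_le_mul_of_nonneg_left this hκ.le
  · refine ⟨fun j => c j + (if j = 0 then r / 2 else 0), 1, ?_⟩
    have hq : 0 < qf r c (fun j => c j + (if j = 0 then r / 2 else 0)) := by
      unfold qf
      rw [Fin.sum_univ_three]
      simp
      nlinarith
    have hpos := expNegInvGlue.pos_of_pos hq
    simp [w1, Ak, Ik, hpos.ne', hκ.ne', hr.ne']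
  · intro x hx
    apply hball
    rw [Metric.mem_closedBall] at hx
    rw [Metric.mem_ball]
    calc dist x c ≤ r := hx
      _ ≤ ε / 2 := min_le_left _ _
      _ < ε := by linarith

end H37.MHD
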