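import Pool.Agent.H37.MHD.Defs2

/-!
# M5b: cut-off, compactness, base error (helper92)
-/

open MeasureTheory Set Filter Topology
open scoped ContDiff
open H36.MHD

noncomputable section

namespace H37.MHD

variable {B : Bg}

theorem SS_smooth (B : Bg) : ContDiff ℝ ∞ (SS B) := by
  unfold SS th
  have h1 : ∀ k, ContDiff ℝ ∞ (fun z : X => B.w k z.2) := fun k => (B.w_smooth k).comp contDiff_snd
  have h2 : ContDiff ℝ ∞ (fun z : X => ∑ k, B.w k z.2 ^ 2) :=
    ContDiff.sum fun k _ => (h1 k).pow 2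
  have h3 : ContDiff ℝ ∞ (fun z : X => (z.1 ^ 4 / 4) ^ 2) := by fun_prop
  exact h3.mul h2

theorem SS_nonneg (B : Bg) (z : X) : 0 ≤ SS B z :=
  mul_nonneg (sq_nonneg _) (Finset.sum_nonneg fun _ _ => sq_nonneg _)

theorem exists_cutoff (B : Bg) (sp : ℝ) (hs : 0 < sp) : ∃ chi : X → ℝ, ContDiff ℝ ∞ chi ∧
    (∀ z, 0 ≤ chi z ∧ chi z ≤ 1) ∧
    (∀ z, chi z ≠ 0 → sp ^ 2 ≤ SS B z ∧ |z.1| ≤ 5 / 4 * B.T) ∧
    (∀ z, |z.1| ≤ B.T → 4 * sp ^ 2 ≤ SS B z → chi z = 1) := by
  have hT := B.hT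
  have hT2 : 0 < B.T ^ 2 := by positivity
  have hsp : 0 < sp ^ 2 := by positivity
  refine ⟨fun z => Real.smoothTransition ((SS B z - sp ^ 2) / (3 * sp ^ 2)) *
    Real.smoothTransition ((25 / 16 * B.T ^ 2 - z.1 ^ 2) / (9 / 16 * B.T ^ 2)), ?_, ?_, ?_, ?_⟩
  · have h1 := SS_smooth B
    have h2 : ContDiff ℝ ∞ (fun z : X => (SS B z - sp ^ 2) / (3 * sp ^ 2)) := by fun_prop
    have h3 : ContDiff ℝ ∞ (fun z : X => (25 / 16 * B.T ^ 2 - z.1 ^ 2) / (9 / 16 * B.T ^ 2)) := by
      fun_prop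
    exact (Real.smoothTransition.contDiff.comp h2).mul (Real.smoothTransition.contDiff.comp h3)
  · intro z
    constructor
    · exact mul_nonneg (Real.smoothTransition.nonneg _) (Real.smoothTransition.nonneg _)
    · exact mul_le_one₀ (Real.smoothTransition.le_one _) (Real.smoothTransition.nonneg _)
        (Real.smoothTransition.le_one _)
  · intro z hz
    have h1 := left_ne_zero_of_mul hz
    have h2 := right_ne_zero_of_mul hz
    constructor
    · by_contra hc
      apply h1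
      apply Real.smoothTransition.zero_of_nonpos
      apply div_nonpos_of_nonpos_of_nonneg _ (by positivity)
      linarith [not_le.mp hc]
    · by_contra hc
      apply h2
      apply Real.smoothTransition.zero_of_nonpos
      apply div_nonpos_of_nonpos_of_nonneg _ (by positivity)
      have h3 : (5 / 4 * B.T) ^ 2 < |z.1| ^ 2 := by
        apply pow_lt_pow_left₀ (not_le.mp hc) (by positivity) (by norm_num)
      rw [sq_abs] at h3
      nlinarith
  · intro z hz hS
    have e1 : Real.smoothTransition ((SS B z - sp ^ 2) / (3 * sp ^ 2)) = 1 := by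
      apply Real.smoothTransition.one_of_one_le
      rw [le_div_iff₀ (by positivity)]
      linarith
    have e2 : Real.smoothTransition ((25 / 16 * B.T ^ 2 - z.1 ^ 2) / (9 / 16 * B.T ^ 2)) = 1 := by
      apply Real.smoothTransition.one_of_one_le
      rw [le_div_iff₀ (by positivity)]
      have h3 : |z.1| ^ 2 ≤ B.T ^ 2 := pow_le_pow_left₀ (abs_nonneg _) hz 2
      rw [sq_abs] at h3
      linarith
    beta_reduce
    rw [e1, e2, one_mul]

/-- `S > 0` forces `x` into the ball. -/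
theorem mem_ball_of_SS_pos (B : Bg) (z : X) (h : 0 < SS B z) : ‖z.2 - B.x0‖ ≤ B.r := by
  have : ∃ k, B.w k z.2 ≠ 0 := by
    by_contra hc
    push Not at hc
    unfold SS at h
    simp [hc] at h
  obtain ⟨k, hk⟩ := this
  exact B.w_supp k z.2 hk

theorem isCompact_region (B : Bg) (sp : ℝ) (hs : 0 < sp) :
    IsCompact {z : X | sp ^ 2 ≤ SS B z ∧ |z.1| ≤ 5 / 4 * B.T} := by
  have hcl : IsClosed {z : X | sp ^ 2 ≤ SS B z ∧ |z.1| ≤ 5 / 4 * B.T} := by
    apply IsClosed.inter
    · exact isClosed_le continuous_const (SS_smooth B).continuous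
    · exact isClosed_le (continuous_abs.comp continuous_fst) continuous_const
  have hK : IsCompact ((Icc (-(5 / 4 * B.T)) (5 / 4 * B.T)) ×ˢ Metric.closedBall B.x0 B.r) :=
    isCompact_Icc.prod (isCompact_closedBall _ _)
  apply hK.of_isClosed_subset hcl
  rintro ⟨t, x⟩ ⟨h1, h2⟩
  refine ⟨?_, ?_⟩
  · exact abs_le.mp h2
  · rw [mem_closedBall_iff_norm]
    apply mem_ball_of_SS_pos B (t, x)
    have : 0 < sp ^ 2 := by positivity
    linarith

/-- Compactness lemma: a continuous function on a compact set which vanishes where the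
non-negative continuous function `S` vanishes is small where `S` is small. -/
theorem exists_small_of_vanish {Z : Type*} [TopologicalSpace Z] {K : Set Z} (hK : IsCompact K)
    {S g : Z → ℝ} (hS : Continuous S) (hg : Continuous g) (hS0 : ∀ x ∈ K, 0 ≤ S x)
    (hv : ∀ x ∈ K, S x = 0 → g x = 0) {η : ℝ} (hη : 0 < η) :
    ∃ δ : ℝ, 0 < δ ∧ ∀ x ∈ K, S x < δ → |g x| < η := by
  by_cases hne : (K ∩ {x | η ≤ |g x|}).Nonempty
  · have hcl : IsCompact (K ∩ {x | η ≤ |g x|}) :=
      hK.inter_right (isClosed_le continuous_const (continuous_abs.comp hg))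
    obtain ⟨x0, hx0, hmin⟩ := hcl.exists_isMinOn hne hS.continuousOn
    refine ⟨S x0, ?_, fun x hx hlt => ?_⟩
    · rcases (hS0 x0 hx0.1).lt_or_eq with h | h
      · exact h
      · exfalso
        have := hv x0 hx0.1 h.symm
        have h3 : η ≤ |g x0| := hx0.2
        rw [this, abs_zero] at h3
        linarith
    · by_contra hc
      have := hmin (a := x) ⟨hx, not_lt.mp hc⟩
      have h' : S x0 ≤ S x := this
      linarith
  · refine ⟨1, one_pos, fun x hx _ => ?_⟩
    by_contra hc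
    exact hne ⟨x, hx, not_lt.mp hc⟩

theorem continuous_pd {g : V3 → ℝ} (hg : ContDiff ℝ ∞ g) (j : Fin 3) : ContDiff ℝ ∞ (pd j g) := by
  have h2 : ContDiff ℝ ∞ (fderiv ℝ g) := hg.fderiv_right (m := ∞) (by simp)
  exact h2.clm_apply contDiff_const

theorem mm_continuous (B : Bg) (k : Fin 3) : Continuous (mm B k) := by
  unfold mm lap3
  have h1 : ∀ k, Continuous (fun z : X => B.w k z.2) := fun k =>
    (B.w_smooth k).continuous.comp continuous_snd
  have h2 : ∀ j, Continuous (fun z : X => pd j (B.w k) z.2) := fun j =>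
    (continuous_pd (B.w_smooth k) j).continuous.comp continuous_snd
  have h3 : ∀ j, Continuous (fun z : X => pd j (pd j (B.w k)) z.2) := fun j =>
    (continuous_pd (continuous_pd (B.w_smooth k) j) j).continuous.comp continuous_snd
  fun_prop

theorem mm_nonneg (B : Bg) (k : Fin 3) (z : X) : 0 ≤ mm B k z := by
  unfold mm
  positivity

theorem mm_eq_zero_of_w {B : Bg} {z : X} (h : ∀ k, B.w k z.2 = 0) (k : Fin 3) : mm B k z = 0 := by
  unfold mm
  rw [B.w_lap z.2 h k]
  simp [h]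

theorem mm_eq_zero_of_SS {B : Bg} {z : X} (h : SS B z = 0) (k : Fin 3) : mm B k z = 0 := by
  unfold SS at h
  rcases mul_eq_zero.mp h with h1 | h1
  · have ht : z.1 = 0 := by
      unfold th at h1
      have := pow_eq_zero_iff (n := 2) (by norm_num) |>.mp h1
      have h4 : z.1 ^ 4 = 0 := by linarith
      exact pow_eq_zero_iff (by norm_num) |>.mp h4
    unfold mm
    rw [ht]
    simp
  · apply mm_eq_zero_of_w
    intro j
    have := (Finset.sum_eq_zero_iff_of_nonneg (fun i _ => sq_nonneg (B.w i z.2))).mp h1 j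
      (Finset.mem_univ j)
    exact pow_eq_zero_iff (n := 2) (by norm_num) |>.mp this

theorem small_region (B : Bg) (η : ℝ) (hη : 0 < η) : ∃ s1, 0 < s1 ∧
    ∀ z : X, |z.1| ≤ B.T → SS B z < s1 ^ 2 → ∀ k, mm B k z ≤ η := by
  have hK : IsCompact ((Icc (-B.T) B.T) ×ˢ Metric.closedBall B.x0 B.r) :=
    isCompact_Icc.prod (isCompact_closedBall _ _)
  have h : ∀ k, ∃ δ : ℝ, 0 < δ ∧ ∀ z ∈ ((Icc (-B.T) B.T) ×ˢ Metric.closedBall B.x0 B.r),
      SS B z < δ → |mm B k z| < η := fun k =>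
    exists_small_of_vanish hK (SS_smooth B).continuous (mm_continuous B k)
      (fun z _ => SS_nonneg B z) (fun z _ hz => mm_eq_zero_of_SS hz k) hη
  choose δ hδ hδ' using h
  set d : ℝ := min (δ 0) (min (δ 1) (δ 2)) with hd
  have hdp : 0 < d := lt_min (hδ 0) (lt_min (hδ 1) (hδ 2))
  have hdle : ∀ k, d ≤ δ k := by
    intro k
    fin_cases k
    · exact min_le_left _ _
    · exact (min_le_right _ _).trans (min_le_left _ _)
    · exact (min_le_right _ _).trans (min_le_right _ _)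
  refine ⟨Real.sqrt d, Real.sqrt_pos.mpr hdp, fun z hz hS k => ?_⟩
  rw [Real.sq_sqrt hdp.le] at hS
  by_cases hx : z.2 ∈ Metric.closedBall B.x0 B.r
  · exact (le_abs_self _).trans (hδ' k z ⟨abs_le.mp hz, hx⟩ (hS.trans_le (hdle k))).le
  · have : ∀ k, B.w k z.2 = 0 := by
      intro k
      by_contra hc
      exact hx (mem_closedBall_iff_norm.mpr (B.w_supp k z.2 hc))
    rw [mm_eq_zero_of_w this k]
    exact hη.le

/-! ### the base error -/

theorem dx_eq_of_eventuallyEq {f g : X → ℝ} {z : X} (h : f =ᶠ[𝓝 z] g) (j : Fin 3) :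
    dx j f z = dx j g z := by
  unfold dx
  rw [h.fderiv_eq]

theorem dt_eq_of_eventuallyEq {f g : X → ℝ} {z : X} (h : f =ᶠ[𝓝 z] g) :
    dt f z = dt g z := by
  unfold dt
  rw [h.fderiv_eq]

theorem dx_eventuallyEq {f g : X → ℝ} {z : X} (h : f =ᶠ[𝓝 z] g) (j : Fin 3) :
    dx j f =ᶠ[𝓝 z] dx j g := by
  filter_upwards [h.eventuallyEq_nhds] with y hy
  exact dx_eq_of_eventuallyEq hy j

theorem lap_eq_of_eventuallyEq {f g : X → ℝ} {z : X} (h : f =ᶠ[𝓝 z] g) :
    lap f z = lap g z := by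
  unfold lap
  apply Finset.sum_congr rfl
  intro j _
  exact dx_eq_of_eventuallyEq (dx_eventuallyEq h j) j

theorem base_hasFDerivAt {m : ℝ → ℝ} {m' : ℝ} {w : V3 → ℝ} {z : X} (hm : HasDerivAt m m' z.1)
    (hw : DifferentiableAt ℝ w z.2) :
    HasFDerivAt (fun y : X => m y.1 * w y.2)
      (m z.1 • (fderiv ℝ w z.2).comp (ContinuousLinearMap.snd ℝ ℝ V3) +
        w z.2 • (m' • ContinuousLinearMap.fst ℝ ℝ V3)) z := by
  have h1 : HasFDerivAt (fun y : X => m y.1) (m' • ContinuousLinearMap.fst ℝ ℝ V3) z := by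
    have := hm.comp_hasFDerivAt z (hasFDerivAt_fst (𝕜 := ℝ) (p := z))
    exact this
  have h2 : HasFDerivAt (fun y : X => w y.2)
      ((fderiv ℝ w z.2).comp (ContinuousLinearMap.snd ℝ ℝ V3)) z :=
    hw.hasFDerivAt.comp z hasFDerivAt_snd
  exact h1.mul h2

theorem dx_base {m : ℝ → ℝ} {m' : ℝ} {w : V3 → ℝ} {z : X} (hm : HasDerivAt m m' z.1)
    (hw : DifferentiableAt ℝ w z.2) (j : Fin 3) :
    dx j (fun y : X => m y.1 * w y.2) z = m z.1 * pd j w z.2 := by
  unfold dx pd
  rw [(base_hasFDerivAt hm hw).fderiv]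
  simp

theorem dt_base {m : ℝ → ℝ} {m' : ℝ} {w : V3 → ℝ} {z : X} (hm : HasDerivAt m m' z.1)
    (hw : DifferentiableAt ℝ w z.2) :
    dt (fun y : X => m y.1 * w y.2) z = m' * w z.2 := by
  unfold dt
  rw [(base_hasFDerivAt hm hw).fderiv]
  simp
  ring

theorem lap_base {m : ℝ → ℝ} (hm : Differentiable ℝ m) {w : V3 → ℝ} (hw : ContDiff ℝ ∞ w)
    (z : X) : lap (fun y : X => m y.1 * w y.2) z = m z.1 * lap3 w z.2 := by
  unfold lap lap3
  rw [Finset.mul_sum]
  apply Finset.sum_congr rfl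
  intro j _
  have e : dx j (fun y : X => m y.1 * w y.2) = fun y : X => m y.1 * pd j w y.2 := by
    funext y
    exact dx_base (hm y.1).hasDerivAt (hw.differentiable (by simp) _) j
  rw [e]
  exact dx_base (hm z.1).hasDerivAt ((continuous_pd hw j).differentiable (by simp) _) j

theorem sg_sq (i : Fin 2) : sg i * sg i = 1 := by
  unfold sg
  split_ifs <;> norm_num

theorem sg_abs (i : Fin 2) : |sg i| = 1 := by
  unfold sg
  split_ifs <;> norm_num

/-- on the untouched region the error is small -/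
theorem Stage.base_error (st : Stage B) (ε C : ℝ) (i : Fin 2) (k : Fin 3) (z : X)
    (hS : SS B z < st.s ^ 2) (hC : |st.dens i z + ε * C| ≤ 2) :
    |st.E i k z + ε * C * acc (st.u i) st.f k z| ≤ mm B k z := by
  have hopen : {y : X | SS B y < st.s ^ 2} ∈ 𝓝 z :=
    (isOpen_lt (SS_smooth B).continuous continuous_const).mem_nhds hS
  have hm : Differentiable ℝ (fun t : ℝ => sg i * aa t) := by
    unfold aa
    fun_prop
  have hmd : HasDerivAt (fun t : ℝ => sg i * aa t) (sg i * (3 * z.1 ^ 2)) z.1 := by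
    have := (hasDerivAt_pow 3 z.1).const_mul (sg i)
    simpa [aa] using this
  have hu : ∀ k, st.u i k =ᶠ[𝓝 z] fun y : X => (sg i * aa y.1) * B.w k y.2 := by
    intro k
    filter_upwards [hopen] with y hy
    exact (st.base y hy i k).1
  have hp : st.p i =ᶠ[𝓝 z] fun _ => 0 := by
    filter_upwards [hopen] with y hy
    exact (st.base y hy i 0).2.2
  have hw : ∀ k, DifferentiableAt ℝ (B.w k) z.2 := fun k =>
    (B.w_smooth k).differentiable (by simp) _
  have e1 : ∀ k, dt (st.u i k) z = sg i * (3 * z.1 ^ 2) * B.w k z.2 := fun k => by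
    rw [dt_eq_of_eventuallyEq (hu k)]
    exact dt_base hmd (hw k)
  have e2 : ∀ j k, dx j (st.u i k) z = sg i * aa z.1 * pd j (B.w k) z.2 := fun j k => by
    rw [dx_eq_of_eventuallyEq (hu k)]
    exact dx_base hmd (hw k) j
  have e3 : lap (st.u i k) z = sg i * aa z.1 * lap3 (B.w k) z.2 := by
    rw [lap_eq_of_eventuallyEq (hu k)]
    exact lap_base hm (B.w_smooth k) z
  have e4 : dx k (st.p i) z = 0 := by
    rw [dx_eq_of_eventuallyEq hp]
    unfold dx
    simp
  have e5 : st.f k z = 0 := (st.base z hS i k).2.1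
  have e6 : ∀ j, st.u i j z = sg i * aa z.1 * B.w j z.2 := fun j => (st.base z hS i j).1
  have hacc : acc (st.u i) st.f k z = sg i * (3 * z.1 ^ 2 * B.w k z.2) +
      z.1 ^ 6 * ∑ j, B.w j z.2 * pd j (B.w k) z.2 := by
    unfold acc
    rw [e1, e5, Finset.mul_sum]
    simp only [e2, e6]
    have : ∀ j, sg i * aa z.1 * B.w j z.2 * (sg i * aa z.1 * pd j (B.w k) z.2) =
        z.1 ^ 6 * (B.w j z.2 * pd j (B.w k) z.2) := by
      intro j
      have h := sg_sq i
      unfold aa
      calc _ = (sg i * sg i) * (z.1 ^ 6 * (B.w j z.2 * pd j (B.w k) z.2)) := by ring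
        _ = _ := by rw [h, one_mul]
    simp only [this]
    ring
  have hE : st.E i k z + ε * C * acc (st.u i) st.f k z =
      (st.dens i z + ε * C) * acc (st.u i) st.f k z - sg i * (z.1 ^ 3 * lap3 (B.w k) z.2) := by
    unfold Stage.E
    rw [e3, e4]
    unfold aa
    ring
  rw [hE]
  have hA : |acc (st.u i) st.f k z| ≤ |3 * z.1 ^ 2 * B.w k z.2| +
      |z.1 ^ 6 * ∑ j, B.w j z.2 * pd j (B.w k) z.2| := by
    rw [hacc]
    refine (abs_add_le _ _).trans ?_
    rw [abs_mul (sg i), sg_abs, one_mul]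
  calc |(st.dens i z + ε * C) * acc (st.u i) st.f k z - sg i * (z.1 ^ 3 * lap3 (B.w k) z.2)|
      ≤ |(st.dens i z + ε * C) * acc (st.u i) st.f k z| + |sg i * (z.1 ^ 3 * lap3 (B.w k) z.2)| :=
        abs_sub _ _
    _ ≤ 2 * |acc (st.u i) st.f k z| + |z.1 ^ 3 * lap3 (B.w k) z.2| := by
        rw [abs_mul, abs_mul (sg i), sg_abs, one_mul]
        gcongr
    _ ≤ mm B k z := by
        unfold mm
        gcongr

end H37.MHD
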