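import Pool.Agent.H92.MHD_Region
import Pool.Agent.H33.MHD_Flow

/-!
# M5c: the initial stage (helper92)
-/

open MeasureTheory Set Filter Topology
open scoped ContDiff
open H36.MHD

noncomputable section

namespace H37.MHD

variable {B : Bg}

/-- base velocities -/
def u0 (B : Bg) (i : Fin 2) (k : Fin 3) (z : X) : ℝ := (sg i * aa z.1) * B.w k z.2

theorem u0_smooth (B : Bg) (i : Fin 2) (k : Fin 3) : ContDiff ℝ ∞ (u0 B i k) := by
  unfold u0 aa
  have h1 : ContDiff ℝ ∞ (fun z : X => B.w k z.2) := (B.w_smooth k).comp contDiff_snd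
  fun_prop

theorem differentiable_sgaa (i : Fin 2) : Differentiable ℝ (fun t : ℝ => sg i * aa t) := by
  unfold aa
  fun_prop

theorem u0_div (B : Bg) (i : Fin 2) (z : X) : ∑ k, dx k (u0 B i k) z = 0 := by
  have h : ∀ k, dx k (u0 B i k) z = sg i * aa z.1 * pd k (B.w k) z.2 := fun k =>
    dx_base (differentiable_sgaa i z.1).hasDerivAt ((B.w_smooth k).differentiable (by simp) _) k
  simp only [h]
  rw [← Finset.mul_sum, B.w_div, mul_zero]

/-- Lipschitz constant of the base velocities -/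
def K0 (B : Bg) : ℝ := 8 * B.T ^ 3 * B.kap

theorem K0_nonneg (B : Bg) : 0 ≤ K0 B := by
  have := B.hT
  have := B.hkap
  unfold K0
  positivity

theorem K0_lt (B : Bg) : K0 B < Kmax B := by
  have hT := B.hT
  have h := B.hkT
  unfold K0 Kmax
  rw [lt_div_iff₀ (by positivity)]
  nlinarith

theorem u0_lip (B : Bg) (i : Fin 2) (t : ℝ) (ht : |t| ≤ 2 * B.T) (x y : V3) :
    ‖vec (u0 B i) (t, x) - vec (u0 B i) (t, y)‖ ≤ K0 B * ‖x - y‖ := by
  have e : vec (u0 B i) (t, x) - vec (u0 B i) (t, y) =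
      (sg i * aa t) • ((fun k => B.w k x) - (fun k => B.w k y)) := by
    funext k
    simp [vec, u0]
    ring
  rw [e, norm_smul, Real.norm_eq_abs, abs_mul, sg_abs, one_mul]
  have h1 : |aa t| ≤ 8 * B.T ^ 3 := by
    unfold aa
    rw [abs_pow]
    calc |t| ^ 3 ≤ (2 * B.T) ^ 3 := pow_le_pow_left₀ (abs_nonneg _) ht 3
      _ = 8 * B.T ^ 3 := by ring
  calc |aa t| * ‖(fun k => B.w k x) - (fun k => B.w k y)‖
      ≤ (8 * B.T ^ 3) * (B.kap * ‖x - y‖) := by
        apply mul_le_mul h1 (B.w_lip x y) (norm_nonneg _)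
        have := B.hT
        positivity
    _ = K0 B * ‖x - y‖ := by unfold K0; ring

/-- the initial stage: `rho = 1`, `u_i = ± a w`, `f = 0`, `p = 0` (uses `flow_exists`). -/
theorem exists_stage0_of_flow (B : Bg)
    (hflow : ∀ (T K : ℝ), 0 < T → 0 ≤ K → K * (40 * T) ≤ 1 →
      ∀ (U : Fin 3 → X → ℝ), (∀ k, ContDiff ℝ ∞ (U k)) →
      (∀ t, |t| ≤ 2 * T → ∀ x y, ‖vec U (t, x) - vec U (t, y)‖ ≤ K * ‖x - y‖) →
      ∃ Y : Fin 3 → X → ℝ, (∀ k, ContDiff ℝ ∞ (Y k)) ∧
        (∀ t x, |t| ≤ 3 / 2 * T → BackPath (vec U) t x (vec Y (t, x))) ∧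
        (∀ j z, |z.1| < 3 / 2 * T → dt (Y j) z + ∑ k, U k z * dx k (Y j) z = 0)) :
    ∃ st : Stage B, (∀ y, st.rho y = 1) := by
  have hK : K0 B * (40 * B.T) ≤ 1 := by
    have := K0_lt B
    unfold Kmax at this
    rw [lt_div_iff₀ (by have := B.hT; positivity)] at this
    exact this.le
  have h := fun i => hflow B.T (K0 B) B.hT (K0_nonneg B) hK (u0 B i) (u0_smooth B i)
    (fun t ht x y => u0_lip B i t ht x y)
  choose Y hY1 hY2 hY3 using h
  have hcm : 0 < cmax B := by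
    have := B.hT
    unfold cmax
    positivity
  refine ⟨{
    rho := fun _ => 1
    u := u0 B
    f := fun _ _ => 0
    p := fun _ _ => 0
    Y := Y
    rho_smooth := contDiff_const
    u_smooth := u0_smooth B
    f_smooth := fun _ => contDiff_const
    p_smooth := fun _ => contDiff_const
    Y_smooth := hY1
    u_div := u0_div B
    s := 1
    s_pos := one_pos
    base := fun z _ i k => ⟨rfl, rfl, rfl⟩
    lip := ⟨K0 B, K0_nonneg B, K0_lt B, fun i t ht x y => u0_lip B i t ht x y⟩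
    close := ⟨0, le_refl _, hcm, fun i z _ => ?_⟩
    path := hY2
    trans := hY3 }, fun _ => rfl⟩
  have e : vec (u0 B i) z - (sg i * aa z.1) • wv B z.2 = 0 := by
    funext k
    simp [vec, u0, wv]
  rw [e]
  simp

/-- the initial stage: `rho = 1`, `u_i = ± a w`, `f = 0`, `p = 0`. -/
theorem exists_stage0 (B : Bg) : ∃ st : Stage B, (∀ y, st.rho y = 1) :=
  exists_stage0_of_flow B fun T K hT hK hTK U hU hL => flow_exists T K hT hK hTK U hU hL

end H37.MHD
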