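import Mathlib

set_option autoImplicit false

open scoped BigOperators ContDiff
open MeasureTheory

namespace Pool.Agent.H92.ArithP1

/-- A hermitian line bundle on the arithmetic variety `(ℙ¹_ℤ)^d`: the line bundle is
`O(deg 0, …, deg (d-1))` (every line bundle on `(ℙ¹_ℤ)^d` is of this form), and its smooth hermitian
metric is given by `‖s‖(z) = |s(z)| / N z` for a local section `s`, seen as a multihomogeneous
function of multidegree `deg` of the homogeneous coordinates `z i 0, z i 1` of the `i`-th factor.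
The metric is invariant under complex conjugation. -/
structure HermLB (d : ℕ) where
  deg : Fin d → ℤ
  N : (Fin d → Fin 2 → ℂ) → ℝ
  pos : ∀ z, (∀ i, z i ≠ 0) → 0 < N z
  homog : ∀ (c : Fin d → ℂ) (z : Fin d → Fin 2 → ℂ), (∀ i, c i ≠ 0) → (∀ i, z i ≠ 0) →
    N (fun i => c i • z i) = (∏ i, ‖c i‖ ^ deg i) * N z
  smooth : ContDiffOn ℝ ∞ N {z | ∀ i, z i ≠ 0}
  conj : ∀ z, (∀ i, z i ≠ 0) → N (fun i b => (starRingEnd ℂ) (z i b)) = N z

/-- A morphism `(ℙ¹_ℤ)^m → (ℙ¹_ℤ)^d` over `ℤ`: its `j`-th component is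
`[F j 0 : F j 1]` for two multihomogeneous forms with integer coefficients, of the same
multidegree `deg j`, without common zero over any field. -/
structure Mor (m d : ℕ) where
  F : Fin d → Fin 2 → MvPolynomial (Fin m × Fin 2) ℤ
  deg : Fin d → Fin m → ℕ
  homog : ∀ j b, ∀ e ∈ (F j b).support, ∀ i, e (i, 0) + e (i, 1) = deg j i
  bpf : ∀ (K : Type) [Field K] (z : Fin m → Fin 2 → K), (∀ i, z i ≠ 0) →
    ∀ j, ∃ b, MvPolynomial.aeval (fun p : Fin m × Fin 2 => z p.1 p.2) (F j b) ≠ 0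

/-- The map on homogeneous coordinates. -/
noncomputable def Mor.map {m d : ℕ} (φ : Mor m d) {K : Type} [Field K]
    (z : Fin m → Fin 2 → K) : Fin d → Fin 2 → K :=
  fun j b => MvPolynomial.aeval (fun p : Fin m × Fin 2 => z p.1 p.2) (φ.F j b)

lemma Mor.map_ne_zero {m d : ℕ} (φ : Mor m d) {K : Type} [Field K]
    (z : Fin m → Fin 2 → K) (hz : ∀ i, z i ≠ 0) (j : Fin d) : φ.map z j ≠ 0 := by
  obtain ⟨b, hb⟩ := φ.bpf K z hz j
  intro h
  exact hb (congrFun h b)

lemma aeval_homog {m : ℕ} {K : Type} [Field K] (P : MvPolynomial (Fin m × Fin 2) ℤ)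
    (δ : Fin m → ℕ) (hP : ∀ e ∈ P.support, ∀ i, e (i, 0) + e (i, 1) = δ i)
    (c : Fin m → K) (z : Fin m → Fin 2 → K) :
    MvPolynomial.aeval (fun p : Fin m × Fin 2 => (c p.1 • z p.1) p.2) P =
      (∏ i, c i ^ δ i) * MvPolynomial.aeval (fun p : Fin m × Fin 2 => z p.1 p.2) P := by
  rw [MvPolynomial.aeval_def, MvPolynomial.aeval_def, MvPolynomial.eval₂_eq',
    MvPolynomial.eval₂_eq', Finset.mul_sum]
  refine Finset.sum_congr rfl fun e he => ?_
  have h1 : ∏ i : Fin m × Fin 2, (c i.1 • z i.1) i.2 ^ e i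
      = (∏ i, c i ^ δ i) * ∏ i : Fin m × Fin 2, z i.1 i.2 ^ e i := by
    simp only [Pi.smul_apply, smul_eq_mul, mul_pow]
    rw [Finset.prod_mul_distrib]
    congr 1
    rw [Fintype.prod_prod_type]
    refine Finset.prod_congr rfl fun i _ => ?_
    rw [Fin.prod_univ_two, ← pow_add, hP e he i]
  rw [h1]
  ring

lemma Mor.map_smul {m d : ℕ} (φ : Mor m d) {K : Type} [Field K] (c : Fin m → K)
    (z : Fin m → Fin 2 → K) :
    φ.map (fun i => c i • z i) = fun j => (∏ i, c i ^ φ.deg j i) • φ.map z j := by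
  funext j b
  exact aeval_homog (φ.F j b) (φ.deg j) (φ.homog j b) c z

lemma zpow_sum_aux {ι : Type} (s : Finset ι) (a : ℝ) (ha : a ≠ 0) (f : ι → ℤ) :
    ∏ x ∈ s, a ^ f x = a ^ ∑ x ∈ s, f x := by
  classical
  induction s using Finset.induction_on with
  | empty => simp
  | insert x s hx ih => rw [Finset.prod_insert hx, Finset.sum_insert hx, ih, zpow_add₀ ha]

lemma contDiff_aeval {σ : Type} [Fintype σ] {E : Type} [NormedAddCommGroup E] [NormedSpace ℝ E]
    (g : σ → E → ℂ) (hg : ∀ s, ContDiff ℝ ∞ (g s)) (P : MvPolynomial σ ℤ) :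
    ContDiff ℝ ∞ (fun x => MvPolynomial.aeval (fun s => g s x) P) := by
  induction P using MvPolynomial.induction_on with
  | C a => simpa using contDiff_const
  | add p q hp hq => simpa using hp.add hq
  | mul_X p s hp => simpa using hp.mul (hg s)

lemma Mor.contDiff_map {m d : ℕ} (φ : Mor m d) :
    ContDiff ℝ ∞ (fun z : Fin m → Fin 2 → ℂ => φ.map z) := by
  refine contDiff_pi.2 fun j => contDiff_pi.2 fun b => ?_
  refine contDiff_aeval (fun (p : Fin m × Fin 2) (z : Fin m → Fin 2 → ℂ) => z p.1 p.2) ?_ (φ.F j b)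
  intro p
  fun_prop

lemma Mor.map_conj {m d : ℕ} (φ : Mor m d) (z : Fin m → Fin 2 → ℂ) :
    φ.map (fun i b => (starRingEnd ℂ) (z i b)) = fun j b => (starRingEnd ℂ) (φ.map z j b) := by
  funext j b
  unfold Mor.map
  induction φ.F j b using MvPolynomial.induction_on with
  | C a => simp
  | add p q hp hq => simp [hp, hq]
  | mul_X p s hp => simp [hp]

/-- The pull-back `φ^* L` of a hermitian line bundle. -/
noncomputable def HermLB.pullback {m d : ℕ} (φ : Mor m d) (L : HermLB d) : HermLB m where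
  deg i := ∑ j, L.deg j * (φ.deg j i : ℤ)
  N z := L.N (φ.map z)
  pos z hz := L.pos _ (fun j => φ.map_ne_zero z hz j)
  homog c z hc hz := by
    rw [φ.map_smul c z, L.homog _ _ (fun j => Finset.prod_ne_zero_iff.2 fun i _ => pow_ne_zero _ (hc i))
      (fun j => φ.map_ne_zero z hz j)]
    congr 1
    have : ∀ j, ‖∏ i, c i ^ φ.deg j i‖ ^ L.deg j = ∏ i, ‖c i‖ ^ (L.deg j * (φ.deg j i : ℤ)) := by
      intro j
      rw [norm_prod, ← Finset.prod_zpow]
      refine Finset.prod_congr rfl fun i _ => ?_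
      rw [norm_pow, ← zpow_natCast, ← zpow_mul, mul_comm]
    simp_rw [this]
    rw [Finset.prod_comm]
    refine Finset.prod_congr rfl fun i _ => ?_
    exact zpow_sum_aux _ _ (norm_ne_zero_iff.2 (hc i)) _
  smooth := by
    refine L.smooth.comp φ.contDiff_map.contDiffOn ?_
    intro z hz j
    exact φ.map_ne_zero z hz j
  conj z hz := by
    rw [φ.map_conj, L.conj _ (fun j => φ.map_ne_zero z hz j)]

/-- The restriction of `L` to the face `z i = [0 : 1]` of `(ℙ¹_ℤ)^(d+1)` (this is the divisor of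
the coordinate section `z i 0`), a copy of `(ℙ¹_ℤ)^d`. -/
noncomputable def HermLB.face {d : ℕ} (L : HermLB (d + 1)) (i : Fin (d + 1)) : HermLB d where
  deg j := L.deg (i.succAbove j)
  N z := L.N (i.insertNth (![0, 1] : Fin 2 → ℂ) z)
  pos z hz := L.pos _ (by
    intro j
    refine Fin.succAboveCases i ?_ ?_ j
    · intro h
      have := congrFun h 1
      simp at this
    · intro k
      simpa using hz k)
  homog c z hc hz := by
    have h1 : (i.insertNth (![0, 1] : Fin 2 → ℂ) (fun j => c j • z j) : Fin (d + 1) → Fin 2 → ℂ)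
        = fun j => (i.insertNth (1 : ℂ) c : Fin (d + 1) → ℂ) j •
            (i.insertNth (![0, 1] : Fin 2 → ℂ) z : Fin (d + 1) → Fin 2 → ℂ) j := by
      funext j
      refine Fin.succAboveCases i ?_ ?_ j
      · simp
      · intro k; simp
    rw [h1, L.homog]
    · rw [Fin.prod_univ_succAbove _ i]
      simp
    · intro j
      refine Fin.succAboveCases i ?_ ?_ j
      · simp
      · intro k; simpa using hc k
    · intro j
      refine Fin.succAboveCases i ?_ ?_ j
      · intro h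
        have := congrFun h 1
        simp at this
      · intro k; simpa using hz k
  smooth := by
    have hc : ContDiff ℝ ∞ (fun z : Fin d → Fin 2 → ℂ =>
        (i.insertNth (![0, 1] : Fin 2 → ℂ) z : Fin (d + 1) → Fin 2 → ℂ)) := by
      refine contDiff_pi.2 fun j => ?_
      refine Fin.succAboveCases i ?_ ?_ j
      · simpa using contDiff_const
      · intro k
        simp only [Fin.insertNth_apply_succAbove]
        fun_prop
    refine L.smooth.comp hc.contDiffOn ?_
    intro z hz j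
    refine Fin.succAboveCases i ?_ ?_ j
    · intro h
      have := congrFun h 1
      simp at this
    · intro k
      simpa using hz k
  conj z hz := by
    have h1 : (i.insertNth (![0, 1] : Fin 2 → ℂ) (fun j b => (starRingEnd ℂ) (z j b)) :
        Fin (d + 1) → Fin 2 → ℂ)
        = fun j b => (starRingEnd ℂ) ((i.insertNth (![0, 1] : Fin 2 → ℂ) z :
            Fin (d + 1) → Fin 2 → ℂ) j b) := by
      funext j b
      refine Fin.succAboveCases i ?_ ?_ j
      · fin_cases b <;> simp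
      · intro k; simp
    rw [h1, L.conj]
    intro j
    refine Fin.succAboveCases i ?_ ?_ j
    · intro h
      have := congrFun h 1
      simp at this
    · intro k; simpa using hz k

/-- On the affine chart `t ↦ ([1 : t i])_i` of `(ℙ¹(ℂ))^d`, the function `-log ‖s‖` for the
coordinate section `s = ∏ i, (z i 0) ^ deg i`, which has no zero there. -/
noncomputable def HermLB.potential {d : ℕ} (L : HermLB d) (t : Fin d → ℂ) : ℝ :=
  Real.log (L.N (fun i => ![1, t i]))

/-- The second directional derivative `∂_v ∂_w u` at `z`. -/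
noncomputable def D2 {E : Type} [AddCommGroup E] [Module ℝ E] (u : E → ℝ) (z v w : E) : ℝ :=
  deriv (fun s : ℝ => deriv (fun t : ℝ => u (z + s • v + t • w)) 0) 0

/-- The complex Hessian `(∂² u / ∂ t_i ∂ \bar t_j)_{i,j}`. -/
noncomputable def levi {d : ℕ} (u : (Fin d → ℂ) → ℝ) (t : Fin d → ℂ) :
    Matrix (Fin d) (Fin d) ℂ := fun i j =>
  (((D2 u t (Pi.single i 1) (Pi.single j 1) +
      D2 u t (Pi.single i Complex.I) (Pi.single j Complex.I) : ℝ) : ℂ) +
    ((D2 u t (Pi.single i 1) (Pi.single j Complex.I) -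
      D2 u t (Pi.single i Complex.I) (Pi.single j 1) : ℝ) : ℂ) * Complex.I) / 4

/-- The density with respect to Lebesgue measure on `ℂ^d` of the top degree form
`dd^c u_0 ∧ ⋯ ∧ dd^c u_{d-1}`, where `dd^c = (i/π) ∂ \bar∂`. -/
noncomputable def mixedMA {d : ℕ} (u : Fin d → (Fin d → ℂ) → ℝ) (t : Fin d → ℂ) : ℝ :=
  (2 / Real.pi) ^ d * (∑ σ : Equiv.Perm (Fin d), ∑ τ : Equiv.Perm (Fin d),
    ((Equiv.Perm.sign σ : ℤ) : ℂ) * ((Equiv.Perm.sign τ : ℤ) : ℂ) *
      ∏ k, levi (u k) t (σ k) (τ k)).re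

/-- The arithmetic intersection number `deg (c₁(L 0) ⋯ c₁(L d))` of `d + 1` hermitian line bundles
on `(ℙ¹_ℤ)^d`, by the induction formula for the coordinate section `s = ∏ i, (z i 0) ^ deg i`
of the last one: the intersection number of the other ones on `div s = ∑ i, deg i • {z i = [0:1]}`,
plus the integral of `-log ‖s‖ c₁(L 0) ∧ ⋯ ∧ c₁(L (d-1))`; for `d = 0` it is the
arithmetic degree `-log ‖1‖`. -/
noncomputable def arithInt : (d : ℕ) → (Fin (d + 1) → HermLB d) → ℝ
  | 0, L => Real.log ((L 0).N (fun i => i.elim0))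
  | d + 1, L =>
    ∑ i : Fin (d + 1), ((L (Fin.last (d + 1))).deg i : ℝ) *
        arithInt d (fun j => (L j.castSucc).face i) +
      ∫ t : Fin (d + 1) → ℂ, (L (Fin.last (d + 1))).potential t *
        mixedMA (fun j => (L j.castSucc).potential) t

/-- Integral sections of `L^{⊗ n}` on `(ℙ¹_ℤ)^d`. -/
def IsSection {d : ℕ} (L : HermLB d) (n : ℕ) (s : MvPolynomial (Fin d × Fin 2) ℤ) : Prop :=
  ∀ e ∈ s.support, ∀ i, ((e (i, 0) + e (i, 1) : ℕ) : ℤ) = n * L.deg i

/-- The integral section `s` of `L^{⊗ n}` has sup-norm `< 1`. -/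
def IsSmall {d : ℕ} (L : HermLB d) (n : ℕ) (s : MvPolynomial (Fin d × Fin 2) ℤ) : Prop :=
  ∃ ρ : ℝ, ρ < 1 ∧ ∀ z : Fin d → Fin 2 → ℂ, (∀ i, z i ≠ 0) →
    ‖MvPolynomial.aeval (fun p : Fin d × Fin 2 => z p.1 p.2) s‖ ≤ ρ * L.N z ^ n

/-- `L` is arithmetically ample: it is ample, its curvature form is positive definite at every
point of `(ℙ¹(ℂ))^d`, and for all large `n` the group of integral sections of `L^{⊗ n}` is
generated by sections of sup-norm `< 1`. -/
structure HermLB.ArithAmple {d : ℕ} (L : HermLB d) : Prop where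
  ample : ∀ i, 0 < L.deg i
  curvature : ∀ z : Fin d → Fin 2 → ℂ, (∀ i, z i ≠ 0) → ∀ v : Fin d → Fin 2 → ℂ,
    (∃ i, ∀ c : ℂ, v i ≠ c • z i) →
    0 < D2 (fun w => Real.log (L.N w)) z v v +
      D2 (fun w => Real.log (L.N w)) z (Complex.I • v) (Complex.I • v)
  small : ∃ n₀ : ℕ, ∀ n ≥ n₀, ∀ s, IsSection L n s →
    s ∈ AddSubgroup.closure {s' | IsSection L n s' ∧ IsSmall L n s'}

/-- For an endomorphism `f` of `(ℙ¹_ℤ)^d`:
`α_k(f) = limsup deg (c₁((f^n)^* H)^k c₁(H)^(d+1-k))^(1/n)`. -/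
noncomputable def alpha {d : ℕ} (H : HermLB d) (f : Mor d d) (k : ℕ) : ℝ :=
  Filter.limsup (fun n : ℕ => (arithInt d (fun j : Fin (d + 1) =>
    if (j : ℕ) < k then (HermLB.pullback f)^[n] H else H)) ^ (1 / (n : ℝ))) Filter.atTop

/-- For an endomorphism `f` of `(ℙ¹_ℤ)^d` and a closed subscheme `𝒱` which is the isomorphic image
of `(ℙ¹_ℤ)^k` under `φ`:
`α_{k+1}(f; V) = limsup deg (c₁((f^n)^* H)^(k+1) · 𝒱)^(1/n)`, the intersection number being
computed on `(ℙ¹_ℤ)^k` with the pull-backs by `φ`. -/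
noncomputable def alphaSub {d k : ℕ} (H : HermLB d) (f : Mor d d) (φ : Mor k d) : ℝ :=
  Filter.limsup (fun n : ℕ => (arithInt k (fun _ : Fin (k + 1) =>
    HermLB.pullback φ ((HermLB.pullback f)^[n] H))) ^ (1 / (n : ℝ))) Filter.atTop

/-- `f` is surjective on complex points. -/
def Mor.SurjectiveOnPoints {d : ℕ} (f : Mor d d) : Prop :=
  ∀ w : Fin d → Fin 2 → ℂ, (∀ i, w i ≠ 0) →
    ∃ z : Fin d → Fin 2 → ℂ, (∀ i, z i ≠ 0) ∧ ∀ j, ∃ c : ℂ, c ≠ 0 ∧ f.map z j = c • w j

/-- `φ` has a retraction, a morphism `ψ` over `ℤ` with `ψ ∘ φ = id` (checked on points over all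
fields); so `φ` is a closed immersion, an isomorphism onto its image `𝒱`. -/
def Mor.HasRetraction {k d : ℕ} (φ : Mor k d) : Prop :=
  ∃ ψ : Mor d k, ∀ (K : Type) [Field K] (z : Fin k → Fin 2 → K), (∀ i, z i ≠ 0) →
    ∀ j, ∃ c : K, c ≠ 0 ∧ ψ.map (φ.map z) j = c • z j

/-- The orbit `⋃ n, f^n(V)` of the image `V` of `φ` is Zariski dense in `(ℙ¹)^d`: a
multihomogeneous form which vanishes on it is zero. -/
def DenseOrbit {k d : ℕ} (f : Mor d d) (φ : Mor k d) : Prop :=
  ∀ (δ : Fin d → ℕ) (G : MvPolynomial (Fin d × Fin 2) ℂ),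
    (∀ e ∈ G.support, ∀ i, e (i, 0) + e (i, 1) = δ i) →
    (∀ (n : ℕ) (t : Fin k → Fin 2 → ℂ), (∀ i, t i ≠ 0) →
      MvPolynomial.eval (fun p : Fin d × Fin 2 => (f.map^[n] (φ.map t)) p.1 p.2) G = 0) →
    G = 0

end Pool.Agent.H92.ArithP1
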