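import Mathlib
import Pool.Agent.H92.ArithP1

set_option autoImplicit false

open scoped BigOperators ContDiff
open MeasureTheory

namespace Pool.Agent.H92.ArithP1

/-! ### The explicit hermitian line bundles -/

lemma coord_ne_zero {w : Fin 2 → ℂ} (hw : w ≠ 0) (D : ℕ) :
    0 < ‖w 0‖ ^ (2 * D) + ‖w 1‖ ^ (2 * D) := by
  have h : w 0 ≠ 0 ∨ w 1 ≠ 0 := by
    by_contra h
    push Not at h
    apply hw
    funext b
    fin_cases b
    · exact h.1
    · exact h.2
  rcases h with h | h
  · have : 0 < ‖w 0‖ := norm_pos_iff.2 h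
    positivity
  · have : 0 < ‖w 1‖ := norm_pos_iff.2 h
    positivity

/-- the norm function of the bundle obtained from the Fubini-Study metric by `z ↦ z^D` -/
noncomputable def fsN {d : ℕ} (D : Fin d → ℕ) (z : Fin d → Fin 2 → ℂ) : ℝ :=
  Real.exp 1 * ∏ i, Real.sqrt (‖z i 0‖ ^ (2 * D i) + ‖z i 1‖ ^ (2 * D i))

lemma contDiff_norm_pow (D : ℕ) : ContDiff ℝ ∞ (fun z : ℂ => ‖z‖ ^ (2 * D)) := by
  have : (fun z : ℂ => ‖z‖ ^ (2 * D)) = fun z : ℂ => (‖z‖ ^ 2) ^ D := by
    funext z; rw [pow_mul]
  rw [this]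
  exact (contDiff_norm_sq ℝ).pow D

noncomputable def EB {d : ℕ} (D : Fin d → ℕ) : HermLB d where
  deg i := D i
  N := fsN D
  pos z hz := by
    unfold fsN
    refine mul_pos (Real.exp_pos 1) (Finset.prod_pos fun i _ => Real.sqrt_pos.2 (coord_ne_zero (hz i) _))
  homog c z hc hz := by
    unfold fsN
    have : ∀ i, Real.sqrt (‖(c i • z i) 0‖ ^ (2 * D i) + ‖(c i • z i) 1‖ ^ (2 * D i))
        = ‖c i‖ ^ (D i : ℤ) * Real.sqrt (‖z i 0‖ ^ (2 * D i) + ‖z i 1‖ ^ (2 * D i)) := by
      intro i
      have h1 : ‖(c i • z i) 0‖ ^ (2 * D i) + ‖(c i • z i) 1‖ ^ (2 * D i)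
          = (‖c i‖ ^ D i) ^ 2 * (‖z i 0‖ ^ (2 * D i) + ‖z i 1‖ ^ (2 * D i)) := by
        simp only [Pi.smul_apply, smul_eq_mul, norm_mul, mul_pow]
        ring
      rw [h1, Real.sqrt_mul (by positivity), Real.sqrt_sq (by positivity), zpow_natCast]
    simp_rw [this]
    rw [Finset.prod_mul_distrib]
    ring
  smooth := by
    unfold fsN
    refine contDiffOn_const.mul (contDiffOn_prod fun i _ => ?_)
    refine ContDiffOn.sqrt ?_ ?_
    · refine ContDiff.contDiffOn ?_
      refine ((contDiff_norm_pow (D i)).comp ?_).add ((contDiff_norm_pow (D i)).comp ?_)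
      · fun_prop
      · fun_prop
    · intro z hz
      exact (coord_ne_zero (hz i) _).ne'
  conj z hz := by
    unfold fsN
    simp

theorem HermLB.ext' {d : ℕ} {L M : HermLB d} (h1 : L.deg = M.deg) (h2 : L.N = M.N) : L = M := by
  cases L; cases M
  simp only at h1 h2
  subst h1
  subst h2
  rfl

/-- The endomorphism `z_j ↦ z_j ^ (a j)` of `(ℙ¹)^d`. -/
noncomputable def powMor {d : ℕ} (a : Fin d → ℕ) : Mor d d where
  F j b := MvPolynomial.X (j, b) ^ a j
  deg j i := if i = j then a j else 0
  homog j b e he i := by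
    rw [MvPolynomial.support_X_pow] at he
    rw [Finset.mem_singleton] at he
    subst he
    by_cases h : i = j
    · subst h
      fin_cases b <;> simp [Finsupp.single_apply]
    · have h' : ¬ j = i := fun hh => h hh.symm
      simp [Finsupp.single_apply, h, h']
  bpf K _ z hz j := by
    have h : ∃ b, z j b ≠ 0 := by
      by_contra h
      push Not at h
      exact hz j (funext h)
    obtain ⟨b, hb⟩ := h
    exact ⟨b, by simpa using pow_ne_zero _ hb⟩

/-- The diagonal `ℙ¹ → ℙ¹ × ℙ¹`. -/
noncomputable def diagMor : Mor 1 2 where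
  F j b := MvPolynomial.X (0, b)
  deg j i := 1
  homog j b e he i := by
    rw [MvPolynomial.support_X] at he
    rw [Finset.mem_singleton] at he
    subst he
    have : i = 0 := Subsingleton.elim _ _
    subst this
    fin_cases b <;> simp [Finsupp.single_apply]
  bpf K _ z hz j := by
    have h : ∃ b, z 0 b ≠ 0 := by
      by_contra h
      push Not at h
      exact hz 0 (funext h)
    obtain ⟨b, hb⟩ := h
    exact ⟨b, by simpa using hb⟩

/-- The first projection `ℙ¹ × ℙ¹ → ℙ¹`. -/
noncomputable def fstMor : Mor 2 1 where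
  F j b := MvPolynomial.X (0, b)
  deg j i := if i = 0 then 1 else 0
  homog j b e he i := by
    rw [MvPolynomial.support_X] at he
    rw [Finset.mem_singleton] at he
    subst he
    fin_cases i <;> fin_cases b <;> simp [Finsupp.single_apply]
  bpf K _ z hz j := by
    have h : ∃ b, z 0 b ≠ 0 := by
      by_contra h
      push Not at h
      exact hz 0 (funext h)
    obtain ⟨b, hb⟩ := h
    exact ⟨b, by simpa using hb⟩

lemma powMor_map {d : ℕ} (a : Fin d → ℕ) {K : Type} [Field K] (z : Fin d → Fin 2 → K) :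
    (powMor a).map z = fun j b => z j b ^ a j := by
  funext j b
  simp [Mor.map, powMor]

lemma diagMor_map {K : Type} [Field K] (z : Fin 1 → Fin 2 → K) :
    diagMor.map z = fun _ => z 0 := by
  funext j b
  simp [Mor.map, diagMor]

lemma fstMor_map {K : Type} [Field K] (z : Fin 2 → Fin 2 → K) :
    fstMor.map z = fun _ => z 0 := by
  funext j b
  simp [Mor.map, fstMor]

lemma pullback_pow {d : ℕ} (a D : Fin d → ℕ) :
    HermLB.pullback (powMor a) (EB D) = EB (fun i => D i * a i) := by
  apply HermLB.ext'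
  · funext i
    simp [HermLB.pullback, powMor, EB]
  · funext z
    change fsN D ((powMor a).map z) = fsN _ z
    rw [powMor_map]
    unfold fsN
    simp only [norm_pow, ← pow_mul]
    congr 1
    refine Finset.prod_congr rfl fun i _ => ?_
    have : a i * (2 * D i) = 2 * (D i * a i) := by ring
    rw [this]

lemma iterate_pullback {d : ℕ} (a : Fin d → ℕ) (n : ℕ) :
    (HermLB.pullback (powMor a))^[n] (EB (fun _ => 1)) = EB (fun i => a i ^ n) := by
  induction n with
  | zero => simp
  | succ n ih =>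
    rw [Function.iterate_succ_apply', ih, pullback_pow]
    simp [pow_succ]

lemma face_EB {d : ℕ} (D : Fin (d + 1) → ℕ) (i : Fin (d + 1)) (hD : D i ≠ 0) :
    (EB D).face i = EB (fun j => D (i.succAbove j)) := by
  apply HermLB.ext'
  · rfl
  · funext z
    change fsN D (i.insertNth (![0, 1] : Fin 2 → ℂ) z) = fsN _ z
    unfold fsN
    rw [Fin.prod_univ_succAbove _ i]
    simp [hD]

end Pool.Agent.H92.ArithP1
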