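import Mathlib
import Pool.Agent.H92.ArithP1

set_option autoImplicit false

open scoped BigOperators ContDiff Topology
open MeasureTheory Filter Set

namespace Pool.Agent.H92.ArithP1

/-- `(1/2) log (1 + |z|^(2D))` -/
noncomputable def gq (D : ℕ) (z : ℂ) : ℝ := 1 / 2 * Real.log (1 + ‖z‖ ^ (2 * D))

/-- density of the curvature of `gq D` -/
noncomputable def pq (D : ℕ) (z : ℂ) : ℝ :=
  1 / Real.pi * ((D : ℝ) ^ 2 * ‖z‖ ^ (2 * (D - 1)) / (1 + ‖z‖ ^ (2 * D)) ^ 2)

lemma gq_nonneg (D : ℕ) (z : ℂ) : 0 ≤ gq D z := by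
  unfold gq
  have : 0 ≤ Real.log (1 + ‖z‖ ^ (2 * D)) := Real.log_nonneg (by
    have : 0 ≤ ‖z‖ ^ (2 * D) := by positivity
    linarith)
  linarith

lemma pq_nonneg (D : ℕ) (z : ℂ) : 0 ≤ pq D z := by
  unfold pq
  positivity

lemma continuous_gq (D : ℕ) : Continuous (gq D) := by
  unfold gq
  refine continuous_const.mul (Continuous.log (by fun_prop) ?_)
  intro z
  positivity

lemma continuous_pq (D : ℕ) : Continuous (pq D) := by
  unfold pq
  refine continuous_const.mul (Continuous.div (by fun_prop) (by fun_prop) ?_)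
  intro z
  positivity

lemma gq_le (E D : ℕ) (hD : D ≠ 0) (z : ℂ) : gq E z ≤ 1 + (E : ℝ) / D * ‖z‖ ^ D := by
  have hDpos : (0 : ℝ) < D := by positivity
  set r := ‖z‖ with hr
  have hr0 : 0 ≤ r := norm_nonneg z
  have hlog2 : Real.log 2 ≤ 1 := by
    have := Real.log_two_lt_d9
    linarith
  unfold gq
  rw [← hr]
  rcases le_or_gt r 1 with h | h
  · have h1 : r ^ (2 * E) ≤ 1 := pow_le_one₀ hr0 h
    have h2 : Real.log (1 + r ^ (2 * E)) ≤ Real.log 2 := by
      apply Real.log_le_log (by positivity)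
      linarith
    have h3 : 0 ≤ (E : ℝ) / D * r ^ D := by positivity
    linarith
  · have hrpos : 0 < r := by linarith
    have h1 : 1 ≤ r ^ (2 * E) := one_le_pow₀ h.le
    have h2 : Real.log (1 + r ^ (2 * E)) ≤ Real.log (2 * r ^ (2 * E)) := by
      apply Real.log_le_log (by positivity)
      linarith
    rw [Real.log_mul (by norm_num) (by positivity), Real.log_pow] at h2
    have h3 : Real.log r ≤ r ^ D / D := by
      have h4 := Real.log_le_sub_one_of_pos (pow_pos hrpos D)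
      rw [Real.log_pow] at h4
      rw [le_div_iff₀ hDpos]
      linarith
    have h5 : (E : ℝ) * Real.log r ≤ E * (r ^ D / D) := by
      apply mul_le_mul_of_nonneg_left h3 (by positivity)
    have h6 : (E : ℝ) / D * r ^ D = E * (r ^ D / D) := by ring
    rw [h6]
    push_cast at h2
    linarith

lemma complex_integral_radial (f : ℝ → ℝ) :
    ∫ z : ℂ, f ‖z‖ = 2 * Real.pi * ∫ y in Ioi (0 : ℝ), y * f y := by
  have h := integral_fun_norm_addHaar (volume : Measure ℂ) f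
  rw [Complex.finrank_real_complex] at h
  rw [h]
  simp only [measureReal_def, Complex.volume_ball]
  simp
  ring

lemma complex_integrable_radial (f : ℝ → ℝ) :
    Integrable (fun z : ℂ => f ‖z‖) ↔ IntegrableOn (fun y : ℝ => y * f y) (Ioi 0) := by
  have h := integrable_fun_norm_addHaar (volume : Measure ℂ) (f := f)
  rw [Complex.finrank_real_complex] at h
  simpa using h

/-- radial density -/
noncomputable def Pr (D : ℕ) (r : ℝ) : ℝ :=
  1 / Real.pi * ((D : ℝ) ^ 2 * r ^ (2 * (D - 1)) / (1 + r ^ (2 * D)) ^ 2)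

lemma pq_eq (D : ℕ) (z : ℂ) : pq D z = Pr D ‖z‖ := rfl

lemma hasDerivAt_W (D : ℕ) (hD : D ≠ 0) (r : ℝ) :
    HasDerivAt (fun r : ℝ => -(D / (2 * Real.pi)) / (1 + r ^ (2 * D)))
      (r * Pr D r) r := by
  have h1 : HasDerivAt (fun r : ℝ => 1 + r ^ (2 * D)) (((2 * D : ℕ) : ℝ) * r ^ (2 * D - 1)) r := by
    simpa using (hasDerivAt_pow (2 * D) r).const_add 1
  have h2 : (1 + r ^ (2 * D)) ≠ 0 := by
    have : 0 ≤ r ^ (2 * D) := by rw [pow_mul]; positivity
    positivity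
  have h3 := (hasDerivAt_const r (-(D / (2 * Real.pi)))).div h1 h2
  refine h3.congr_deriv ?_
  unfold Pr
  obtain ⟨D', rfl⟩ := Nat.exists_eq_succ_of_ne_zero hD
  have e1 : 2 * (D'.succ) - 1 = 2 * D' + 1 := by omega
  have e2 : 2 * (D'.succ - 1) = 2 * D' := by simp
  rw [e1, e2]
  have hpi := Real.pi_ne_zero
  field_simp
  push_cast
  ring

lemma tendsto_W (D : ℕ) (hD : D ≠ 0) :
    Tendsto (fun r : ℝ => -(D / (2 * Real.pi)) / (1 + r ^ (2 * D))) atTop (𝓝 0) := by
  apply Tendsto.const_div_atTop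
  apply tendsto_atTop_add_const_left
  apply tendsto_pow_atTop
  omega

lemma Pr_nonneg (D : ℕ) {r : ℝ} (hr : 0 ≤ r) : 0 ≤ Pr D r := by
  unfold Pr; positivity

lemma integrable_pq (D : ℕ) (hD : D ≠ 0) : Integrable (pq D) := by
  have := (complex_integrable_radial (Pr D)).2 ?_
  · exact this
  · exact integrableOn_Ioi_deriv_of_nonneg' (fun x _ => hasDerivAt_W D hD x)
      (fun x hx => mul_nonneg (le_of_lt hx) (Pr_nonneg D (le_of_lt hx))) (tendsto_W D hD)

lemma integral_pq (D : ℕ) (hD : D ≠ 0) : ∫ z, pq D z = D := by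
  have h := complex_integral_radial (Pr D)
  have h2 : ∫ y in Ioi (0 : ℝ), y * Pr D y = 0 - -(D / (2 * Real.pi)) / (1 + (0 : ℝ) ^ (2 * D)) :=
    integral_Ioi_of_hasDerivAt_of_nonneg' (fun x _ => hasDerivAt_W D hD x)
      (fun x hx => mul_nonneg (le_of_lt hx) (Pr_nonneg D (le_of_lt hx))) (tendsto_W D hD)
  have h3 : ∫ z, pq D z = ∫ z : ℂ, Pr D ‖z‖ := rfl
  rw [h3, h, h2]
  have : (0 : ℝ) ^ (2 * D) = 0 := by
    apply zero_pow; omega
  rw [this]
  have hpi := Real.pi_ne_zero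
  field_simp
  ring

lemma hasDerivAt_V (D : ℕ) (hD : D ≠ 0) (r : ℝ) :
    HasDerivAt (fun r : ℝ => (D / (2 * Real.pi)) * (Real.arctan (r ^ D) - r ^ D / (1 + r ^ (2 * D))))
      (r * (r ^ D * Pr D r)) r := by
  have h0 := hasDerivAt_pow D r
  have h1 : HasDerivAt (fun r : ℝ => 1 + r ^ (2 * D)) (((2 * D : ℕ) : ℝ) * r ^ (2 * D - 1)) r := by
    simpa using (hasDerivAt_pow (2 * D) r).const_add 1
  have h2 : (1 + r ^ (2 * D)) ≠ 0 := by
    have : 0 ≤ r ^ (2 * D) := by rw [pow_mul]; positivity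
    positivity
  have h3 := ((h0.arctan).sub (h0.div h1 h2)).const_mul ((D : ℝ) / (2 * Real.pi))
  refine h3.congr_deriv ?_
  unfold Pr
  obtain ⟨D', rfl⟩ := Nat.exists_eq_succ_of_ne_zero hD
  have e1 : 2 * (D'.succ) - 1 = 2 * D' + 1 := by omega
  have e2 : 2 * (D'.succ - 1) = 2 * D' := by simp
  have e3 : D'.succ - 1 = D' := by simp
  rw [e1, e2, e3]
  have hpi := Real.pi_ne_zero
  have h4 : (1 + (r ^ D'.succ) ^ 2) = (1 + r ^ (2 * D'.succ)) := by ring
  rw [h4]
  field_simp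
  push_cast
  ring

lemma tendsto_V (D : ℕ) (hD : D ≠ 0) :
    Tendsto (fun r : ℝ => (D / (2 * Real.pi)) * (Real.arctan (r ^ D) - r ^ D / (1 + r ^ (2 * D))))
      atTop (𝓝 ((D / (2 * Real.pi)) * (Real.pi / 2 - 0))) := by
  apply Tendsto.const_mul
  apply Tendsto.sub
  · exact (tendsto_nhds_of_tendsto_nhdsWithin Real.tendsto_arctan_atTop).comp (tendsto_pow_atTop hD)
  · have h1 : Tendsto (fun r : ℝ => 1 / r ^ D) atTop (𝓝 0) :=
      Tendsto.const_div_atTop (tendsto_pow_atTop hD) 1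
    refine tendsto_of_tendsto_of_tendsto_of_le_of_le' tendsto_const_nhds h1 ?_ ?_
    · filter_upwards [eventually_gt_atTop 0] with r hr
      positivity
    · filter_upwards [eventually_gt_atTop 0] with r hr
      rw [div_le_div_iff₀ (by positivity) (by positivity)]
      have : r ^ D * r ^ D = r ^ (2 * D) := by ring
      rw [this]; linarith

lemma integrable_Vq (D : ℕ) (hD : D ≠ 0) : Integrable (fun z : ℂ => ‖z‖ ^ D * pq D z) := by
  have := (complex_integrable_radial (fun r => r ^ D * Pr D r)).2 ?_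
  · exact this
  · exact integrableOn_Ioi_deriv_of_nonneg' (fun x _ => hasDerivAt_V D hD x)
      (fun x hx => mul_nonneg (le_of_lt hx) (mul_nonneg (pow_nonneg (le_of_lt hx) _)
        (Pr_nonneg D (le_of_lt hx)))) (tendsto_V D hD)

lemma integral_Vq (D : ℕ) (hD : D ≠ 0) : ∫ z : ℂ, ‖z‖ ^ D * pq D z = D * (Real.pi / 2) := by
  have h := complex_integral_radial (fun r => r ^ D * Pr D r)
  have h2 := integral_Ioi_of_hasDerivAt_of_nonneg' (a := 0) (fun x _ => hasDerivAt_V D hD x)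
      (fun x hx => mul_nonneg (le_of_lt hx) (mul_nonneg (pow_nonneg (le_of_lt hx) _)
        (Pr_nonneg D (le_of_lt hx)))) (tendsto_V D hD)
  have h3 : ∫ z : ℂ, ‖z‖ ^ D * pq D z = ∫ z : ℂ, ‖z‖ ^ D * Pr D ‖z‖ := rfl
  rw [h3, h, h2]
  have h4 : (0 : ℝ) ^ (2 * D) = 0 := by
    apply zero_pow; omega
  have h5 : (0 : ℝ) ^ D = 0 := zero_pow hD
  rw [h4, h5]
  have hpi := Real.pi_ne_zero
  simp
  field_simp

lemma integrable_gq_pq (E D : ℕ) (hD : D ≠ 0) : Integrable (fun z : ℂ => gq E z * pq D z) := by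
  have hmaj : Integrable (fun z : ℂ => pq D z + (E : ℝ) / D * (‖z‖ ^ D * pq D z)) :=
    (integrable_pq D hD).add ((integrable_Vq D hD).const_mul _)
  refine hmaj.mono' ((continuous_gq E).mul (continuous_pq D)).aestronglyMeasurable ?_
  filter_upwards with z
  rw [Real.norm_of_nonneg (mul_nonneg (gq_nonneg E z) (pq_nonneg D z))]
  have h1 := mul_le_mul_of_nonneg_right (gq_le E D hD z) (pq_nonneg D z)
  linarith

lemma integral_gq_pq_le (E D : ℕ) (hD : D ≠ 0) : ∫ z : ℂ, gq E z * pq D z ≤ D + 2 * E := by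
  have hmaj : Integrable (fun z : ℂ => pq D z + (E : ℝ) / D * (‖z‖ ^ D * pq D z)) :=
    (integrable_pq D hD).add ((integrable_Vq D hD).const_mul _)
  have h1 : ∫ z : ℂ, gq E z * pq D z ≤ ∫ z : ℂ, (pq D z + (E : ℝ) / D * (‖z‖ ^ D * pq D z)) := by
    refine integral_mono (integrable_gq_pq E D hD) hmaj fun z => ?_
    have h1 := mul_le_mul_of_nonneg_right (gq_le E D hD z) (pq_nonneg D z)
    simp only
    linarith
  have h2 : ∫ z : ℂ, (pq D z + (E : ℝ) / D * (‖z‖ ^ D * pq D z)) = D + E * (Real.pi / 2) := by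
    rw [integral_add (integrable_pq D hD) ((integrable_Vq D hD).const_mul _), integral_pq D hD,
      integral_const_mul, integral_Vq D hD]
    have : (D : ℝ) ≠ 0 := by exact_mod_cast hD
    field_simp
  rw [h2] at h1
  have h3 : Real.pi ≤ 4 := Real.pi_le_four
  have h4 : (0 : ℝ) ≤ E := by positivity
  nlinarith

lemma integral_gq_pq_nonneg (E D : ℕ) : 0 ≤ ∫ z : ℂ, gq E z * pq D z :=
  integral_nonneg fun z => mul_nonneg (gq_nonneg E z) (pq_nonneg D z)

end Pool.Agent.H92.ArithP1
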