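import Mathlib
import Pool.Agent.H92.ArithEx
import Pool.Agent.H92.ArithInt1

set_option autoImplicit false

open scoped BigOperators ContDiff Topology
open MeasureTheory Filter Set

namespace Pool.Agent.H92.ArithP1

lemma D2_sum {d : ℕ} (C : ℝ) (h : Fin d → ℂ → ℝ) (t : Fin d → ℂ) (i j : Fin d) (v w : ℂ) :
    D2 (fun t : Fin d → ℂ => C + ∑ k, h k (t k)) t (Pi.single i v) (Pi.single j w)
      = if i = j then D2 (h j) (t j) v w else 0 := by
  unfold D2
  have inner : ∀ s : ℝ, deriv (fun r : ℝ => C + ∑ k, h k ((t + s • (Pi.single i v : Fin d → ℂ)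
      + r • (Pi.single j w : Fin d → ℂ)) k)) 0
      = deriv (fun r : ℝ => h j (t j + s • (Pi.single i v : Fin d → ℂ) j + r • w)) 0 := by
    intro s
    have : (fun r : ℝ => C + ∑ k, h k ((t + s • (Pi.single i v : Fin d → ℂ)
      + r • (Pi.single j w : Fin d → ℂ)) k))
      = fun r : ℝ => (C + ∑ k ∈ Finset.univ.erase j, h k (t k + s • (Pi.single i v : Fin d → ℂ) k))
          + h j (t j + s • (Pi.single i v : Fin d → ℂ) j + r • w) := by
      funext r
      rw [← Finset.add_sum_erase _ _ (Finset.mem_univ j)]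
      have : ∑ k ∈ Finset.univ.erase j, h k ((t + s • (Pi.single i v : Fin d → ℂ)
          + r • (Pi.single j w : Fin d → ℂ)) k)
          = ∑ k ∈ Finset.univ.erase j, h k (t k + s • (Pi.single i v : Fin d → ℂ) k) := by
        refine Finset.sum_congr rfl fun k hk => ?_
        have hk' : k ≠ j := Finset.ne_of_mem_erase hk
        simp [Pi.single_eq_of_ne hk']
      rw [this]
      simp
      ring
    rw [this, deriv_const_add]
  simp_rw [inner]
  by_cases hij : i = j
  · subst hij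
    simp
  · have hji : j ≠ i := fun h => hij h.symm
    simp [hij, Pi.single_eq_of_ne hji]

lemma levi_sum {d : ℕ} (C : ℝ) (h : Fin d → ℂ → ℝ) (t : Fin d → ℂ) (l : Fin d → ℝ)
    (hl : ∀ k, D2 (h k) (t k) 1 1 + D2 (h k) (t k) Complex.I Complex.I = 4 * l k)
    (hs : ∀ k, D2 (h k) (t k) 1 Complex.I = D2 (h k) (t k) Complex.I 1) (i j : Fin d) :
    levi (fun t : Fin d → ℂ => C + ∑ k, h k (t k)) t i j = if i = j then (l i : ℂ) else 0 := by
  unfold levi
  simp only [D2_sum]
  by_cases hij : i = j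
  · subst hij
    simp only [if_true]
    rw [hl, hs]
    simp
  · simp [hij]

lemma mixedMA_one (C : ℝ) (h : ℂ → ℝ) (t : Fin 1 → ℂ) (l : ℝ)
    (hl : D2 h (t 0) 1 1 + D2 h (t 0) Complex.I Complex.I = 4 * l)
    (hs : D2 h (t 0) 1 Complex.I = D2 h (t 0) Complex.I 1) :
    mixedMA (fun _ : Fin 1 => fun t : Fin 1 → ℂ => C + ∑ k : Fin 1, h (t k)) t
      = 2 / Real.pi * l := by
  unfold mixedMA
  have hL : ∀ i j, levi (fun t : Fin 1 → ℂ => C + ∑ k : Fin 1, (fun _ => h) k (t k)) t i j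
      = if i = j then (((fun _ : Fin 1 => l) i : ℝ) : ℂ) else 0 := by
    intro i j
    apply levi_sum
    · intro k
      have : k = 0 := Subsingleton.elim _ _
      subst this
      exact hl
    · intro k
      have : k = 0 := Subsingleton.elim _ _
      subst this
      exact hs
  simp only at hL
  simp only [hL]
  simp

lemma sum_perm_fin_two {M : Type} [AddCommMonoid M] (f : Equiv.Perm (Fin 2) → M) :
    ∑ σ, f σ = f 1 + f (Equiv.swap 0 1) := by
  have : (Finset.univ : Finset (Equiv.Perm (Fin 2))) = {1, Equiv.swap 0 1} := by decide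
  rw [this, Finset.sum_pair (by decide)]

lemma mixedMA_two (C : ℝ) (h : Fin 2 → ℂ → ℝ) (t : Fin 2 → ℂ) (l : Fin 2 → ℝ)
    (hl : ∀ k, D2 (h k) (t k) 1 1 + D2 (h k) (t k) Complex.I Complex.I = 4 * l k)
    (hs : ∀ k, D2 (h k) (t k) 1 Complex.I = D2 (h k) (t k) Complex.I 1) :
    mixedMA (fun _ : Fin 2 => fun t : Fin 2 → ℂ => C + ∑ k : Fin 2, h k (t k)) t
      = 2 * (2 / Real.pi * l 0) * (2 / Real.pi * l 1) := by
  unfold mixedMA
  have hL := fun i j => levi_sum C h t l hl hs i j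
  simp only [hL]
  rw [sum_perm_fin_two, sum_perm_fin_two, sum_perm_fin_two]
  simp [Fin.prod_univ_two]
  ring

/-! ### second derivatives of `gq` -/

noncomputable def Gp (D : ℕ) (r : ℝ) : ℝ := 1 / 2 * (D * r ^ (D - 1) / (1 + r ^ D))

noncomputable def Gpp (D : ℕ) (r : ℝ) : ℝ :=
  1 / 2 * ((D * ((D - 1 : ℕ) * r ^ (D - 1 - 1)) * (1 + r ^ D) - D * r ^ (D - 1) * (D * r ^ (D - 1)))
    / (1 + r ^ D) ^ 2)

lemma hasDerivAt_Gp (D : ℕ) (r : ℝ) (hr : 0 ≤ r) : HasDerivAt (Gp D) (Gpp D r) r := by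
  have h1 : HasDerivAt (fun r : ℝ => 1 + r ^ D) ((D : ℝ) * r ^ (D - 1)) r := by
    simpa using (hasDerivAt_pow D r).const_add 1
  have h2 : (1 + r ^ D) ≠ 0 := by positivity
  have h3 := (((hasDerivAt_pow (D - 1) r).const_mul (D : ℝ)).div h1 h2).const_mul (1 / 2 : ℝ)
  exact h3

noncomputable def qf (z v w : ℂ) (s t : ℝ) : ℝ :=
  (z.re + s * v.re + t * w.re) ^ 2 + (z.im + s * v.im + t * w.im) ^ 2

lemma gq_line (D : ℕ) (z v w : ℂ) (s t : ℝ) :
    gq D (z + s • v + t • w) = 1 / 2 * Real.log (1 + (qf z v w s t) ^ D) := by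
  unfold gq qf
  rw [pow_mul, ← Complex.normSq_eq_norm_sq, Complex.normSq_apply]
  simp
  ring_nf

lemma qf_nonneg (z v w : ℂ) (s t : ℝ) : 0 ≤ qf z v w s t := by
  unfold qf; positivity

noncomputable def innerD (D : ℕ) (z v w : ℂ) (s : ℝ) : ℝ :=
  Gp D (qf z v w s 0) * (2 * ((z.re + s * v.re) * w.re + (z.im + s * v.im) * w.im))

lemma gq_inner (D : ℕ) (z v w : ℂ) (s : ℝ) :
    HasDerivAt (fun t : ℝ => gq D (z + s • v + t • w)) (innerD D z v w s) 0 := by
  have h0 : HasDerivAt (fun t : ℝ => qf z v w s t)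
      (2 * ((z.re + s * v.re) * w.re + (z.im + s * v.im) * w.im)) 0 := by
    unfold qf
    have h1 : HasDerivAt (fun t : ℝ => z.re + s * v.re + t * w.re) (w.re) 0 := by
      simpa using ((hasDerivAt_id (0 : ℝ)).mul_const w.re).const_add (z.re + s * v.re)
    have h2 : HasDerivAt (fun t : ℝ => z.im + s * v.im + t * w.im) (w.im) 0 := by
      simpa using ((hasDerivAt_id (0 : ℝ)).mul_const w.im).const_add (z.im + s * v.im)
    refine ((h1.pow 2).add (h2.pow 2)).congr_deriv ?_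
    simp
    ring
  have h3 : HasDerivAt (fun t : ℝ => 1 + (qf z v w s t) ^ D)
      (D * (qf z v w s 0) ^ (D - 1) * (2 * ((z.re + s * v.re) * w.re + (z.im + s * v.im) * w.im)))
      0 := (h0.pow D).const_add 1
  have hne : (1 + (qf z v w s 0) ^ D) ≠ 0 := by
    have := qf_nonneg z v w s 0
    positivity
  have h4 := (h3.log hne).const_mul (1 / 2 : ℝ)
  have h5 : (fun t : ℝ => gq D (z + s • v + t • w))
      = fun t => 1 / 2 * Real.log (1 + (qf z v w s t) ^ D) := by
    funext t; exact gq_line D z v w s t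
  rw [h5]
  refine h4.congr_deriv ?_
  unfold innerD Gp
  ring

noncomputable def outerD (D : ℕ) (z v w : ℂ) : ℝ :=
  Gpp D (Complex.normSq z) * (2 * (z.re * v.re + z.im * v.im)) * (2 * (z.re * w.re + z.im * w.im))
    + Gp D (Complex.normSq z) * (2 * (v.re * w.re + v.im * w.im))

lemma gq_outer (D : ℕ) (z v w : ℂ) :
    HasDerivAt (fun s : ℝ => innerD D z v w s) (outerD D z v w) 0 := by
  unfold innerD
  have h1 : HasDerivAt (fun s : ℝ => z.re + s * v.re) (v.re) 0 := by
    simpa using ((hasDerivAt_id (0 : ℝ)).mul_const v.re).const_add (z.re)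
  have h2 : HasDerivAt (fun s : ℝ => z.im + s * v.im) (v.im) 0 := by
    simpa using ((hasDerivAt_id (0 : ℝ)).mul_const v.im).const_add (z.im)
  have h3 : HasDerivAt (fun s : ℝ => 2 * ((z.re + s * v.re) * w.re + (z.im + s * v.im) * w.im))
      (2 * (v.re * w.re + v.im * w.im)) 0 :=
    ((h1.mul_const w.re).add (h2.mul_const w.im)).const_mul 2
  have h4 : HasDerivAt (fun s : ℝ => qf z v w s 0) (2 * (z.re * v.re + z.im * v.im)) 0 := by
    unfold qf
    have h1' : HasDerivAt (fun s : ℝ => z.re + s * v.re + 0 * w.re) (v.re) 0 := by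
      simpa using h1
    have h2' : HasDerivAt (fun s : ℝ => z.im + s * v.im + 0 * w.im) (v.im) 0 := by
      simpa using h2
    refine ((h1'.pow 2).add (h2'.pow 2)).congr_deriv ?_
    simp
    ring
  have hq0 : qf z v w 0 0 = Complex.normSq z := by
    unfold qf
    rw [Complex.normSq_apply]
    ring
  have h5 : HasDerivAt (fun s : ℝ => Gp D (qf z v w s 0))
      (Gpp D (Complex.normSq z) * (2 * (z.re * v.re + z.im * v.im))) 0 := by
    have h6 := hasDerivAt_Gp D (qf z v w 0 0) (qf_nonneg z v w 0 0)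
    have h7 := HasDerivAt.comp (h := fun s : ℝ => qf z v w s 0) (0 : ℝ) h6 h4
    rw [hq0] at h7
    exact h7
  refine (h5.mul h3).congr_deriv ?_
  unfold outerD
  rw [hq0]
  ring

lemma D2_gq (D : ℕ) (z v w : ℂ) : D2 (gq D) z v w = outerD D z v w := by
  unfold D2
  have : (fun s : ℝ => deriv (fun t : ℝ => gq D (z + s • v + t • w)) 0)
      = fun s => innerD D z v w s := by
    funext s
    exact (gq_inner D z v w s).deriv
  rw [this]
  exact (gq_outer D z v w).deriv

lemma D2_gq_add (A B : ℕ) (z v w : ℂ) :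
    D2 (fun z => gq A z + gq B z) z v w = outerD A z v w + outerD B z v w := by
  unfold D2
  have : (fun s : ℝ => deriv (fun t : ℝ => gq A (z + s • v + t • w) + gq B (z + s • v + t • w)) 0)
      = fun s => innerD A z v w s + innerD B z v w s := by
    funext s
    exact ((gq_inner A z v w s).add (gq_inner B z v w s)).deriv
  rw [this]
  exact ((gq_outer A z v w).add (gq_outer B z v w)).deriv

lemma outer_lap (D : ℕ) (hD : D ≠ 0) (z : ℂ) :
    outerD D z 1 1 + outerD D z Complex.I Complex.I = 4 * (Real.pi / 2 * pq D z) := by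
  unfold outerD Gp Gpp pq
  obtain ⟨D', rfl⟩ := Nat.exists_eq_succ_of_ne_zero hD
  have hr : ‖z‖ ^ (2 * (D'.succ)) = (Complex.normSq z) ^ (D' + 1) := by
    rw [pow_mul, ← Complex.normSq_eq_norm_sq]
  have hr2 : ‖z‖ ^ (2 * (D'.succ - 1)) = (Complex.normSq z) ^ D' := by
    rw [pow_mul, ← Complex.normSq_eq_norm_sq]; simp
  rw [hr, hr2]
  have e1 : z.re * z.re + z.im * z.im = Complex.normSq z := (Complex.normSq_apply z).symm
  have hpos : 0 ≤ Complex.normSq z := Complex.normSq_nonneg z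
  set r := Complex.normSq z with hrdef
  have hne : (1 + r ^ (D' + 1)) ≠ 0 := by positivity
  have hpi := Real.pi_ne_zero
  have e2 : (D' : ℝ) * r ^ (D' - 1) * r = D' * r ^ D' := by
    rcases Nat.eq_zero_or_pos D' with h | h
    · subst h; simp
    · obtain ⟨m, rfl⟩ := Nat.exists_eq_succ_of_ne_zero h.ne'
      simp
      ring
  simp only [Complex.one_re, Complex.one_im, Complex.I_re, Complex.I_im, Nat.succ_eq_add_one,
    Nat.add_sub_cancel]
  have key : ∀ (a b : ℝ), a * (2 * (z.re * 1 + z.im * 0)) * (2 * (z.re * 1 + z.im * 0)) + b * (2 * (1 * 1 + 0 * 0))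
      + (a * (2 * (z.re * 0 + z.im * 1)) * (2 * (z.re * 0 + z.im * 1)) + b * (2 * (0 * 0 + 1 * 1)))
      = 4 * (a * r + b) := by
    intro a b
    rw [← e1]; ring
  rw [key]
  have e3 : (1 / 2 * ((((D' + 1 : ℕ) : ℝ) * ((D' : ℝ) * r ^ (D' - 1)) * (1 + r ^ (D' + 1)) -
      ((D' + 1 : ℕ) : ℝ) * r ^ D' * (((D' + 1 : ℕ) : ℝ) * r ^ D')) / (1 + r ^ (D' + 1)) ^ 2)) * r
      = (1 / 2 * ((((D' + 1 : ℕ) : ℝ) * ((D' : ℝ) * r ^ D') * (1 + r ^ (D' + 1)) -
      ((D' + 1 : ℕ) : ℝ) * r ^ D' * (((D' + 1 : ℕ) : ℝ) * r ^ D') * r) / (1 + r ^ (D' + 1)) ^ 2)) := by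
    rw [← e2]; ring
  rw [e3]
  field_simp
  push_cast
  ring

lemma outer_symm (D : ℕ) (z v w : ℂ) : outerD D z v w = outerD D z w v := by
  unfold outerD; ring

end Pool.Agent.H92.ArithP1
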