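import Mathlib
import Pool.Agent.H92.ArithLevi

set_option autoImplicit false

open scoped BigOperators ContDiff Topology
open MeasureTheory Filter Set

namespace Pool.Agent.H92.ArithP1

lemma sqrt_log_gq (D : ℕ) (z : ℂ) :
    Real.log (Real.sqrt (‖(1 : ℂ)‖ ^ (2 * D) + ‖z‖ ^ (2 * D))) = gq D z := by
  unfold gq
  rw [Real.log_sqrt (by positivity)]
  simp
  ring

lemma potential_EB {d : ℕ} (D : Fin d → ℕ) :
    (EB D).potential = fun t : Fin d → ℂ => 1 + ∑ i, gq (D i) (t i) := by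
  funext t
  unfold HermLB.potential
  change Real.log (fsN D _) = _
  unfold fsN
  rw [Real.log_mul (Real.exp_ne_zero 1), Real.log_exp, Real.log_prod]
  · congr 1
    refine Finset.sum_congr rfl fun i _ => ?_
    simpa using sqrt_log_gq (D i) (t i)
  · intro i _
    simp only [Matrix.cons_val_zero, Matrix.cons_val_one]
    have : 0 < Real.sqrt (‖(1 : ℂ)‖ ^ (2 * D i) + ‖t i‖ ^ (2 * D i)) := by
      apply Real.sqrt_pos.2
      simp
      positivity
    exact this.ne'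
  · refine (Finset.prod_pos fun i _ => ?_).ne'
    simp only [Matrix.cons_val_zero, Matrix.cons_val_one]
    apply Real.sqrt_pos.2
    simp
    positivity

lemma potential_diag (D : Fin 2 → ℕ) :
    (HermLB.pullback diagMor (EB D)).potential
      = fun t : Fin 1 → ℂ => 1 + ∑ i, (gq (D 0) (t i) + gq (D 1) (t i)) := by
  funext t
  have h := congrFun (potential_EB D) (fun _ => t 0)
  unfold HermLB.potential at h ⊢
  change Real.log ((EB D).N (diagMor.map _)) = _
  rw [diagMor_map, h]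
  simp

lemma arithInt_zero (L : Fin 1 → HermLB 0) : arithInt 0 L = Real.log ((L 0).N (fun i => i.elim0)) :=
  rfl

lemma arithInt_succ (d : ℕ) (L : Fin (d + 2) → HermLB (d + 1)) : arithInt (d + 1) L =
    ∑ i : Fin (d + 1), ((L (Fin.last (d + 1))).deg i : ℝ) *
        arithInt d (fun j => (L j.castSucc).face i) +
      ∫ t : Fin (d + 1) → ℂ, (L (Fin.last (d + 1))).potential t *
        mixedMA (fun j => (L j.castSucc).potential) t := rfl

lemma integral_fin_one (f : ℂ → ℝ) : ∫ t : Fin 1 → ℂ, f (t 0) = ∫ z, f z := by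
  have h := (volume_preserving_funUnique (Fin 1) ℂ).integral_comp
    (MeasurableEquiv.measurableEmbedding _) f
  rw [← h]
  rfl

lemma integral_fin_two (f : ℂ → ℂ → ℝ) : ∫ t : Fin 2 → ℂ, f (t 0) (t 1) = ∫ p : ℂ × ℂ, f p.1 p.2 := by
  have h := (volume_preserving_finTwoArrow ℂ).integral_comp
    (MeasurableEquiv.measurableEmbedding _) (fun p : ℂ × ℂ => f p.1 p.2)
  rw [← h]
  rfl

/-- the one-dimensional self-intersection number -/
lemma arithInt_one_of (L : HermLB 1) (h : ℂ → ℝ) (l : ℂ → ℝ)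
    (hpot : L.potential = fun t => 1 + ∑ i, h (t i))
    (hface : Real.log ((L.face 0).N (fun i => i.elim0)) = 1)
    (hl : ∀ z, D2 h z 1 1 + D2 h z Complex.I Complex.I = 4 * (Real.pi / 2 * l z))
    (hs : ∀ z, D2 h z 1 Complex.I = D2 h z Complex.I 1) :
    arithInt 1 (fun _ => L) = L.deg 0 + ∫ z, (1 + h z) * l z := by
  rw [arithInt_succ]
  have hsum : ∀ g : Fin (0 + 1) → ℝ, ∑ i, g i = g 0 := fun g => Fin.sum_univ_one g
  rw [hsum, arithInt_zero, hface, mul_one]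
  congr 1
  rw [← integral_fin_one]
  congr 1
  funext t
  rw [hpot, mixedMA_one 1 h t (Real.pi / 2 * l (t 0)) (hl _) (hs _)]
  have hpi := Real.pi_ne_zero
  have hs1 : ∑ i : Fin 1, h (t i) = h (t 0) := Fin.sum_univ_one _
  change (1 + ∑ i : Fin 1, h (t i)) * (2 / Real.pi * (Real.pi / 2 * l (t 0))) = _
  rw [hs1]
  field_simp

lemma face_N_EB_one (D : Fin 1 → ℕ) (hD : D 0 ≠ 0) :
    Real.log (((EB D).face 0).N (fun i => i.elim0)) = 1 := by
  rw [face_EB D 0 hD]
  change Real.log (fsN _ _) = 1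
  unfold fsN
  simp

lemma face_N_diag (D : Fin 2 → ℕ) (h0 : D 0 ≠ 0) (h1 : D 1 ≠ 0) :
    Real.log (((HermLB.pullback diagMor (EB D)).face 0).N (fun i => i.elim0)) = 1 := by
  change Real.log (fsN D (diagMor.map _)) = 1
  rw [diagMor_map]
  unfold fsN
  simp [h0, h1]

lemma arithInt_EB_one (D : Fin 1 → ℕ) (hD : D 0 ≠ 0) :
    arithInt 1 (fun _ => EB D) = D 0 + ∫ z, (1 + gq (D 0) z) * pq (D 0) z := by
  rw [arithInt_one_of (EB D) (gq (D 0)) (pq (D 0)) _ (face_N_EB_one D hD)]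
  · rfl
  · intro z
    rw [D2_gq, D2_gq, outer_lap _ hD]
  · intro z
    rw [D2_gq, D2_gq, outer_symm]
  · rw [potential_EB]
    funext t
    simp

lemma arithInt_diag (D : Fin 2 → ℕ) (h0 : D 0 ≠ 0) (h1 : D 1 ≠ 0) :
    arithInt 1 (fun _ => HermLB.pullback diagMor (EB D)) =
      ((D 0 : ℝ) + D 1) + ∫ z, (1 + (gq (D 0) z + gq (D 1) z)) * (pq (D 0) z + pq (D 1) z) := by
  rw [arithInt_one_of _ (fun z => gq (D 0) z + gq (D 1) z) (fun z => pq (D 0) z + pq (D 1) z) _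
    (face_N_diag D h0 h1)]
  · congr 1
    simp [HermLB.pullback, diagMor, EB]
  · intro z
    rw [D2_gq_add, D2_gq_add]
    have e0 := outer_lap (D 0) h0 z
    have e1 := outer_lap (D 1) h1 z
    linarith
  · intro z
    rw [D2_gq_add, D2_gq_add, outer_symm, outer_symm (D 1)]
  · rw [potential_diag]

lemma int_one_gq_pq (E D : ℕ) (hD : D ≠ 0) : Integrable (fun z : ℂ => (1 + gq E z) * pq D z) := by
  have : (fun z : ℂ => (1 + gq E z) * pq D z) = fun z => pq D z + gq E z * pq D z := by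
    funext z; ring
  rw [this]
  exact (integrable_pq D hD).add (integrable_gq_pq E D hD)

lemma integral_one_gq_pq (E D : ℕ) (hD : D ≠ 0) :
    ∫ z : ℂ, (1 + gq E z) * pq D z = D + ∫ z, gq E z * pq D z := by
  have : (fun z : ℂ => (1 + gq E z) * pq D z) = fun z => pq D z + gq E z * pq D z := by
    funext z; ring
  rw [this, integral_add (integrable_pq D hD) (integrable_gq_pq E D hD), integral_pq D hD]

lemma arithInt_EB_one_bounds (D : Fin 1 → ℕ) (hD : D 0 ≠ 0) :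
    0 ≤ arithInt 1 (fun _ => EB D) ∧ arithInt 1 (fun _ => EB D) ≤ 5 * (D 0 : ℝ) := by
  rw [arithInt_EB_one D hD, integral_one_gq_pq _ _ hD]
  have h1 := integral_gq_pq_nonneg (D 0) (D 0)
  have h2 := integral_gq_pq_le (D 0) (D 0) hD
  have h3 : (0 : ℝ) ≤ D 0 := by positivity
  constructor <;> linarith

lemma arithInt_diag_bounds (D : Fin 2 → ℕ) (h0 : D 0 ≠ 0) (h1 : D 1 ≠ 0) :
    2 * ((D 0 : ℝ) + D 1) ≤ arithInt 1 (fun _ => HermLB.pullback diagMor (EB D)) ∧
    arithInt 1 (fun _ => HermLB.pullback diagMor (EB D)) ≤ 8 * ((D 0 : ℝ) + D 1) := by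
  rw [arithInt_diag D h0 h1]
  have hsplit : (fun z => (1 + (gq (D 0) z + gq (D 1) z)) * (pq (D 0) z + pq (D 1) z))
      = fun z => ((pq (D 0) z + pq (D 1) z) + (gq (D 0) z * pq (D 0) z + gq (D 1) z * pq (D 0) z))
        + (gq (D 0) z * pq (D 1) z + gq (D 1) z * pq (D 1) z) := by
    funext z; ring
  have i1 := integrable_pq (D 0) h0
  have i2 := integrable_pq (D 1) h1
  have i3 := integrable_gq_pq (D 0) (D 0) h0
  have i4 := integrable_gq_pq (D 1) (D 0) h0
  have i5 := integrable_gq_pq (D 0) (D 1) h1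
  have i6 := integrable_gq_pq (D 1) (D 1) h1
  have j1 : Integrable (fun z => pq (D 0) z + pq (D 1) z) := i1.add i2
  have j2 : Integrable (fun z => gq (D 0) z * pq (D 0) z + gq (D 1) z * pq (D 0) z) := i3.add i4
  have j3 : Integrable (fun z => gq (D 0) z * pq (D 1) z + gq (D 1) z * pq (D 1) z) := i5.add i6
  have j4 : Integrable (fun z => (pq (D 0) z + pq (D 1) z) +
      (gq (D 0) z * pq (D 0) z + gq (D 1) z * pq (D 0) z)) := j1.add j2
  rw [hsplit, integral_add j4 j3, integral_add j1 j2, integral_add i1 i2, integral_add i3 i4,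
    integral_add i5 i6, integral_pq _ h0, integral_pq _ h1]
  have u3 := integral_gq_pq_le (D 0) (D 0) h0
  have u4 := integral_gq_pq_le (D 1) (D 0) h0
  have u5 := integral_gq_pq_le (D 0) (D 1) h1
  have u6 := integral_gq_pq_le (D 1) (D 1) h1
  have l3 := integral_gq_pq_nonneg (D 0) (D 0)
  have l4 := integral_gq_pq_nonneg (D 1) (D 0)
  have l5 := integral_gq_pq_nonneg (D 0) (D 1)
  have l6 := integral_gq_pq_nonneg (D 1) (D 1)
  constructor <;> linarith

/-- the two-dimensional intersection number `c₁(EB D)² c₁(EB 1)` -/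
lemma arithInt_two (D : Fin 2 → ℕ) (h0 : D 0 ≠ 0) (h1 : D 1 ≠ 0) :
    arithInt 2 (fun j : Fin 3 => if (j : ℕ) < 2 then EB D else EB (fun _ => 1)) =
      arithInt 1 (fun _ => EB (fun j => D (Fin.succAbove 0 j))) +
      arithInt 1 (fun _ => EB (fun j => D (Fin.succAbove 1 j))) +
      ∫ p : ℂ × ℂ, (1 + gq 1 p.1 + gq 1 p.2) * (2 * pq (D 0) p.1 * pq (D 1) p.2) := by
  rw [arithInt_succ]
  have hlast : ¬ (((Fin.last 2 : Fin 3) : ℕ) < 2) := by simp
  simp only [hlast, if_false]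
  have hcast : ∀ j : Fin 2, ((j.castSucc : Fin 3) : ℕ) < 2 := fun j => j.2
  have hcast' : ∀ j : Fin 2, (if ((j.castSucc : Fin 3) : ℕ) < 2 then EB D else EB (fun _ => 1))
      = EB D := fun j => if_pos (hcast j)
  simp only [hcast']
  rw [Fin.sum_univ_two, face_EB D 0 h0, face_EB D 1 h1]
  have hdeg : ∀ i : Fin 2, (((EB (fun _ : Fin 2 => 1)).deg i : ℤ) : ℝ) = 1 := by
    intro i; simp [EB]
  rw [hdeg, hdeg, one_mul, one_mul]
  congr 1
  have hint := integral_fin_two (fun x y => (1 + gq 1 x + gq 1 y) * (2 * pq (D 0) x * pq (D 1) y))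
  rw [← hint]
  congr 1
  funext t
  rw [potential_EB, potential_EB]
  have hMA := mixedMA_two 1 (fun i => gq (D i)) t (fun i => Real.pi / 2 * pq (D i) (t i))
    (by
      intro k
      rw [D2_gq, D2_gq, outer_lap]
      fin_cases k
      · exact h0
      · exact h1)
    (by intro k; rw [D2_gq, D2_gq, outer_symm])
  rw [hMA]
  have hpi := Real.pi_ne_zero
  have hs2 : ∑ x : Fin (1 + 1), gq 1 (t x) = gq 1 (t 0) + gq 1 (t 1) := Fin.sum_univ_two _
  beta_reduce
  rw [hs2]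
  field_simp
  ring

lemma integral_two (A B : ℕ) (hA : A ≠ 0) (hB : B ≠ 0) :
    ∫ p : ℂ × ℂ, (1 + gq 1 p.1 + gq 1 p.2) * (2 * pq A p.1 * pq B p.2)
      = 2 * (A * B + B * (∫ z, gq 1 z * pq A z) + A * ∫ z, gq 1 z * pq B z) := by
  have hsplit : (fun p : ℂ × ℂ => (1 + gq 1 p.1 + gq 1 p.2) * (2 * pq A p.1 * pq B p.2))
      = fun p : ℂ × ℂ => (2 * (pq A p.1 * pq B p.2) + 2 * ((gq 1 p.1 * pq A p.1) * pq B p.2))
        + 2 * (pq A p.1 * (gq 1 p.2 * pq B p.2)) := by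
    funext p; ring
  have iA := integrable_pq A hA
  have iB := integrable_pq B hB
  have jA := integrable_gq_pq 1 A hA
  have jB := integrable_gq_pq 1 B hB
  have k1 : Integrable (fun p : ℂ × ℂ => 2 * (pq A p.1 * pq B p.2)) := (iA.mul_prod iB).const_mul 2
  have k2 : Integrable (fun p : ℂ × ℂ => 2 * ((gq 1 p.1 * pq A p.1) * pq B p.2)) :=
    (jA.mul_prod iB).const_mul 2
  have k3 : Integrable (fun p : ℂ × ℂ => 2 * (pq A p.1 * (gq 1 p.2 * pq B p.2))) :=
    (iA.mul_prod jB).const_mul 2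
  have k12 : Integrable (fun p : ℂ × ℂ => 2 * (pq A p.1 * pq B p.2) +
      2 * ((gq 1 p.1 * pq A p.1) * pq B p.2)) := k1.add k2
  rw [hsplit, integral_add k12 k3, integral_add k1 k2, integral_const_mul,
    integral_const_mul, integral_const_mul]
  have e1 : ∫ p : ℂ × ℂ, pq A p.1 * pq B p.2 = (∫ z, pq A z) * ∫ z, pq B z :=
    integral_prod_mul (pq A) (pq B)
  have e2 : ∫ p : ℂ × ℂ, (gq 1 p.1 * pq A p.1) * pq B p.2 = (∫ z, gq 1 z * pq A z) * ∫ z, pq B z :=
    integral_prod_mul (fun z => gq 1 z * pq A z) (pq B)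
  have e3 : ∫ p : ℂ × ℂ, pq A p.1 * (gq 1 p.2 * pq B p.2) = (∫ z, pq A z) * ∫ z, gq 1 z * pq B z :=
    integral_prod_mul (pq A) (fun z => gq 1 z * pq B z)
  rw [e1, e2, e3, integral_pq A hA, integral_pq B hB]
  ring

lemma arithInt_two_bounds (D : Fin 2 → ℕ) (h0 : D 0 ≠ 0) (h1 : D 1 ≠ 0) :
    2 * ((D 0 : ℝ) * D 1) ≤
      arithInt 2 (fun j : Fin 3 => if (j : ℕ) < 2 then EB D else EB (fun _ => 1)) ∧
    arithInt 2 (fun j : Fin 3 => if (j : ℕ) < 2 then EB D else EB (fun _ => 1)) ≤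
      24 * ((D 0 : ℝ) * D 1) := by
  rw [arithInt_two D h0 h1, integral_two (D 0) (D 1) h0 h1]
  have b0 := arithInt_EB_one_bounds (fun j => D (Fin.succAbove 0 j)) (by simpa using h1)
  have b1 := arithInt_EB_one_bounds (fun j => D (Fin.succAbove 1 j)) (by simpa using h0)
  have e0 : D (Fin.succAbove 0 0) = D 1 := by simp
  have e1 : D (Fin.succAbove 1 0) = D 0 := by simp
  simp only [e0, e1] at b0 b1
  have l0 := integral_gq_pq_nonneg 1 (D 0)
  have l1 := integral_gq_pq_nonneg 1 (D 1)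
  have u0 := integral_gq_pq_le 1 (D 0) h0
  have u1 := integral_gq_pq_le 1 (D 1) h1
  have hA : (1 : ℝ) ≤ D 0 := by exact_mod_cast Nat.one_le_iff_ne_zero.2 h0
  have hB : (1 : ℝ) ≤ D 1 := by exact_mod_cast Nat.one_le_iff_ne_zero.2 h1
  have m0 : 0 ≤ (D 1 : ℝ) * ∫ z, gq 1 z * pq (D 0) z := mul_nonneg (by linarith) l0
  have m1 : 0 ≤ (D 0 : ℝ) * ∫ z, gq 1 z * pq (D 1) z := mul_nonneg (by linarith) l1
  have n0 : (D 1 : ℝ) * ∫ z, gq 1 z * pq (D 0) z ≤ D 1 * (D 0 + 2 * (1 : ℕ)) :=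
    mul_le_mul_of_nonneg_left u0 (by linarith)
  have n1 : (D 0 : ℝ) * ∫ z, gq 1 z * pq (D 1) z ≤ D 0 * (D 1 + 2 * (1 : ℕ)) :=
    mul_le_mul_of_nonneg_left u1 (by linarith)
  push_cast at n0 n1
  constructor
  · linarith [b0.1, b1.1]
  · nlinarith [b0.2, b1.2]

end Pool.Agent.H92.ArithP1
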