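import Mathlib
import Pool.Agent.H92.ArithComp

set_option autoImplicit false

open scoped BigOperators ContDiff Topology
open MeasureTheory Filter Set

namespace Pool.Agent.H92.ArithP1

/-! ### curvature -/

lemma D2_self {E : Type} [AddCommGroup E] [Module ℝ E] (u : E → ℝ) (z v : E) :
    D2 u z v v = deriv (deriv (fun r : ℝ => u (z + r • v))) 0 := by
  unfold D2
  congr 1
  funext s
  have : (fun t : ℝ => u (z + s • v + t • v)) = fun t : ℝ => (fun r : ℝ => u (z + r • v)) (s + t) := by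
    funext t
    simp only [add_smul, add_assoc]
  rw [this]
  have h := deriv_comp_const_add (fun r : ℝ => u (z + r • v)) s 0
  rw [add_zero] at h
  exact h

/-- `|z + r v|^2` for vectors of `ℂ²` -/
noncomputable def qd (z v : Fin 2 → ℂ) (r : ℝ) : ℝ :=
  ‖(z + r • v) 0‖ ^ 2 + ‖(z + r • v) 1‖ ^ 2

noncomputable def al (z : Fin 2 → ℂ) : ℝ := ‖z 0‖ ^ 2 + ‖z 1‖ ^ 2

noncomputable def be (z v : Fin 2 → ℂ) : ℝ :=
  (z 0).re * (v 0).re + (z 0).im * (v 0).im + (z 1).re * (v 1).re + (z 1).im * (v 1).im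

lemma qd_eq (z v : Fin 2 → ℂ) (r : ℝ) : qd z v r = al z + 2 * be z v * r + al v * r ^ 2 := by
  unfold qd al be
  simp only [← Complex.normSq_eq_norm_sq, Complex.normSq_apply, Pi.add_apply, Pi.smul_apply,
    Complex.add_re, Complex.add_im, Complex.real_smul, Complex.mul_re, Complex.mul_im,
    Complex.ofReal_re, Complex.ofReal_im]
  ring

lemma al_pos {z : Fin 2 → ℂ} (hz : z ≠ 0) : 0 < al z := by
  have := coord_ne_zero hz 1
  simpa [al] using this

lemma hasDerivAt_qd (z v : Fin 2 → ℂ) (r : ℝ) :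
    HasDerivAt (qd z v) (2 * be z v + 2 * al v * r) r := by
  have h : qd z v = fun r => al z + 2 * be z v * r + al v * r ^ 2 := funext (qd_eq z v)
  rw [h]
  have h1 : HasDerivAt (fun r : ℝ => al z + 2 * be z v * r) (2 * be z v) r := by
    simpa using ((hasDerivAt_id r).const_mul (2 * be z v)).const_add (al z)
  have h2 : HasDerivAt (fun r : ℝ => al v * r ^ 2) (al v * (2 * r)) r := by
    simpa using (hasDerivAt_pow 2 r).const_mul (al v)
  refine (h1.add h2).congr_deriv ?_
  ring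

lemma log_EB_one {d : ℕ} (z v : Fin d → Fin 2 → ℂ) (r : ℝ)
    (hr : ∀ i, 0 < qd (z i) (v i) r) :
    Real.log ((EB (fun _ : Fin d => 1)).N (z + r • v)) = 1 + ∑ i, 1 / 2 * Real.log (qd (z i) (v i) r) := by
  change Real.log (fsN _ _) = _
  unfold fsN
  have hq : ∀ i, Real.sqrt (‖(z + r • v) i 0‖ ^ (2 * 1) + ‖(z + r • v) i 1‖ ^ (2 * 1))
      = Real.sqrt (qd (z i) (v i) r) := by
    intro i
    rfl
  simp_rw [hq]
  rw [Real.log_mul (Real.exp_ne_zero 1), Real.log_exp, Real.log_prod]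
  · congr 1
    refine Finset.sum_congr rfl fun i _ => ?_
    rw [Real.log_sqrt (hr i).le]
    ring
  · intro i _
    exact (Real.sqrt_pos.2 (hr i)).ne'
  · exact (Finset.prod_pos fun i _ => Real.sqrt_pos.2 (hr i)).ne'

lemma eventually_qd_pos {d : ℕ} (z v : Fin d → Fin 2 → ℂ) (hz : ∀ i, z i ≠ 0) :
    ∀ᶠ r in 𝓝 (0 : ℝ), ∀ i, 0 < qd (z i) (v i) r := by
  rw [Filter.eventually_all]
  intro i
  have hc : ContinuousAt (qd (z i) (v i)) 0 := (hasDerivAt_qd (z i) (v i) 0).continuousAt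
  have h0 : 0 < qd (z i) (v i) 0 := by
    rw [qd_eq]
    simpa using al_pos (hz i)
  exact hc.eventually (lt_mem_nhds h0)

lemma D2_log_EB {d : ℕ} (z v : Fin d → Fin 2 → ℂ) (hz : ∀ i, z i ≠ 0) :
    D2 (fun w => Real.log ((EB (fun _ : Fin d => 1)).N w)) z v v
      = ∑ i, (al (v i) * al (z i) - 2 * be (z i) (v i) ^ 2) / al (z i) ^ 2 := by
  rw [D2_self]
  have hev := eventually_qd_pos z v hz
  have hev2 := hev.eventually_nhds
  have hd1 : deriv (fun r : ℝ => Real.log ((EB (fun _ : Fin d => 1)).N (z + r • v)))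
      =ᶠ[𝓝 0] fun r => ∑ i, 1 / 2 * ((2 * be (z i) (v i) + 2 * al (v i) * r) / qd (z i) (v i) r) := by
    filter_upwards [hev2] with r hr
    have e1 : (fun r : ℝ => Real.log ((EB (fun _ : Fin d => 1)).N (z + r • v)))
        =ᶠ[𝓝 r] fun r => 1 + ∑ i, 1 / 2 * Real.log (qd (z i) (v i) r) := by
      filter_upwards [hr] with r' hr'
      exact log_EB_one z v r' hr'
    rw [e1.deriv_eq]
    have hr0 := hr.self_of_nhds
    have h2 : HasDerivAt (fun r => 1 + ∑ i, 1 / 2 * Real.log (qd (z i) (v i) r))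
        (∑ i, 1 / 2 * ((2 * be (z i) (v i) + 2 * al (v i) * r) / qd (z i) (v i) r)) r := by
      refine HasDerivAt.const_add _ ?_
      refine HasDerivAt.fun_sum fun i _ => ?_
      exact ((hasDerivAt_qd (z i) (v i) r).log (hr0 i).ne').const_mul (1 / 2)
    exact h2.deriv
  rw [hd1.deriv_eq]
  have h3 : HasDerivAt (fun r => ∑ i, 1 / 2 * ((2 * be (z i) (v i) + 2 * al (v i) * r) / qd (z i) (v i) r))
      (∑ i, (al (v i) * al (z i) - 2 * be (z i) (v i) ^ 2) / al (z i) ^ 2) 0 := by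
    refine HasDerivAt.fun_sum fun i _ => ?_
    have hq0 : qd (z i) (v i) 0 = al (z i) := by rw [qd_eq]; ring
    have hpos := al_pos (hz i)
    have h4 : HasDerivAt (fun r : ℝ => 2 * be (z i) (v i) + 2 * al (v i) * r) (2 * al (v i)) 0 := by
      simpa using ((hasDerivAt_id (0 : ℝ)).const_mul (2 * al (v i))).const_add (2 * be (z i) (v i))
    have h5 := (h4.div (hasDerivAt_qd (z i) (v i) 0) (by rw [hq0]; exact hpos.ne')).const_mul (1 / 2 : ℝ)
    refine h5.congr_deriv ?_
    rw [hq0]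
    field_simp
    ring
  exact h3.deriv

lemma lagrange (z v : Fin 2 → ℂ) :
    al v * al z - be z v ^ 2 - be z (Complex.I • v) ^ 2 = ‖z 0 * v 1 - z 1 * v 0‖ ^ 2 := by
  unfold al be
  simp only [← Complex.normSq_eq_norm_sq, Complex.normSq_apply, Pi.smul_apply, smul_eq_mul,
    Complex.mul_re, Complex.mul_im, Complex.I_re, Complex.I_im, Complex.sub_re, Complex.sub_im]
  ring

lemma al_I (v : Fin 2 → ℂ) : al (Complex.I • v) = al v := by
  unfold al; simp

lemma det_ne_zero {z v : Fin 2 → ℂ} (hz : z ≠ 0) (hv : ∀ c : ℂ, v ≠ c • z) :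
    z 0 * v 1 - z 1 * v 0 ≠ 0 := by
  intro h
  have h' : z 0 * v 1 = z 1 * v 0 := sub_eq_zero.1 h
  by_cases h0 : z 0 = 0
  · have h1 : z 1 ≠ 0 := by
      intro h1
      apply hz
      funext b
      fin_cases b
      · exact h0
      · exact h1
    apply hv (v 1 / z 1)
    funext b
    fin_cases b
    · have : v 0 = 0 := by
        rw [h0, zero_mul] at h'
        rcases mul_eq_zero.1 h'.symm with h2 | h2
        · exact absurd h2 h1
        · exact h2
      simp [h0, this]
    · simp [h1]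
  · apply hv (v 0 / z 0)
    funext b
    fin_cases b
    · simp [h0]
    · simp only [Pi.smul_apply, smul_eq_mul]
      change v 1 = v 0 / z 0 * z 1
      field_simp
      rw [mul_comm, h', mul_comm]

theorem curvature_EB {d : ℕ} (z : Fin d → Fin 2 → ℂ) (hz : ∀ i, z i ≠ 0) (v : Fin d → Fin 2 → ℂ)
    (hv : ∃ i, ∀ c : ℂ, v i ≠ c • z i) :
    0 < D2 (fun w => Real.log ((EB (fun _ : Fin d => 1)).N w)) z v v +
      D2 (fun w => Real.log ((EB (fun _ : Fin d => 1)).N w)) z (Complex.I • v) (Complex.I • v) := by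
  rw [D2_log_EB z v hz, D2_log_EB z (Complex.I • v) hz, ← Finset.sum_add_distrib]
  have hterm : ∀ i, (al (v i) * al (z i) - 2 * be (z i) (v i) ^ 2) / al (z i) ^ 2 +
      (al ((Complex.I • v) i) * al (z i) - 2 * be (z i) ((Complex.I • v) i) ^ 2) / al (z i) ^ 2
      = 2 * ‖z i 0 * v i 1 - z i 1 * v i 0‖ ^ 2 / al (z i) ^ 2 := by
    intro i
    have h1 : (Complex.I • v) i = Complex.I • v i := rfl
    rw [h1, al_I, ← lagrange]
    ring
  simp_rw [hterm]
  obtain ⟨i, hi⟩ := hv
  refine Finset.sum_pos' (fun i _ => by positivity) ⟨i, Finset.mem_univ i, ?_⟩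
  have h1 := det_ne_zero (hz i) hi
  have h2 : 0 < ‖z i 0 * v i 1 - z i 1 * v i 0‖ := norm_pos_iff.2 h1
  have h3 := al_pos (hz i)
  positivity

/-! ### small sections -/

lemma small_monomial {d : ℕ} (n : ℕ) (hn : 1 ≤ n) (e : Fin d × Fin 2 →₀ ℕ)
    (he : ∀ i, e (i, 0) + e (i, 1) = n) :
    IsSmall (EB (fun _ : Fin d => 1)) n (MvPolynomial.monomial e 1) := by
  refine ⟨Real.exp (-1), ?_, ?_⟩
  · rw [Real.exp_lt_one_iff]
    norm_num
  · intro z hz
    change _ ≤ Real.exp (-1) * (fsN _ z) ^ n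
    unfold fsN
    have h1 : MvPolynomial.aeval (fun p : Fin d × Fin 2 => z p.1 p.2) (MvPolynomial.monomial e (1 : ℤ))
        = ∏ i, (z i 0 ^ e (i, 0) * z i 1 ^ e (i, 1)) := by
      rw [MvPolynomial.aeval_monomial]
      simp only [map_one, one_mul]
      rw [Finsupp.prod_fintype]
      · rw [Fintype.prod_prod_type]
        simp [Fin.prod_univ_two]
      · intro i; simp
    rw [h1, norm_prod, mul_pow, ← Finset.prod_pow]
    have h2 : ∀ i, ‖z i 0 ^ e (i, 0) * z i 1 ^ e (i, 1)‖
        ≤ (Real.sqrt (‖z i 0‖ ^ (2 * 1) + ‖z i 1‖ ^ (2 * 1))) ^ n := by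
      intro i
      rw [norm_mul, norm_pow, norm_pow, ← he i, pow_add]
      have ha : ‖z i 0‖ ≤ Real.sqrt (‖z i 0‖ ^ (2 * 1) + ‖z i 1‖ ^ (2 * 1)) := by
        apply Real.le_sqrt_of_sq_le
        have : 0 ≤ ‖z i 1‖ ^ (2 * 1) := by positivity
        simpa using this
      have hb : ‖z i 1‖ ≤ Real.sqrt (‖z i 0‖ ^ (2 * 1) + ‖z i 1‖ ^ (2 * 1)) := by
        apply Real.le_sqrt_of_sq_le
        have : 0 ≤ ‖z i 0‖ ^ (2 * 1) := by positivity
        simpa using this
      gcongr
    have h3 : ∏ i, ‖z i 0 ^ e (i, 0) * z i 1 ^ e (i, 1)‖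
        ≤ ∏ i, (Real.sqrt (‖z i 0‖ ^ (2 * 1) + ‖z i 1‖ ^ (2 * 1))) ^ n :=
      Finset.prod_le_prod (fun i _ => norm_nonneg _) (fun i _ => h2 i)
    refine h3.trans ?_
    rw [← mul_assoc]
    have h4 : 1 ≤ Real.exp (-1) * Real.exp 1 ^ n := by
      rw [← Real.exp_nat_mul, ← Real.exp_add]
      apply Real.one_le_exp
      have : (1 : ℝ) ≤ n := by exact_mod_cast hn
      linarith
    refine le_mul_of_one_le_left ?_ h4
    exact Finset.prod_nonneg fun i _ => by positivity

theorem EB_ample (d : ℕ) : (EB (fun _ : Fin d => 1)).ArithAmple where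
  ample i := by simp [EB]
  curvature := curvature_EB
  small := by
    refine ⟨1, fun n hn s hs => ?_⟩
    have hs' : ∀ e ∈ s.support, ∀ i, e (i, 0) + e (i, 1) = n := by
      intro e he i
      have := hs e he i
      simp only [EB] at this
      push_cast at this
      rw [mul_one] at this
      exact_mod_cast this
    rw [← MvPolynomial.support_sum_monomial_coeff s]
    refine AddSubgroup.sum_mem _ fun e he => ?_
    have h1 : MvPolynomial.monomial e (MvPolynomial.coeff e s)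
        = (MvPolynomial.coeff e s) • MvPolynomial.monomial e (1 : ℤ) := by
      rw [MvPolynomial.smul_monomial]; simp
    rw [h1]
    have hmem : MvPolynomial.monomial e (1 : ℤ) ∈
        {s' | IsSection (EB (fun _ : Fin d => 1)) n s' ∧ IsSmall (EB (fun _ : Fin d => 1)) n s'} := by
      refine ⟨?_, small_monomial n hn e (hs' e he)⟩
      intro e' he' i
      have h2 : e' = e := by
        have := MvPolynomial.support_monomial_subset he'
        simpa using this
      subst h2
      have := hs' e' he i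
      simp only [EB]
      push_cast
      rw [mul_one]
      exact_mod_cast this
    exact AddSubgroup.zsmul_mem _ (AddSubgroup.subset_closure hmem) _

end Pool.Agent.H92.ArithP1
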