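import Mathlib
import Pool.Agent.H92.ArithAmple

set_option autoImplicit false

open scoped BigOperators ContDiff Topology
open MeasureTheory Filter Set

namespace Pool.Agent.H92.ArithP1

lemma powMor_surj {d : ℕ} (a : Fin d → ℕ) (ha : ∀ i, a i ≠ 0) : (powMor a).SurjectiveOnPoints := by
  intro w hw
  have hroot : ∀ (i : Fin d) (b : Fin 2), ∃ x : ℂ, x ^ a i = w i b := fun i b =>
    IsAlgClosed.exists_pow_nat_eq (w i b) (Nat.pos_of_ne_zero (ha i))
  choose x hx using hroot
  refine ⟨x, fun i h => ?_, fun j => ⟨1, one_ne_zero, ?_⟩⟩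
  · apply hw i
    funext b
    rw [← hx i b, h]
    simp [ha i]
  · rw [powMor_map, one_smul]
    funext b
    exact hx j b

lemma diag_retraction : diagMor.HasRetraction := by
  refine ⟨fstMor, fun K _ z hz j => ⟨1, one_ne_zero, ?_⟩⟩
  rw [fstMor_map, diagMor_map, one_smul]
  have : j = 0 := Subsingleton.elim _ _
  rw [this]

lemma iterate_powMor_map {d : ℕ} (a : Fin d → ℕ) (n : ℕ) {K : Type} [Field K]
    (z : Fin d → Fin 2 → K) :
    (powMor a).map^[n] z = fun j b => z j b ^ (a j ^ n) := by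
  induction n with
  | zero => simp
  | succ n ih =>
    rw [Function.iterate_succ_apply', ih, powMor_map]
    funext j b
    rw [← pow_mul, pow_succ]

lemma dense_orbit (a b : ℕ) (ha : 1 ≤ a) (hab : a < b) : DenseOrbit (powMor ![a, b]) diagMor := by
  intro δ G hG hvan
  by_contra hne
  -- choose `n` with `b ^ n > a ^ n * δ 0`
  obtain ⟨n, hn⟩ : ∃ n : ℕ, a ^ n * δ 0 < b ^ n := by
    have h1 : (1 : ℝ) < (b : ℝ) / a := by
      rw [one_lt_div (by exact_mod_cast ha)]
      exact_mod_cast hab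
    obtain ⟨n, hn⟩ := pow_unbounded_of_one_lt (δ 0 : ℝ) h1
    refine ⟨n, ?_⟩
    rw [div_pow, lt_div_iff₀ (by positivity)] at hn
    have : (a : ℝ) ^ n * δ 0 < (b : ℝ) ^ n := by linarith
    exact_mod_cast this
  -- the exponent map
  set m : (Fin 2 × Fin 2 →₀ ℕ) → ℕ := fun e => a ^ n * e (0, 1) + b ^ n * e (1, 1) with hm
  have hinj : ∀ e ∈ G.support, ∀ e' ∈ G.support, m e = m e' → e = e' := by
    intro e he e' he' hmm
    have h0 := hG e he 0
    have h1 := hG e he 1
    have h0' := hG e' he' 0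
    have h1' := hG e' he' 1
    simp only [hm] at hmm
    have hapos : 0 < a ^ n := by positivity
    have key : e (1, 1) = e' (1, 1) := by
      rcases lt_trichotomy (e (1, 1)) (e' (1, 1)) with h | h | h
      · exfalso
        have h2 : b ^ n * (e (1, 1) + 1) ≤ b ^ n * e' (1, 1) := Nat.mul_le_mul_left _ h
        have h3 : a ^ n * e (0, 1) ≤ a ^ n * δ 0 := Nat.mul_le_mul_left _ (by omega)
        have h4 : b ^ n * (e (1, 1) + 1) = b ^ n * e (1, 1) + b ^ n := by ring
        have h5 : 0 ≤ a ^ n * e' (0, 1) := Nat.zero_le _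
        omega
      · exact h
      · exfalso
        have h2 : b ^ n * (e' (1, 1) + 1) ≤ b ^ n * e (1, 1) := Nat.mul_le_mul_left _ h
        have h3 : a ^ n * e' (0, 1) ≤ a ^ n * δ 0 := Nat.mul_le_mul_left _ (by omega)
        have h4 : b ^ n * (e' (1, 1) + 1) = b ^ n * e' (1, 1) + b ^ n := by ring
        have h5 : 0 ≤ a ^ n * e (0, 1) := Nat.zero_le _
        omega
    have key2 : e (0, 1) = e' (0, 1) := by
      rw [key] at hmm
      have : a ^ n * e (0, 1) = a ^ n * e' (0, 1) := by omega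
      exact Nat.eq_of_mul_eq_mul_left hapos this
    ext ⟨i, c⟩
    fin_cases i <;> fin_cases c
    · change e (0, 0) = e' (0, 0); omega
    · exact key2
    · change e (1, 0) = e' (1, 0); omega
    · exact key
  -- the polynomial in one variable
  set P : Polynomial ℂ := ∑ e ∈ G.support, Polynomial.monomial (m e) (G.coeff e) with hP
  have hPeval : ∀ x : ℂ, P.eval x = 0 := by
    intro x
    have h := hvan n (fun _ => ![1, x]) (by
      intro i h
      have := congrFun h 0
      simp at this)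
    rw [iterate_powMor_map, diagMor_map, MvPolynomial.eval_eq'] at h
    rw [hP, Polynomial.eval_finset_sum, ← h]
    refine Finset.sum_congr rfl fun e he => ?_
    rw [Polynomial.eval_monomial, Fintype.prod_prod_type]
    simp [Fin.prod_univ_two, hm]
    left
    ring
  have hP0 : P = 0 := by
    apply Polynomial.funext
    intro x
    rw [hPeval x, Polynomial.eval_zero]
  apply hne
  rw [← MvPolynomial.support_eq_empty]
  by_contra hs
  obtain ⟨e, he⟩ := Finset.nonempty_iff_ne_empty.2 hs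
  have hc : P.coeff (m e) = G.coeff e := by
    rw [hP, Polynomial.finset_sum_coeff]
    rw [Finset.sum_eq_single e]
    · simp
    · intro e' he' hee
      rw [Polynomial.coeff_monomial, if_neg]
      intro hmm
      exact hee (hinj e' he' e he hmm)
    · intro h
      exact absurd he h
  rw [hP0, Polynomial.coeff_zero] at hc
  exact (MvPolynomial.mem_support_iff.1 he) hc.symm

lemma tendsto_root (x : ℕ → ℝ) (q c C : ℝ) (hq : 0 < q) (hc : 0 < c)
    (h1 : ∀ n, c * q ^ n ≤ x n) (h2 : ∀ n, x n ≤ C * q ^ n) :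
    Tendsto (fun n : ℕ => x n ^ (1 / (n : ℝ))) atTop (𝓝 q) := by
  have hC : 0 < C := by
    have := (h1 0).trans (h2 0)
    simp at this
    linarith
  have hlim : ∀ K : ℝ, 0 < K → Tendsto (fun n : ℕ => (K * q ^ n) ^ (1 / (n : ℝ))) atTop (𝓝 q) := by
    intro K hK
    have e1 : (fun n : ℕ => K ^ (1 / (n : ℝ)) * q) =ᶠ[atTop] fun n : ℕ => (K * q ^ n) ^ (1 / (n : ℝ)) := by
      filter_upwards [eventually_gt_atTop 0] with n hn
      have hn' : (n : ℝ) ≠ 0 := by positivity
      rw [Real.mul_rpow hK.le (by positivity), ← Real.rpow_natCast, ← Real.rpow_mul hq.le,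
        mul_one_div_cancel hn', Real.rpow_one]
    refine Tendsto.congr' e1 ?_
    have h3 : Tendsto (fun n : ℕ => (1 / (n : ℝ))) atTop (𝓝 0) := tendsto_one_div_atTop_nhds_zero_nat
    have h4 : Tendsto (fun n : ℕ => K ^ (1 / (n : ℝ))) atTop (𝓝 (K ^ (0 : ℝ))) :=
      (Real.continuousAt_const_rpow hK.ne').tendsto.comp h3
    rw [Real.rpow_zero] at h4
    simpa using h4.mul_const q
  refine tendsto_of_tendsto_of_tendsto_of_le_of_le (hlim c hc) (hlim C hC) ?_ ?_
  · intro n
    exact Real.rpow_le_rpow (by positivity) (h1 n) (by positivity)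
  · intro n
    exact Real.rpow_le_rpow ((by positivity : 0 ≤ c * q ^ n).trans (h1 n)) (h2 n) (by positivity)

theorem alphaSub_eq (a b : ℕ) (ha : 1 ≤ a) (hab : a < b) :
    alphaSub (EB (fun _ : Fin 2 => 1)) (powMor ![a, b]) diagMor = b := by
  unfold alphaSub
  apply Tendsto.limsup_eq
  have hb : 1 ≤ b := by omega
  have hD : ∀ n : ℕ, ∀ i : Fin 2, (![a, b] i) ^ n ≠ 0 := by
    intro n i
    fin_cases i
    · exact pow_ne_zero _ (by simp; omega)
    · exact pow_ne_zero _ (by simp; omega)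
  have hbd : ∀ n : ℕ, 2 * ((a : ℝ) ^ n + (b : ℝ) ^ n) ≤ arithInt 1 (fun _ : Fin (1 + 1) =>
      HermLB.pullback diagMor ((HermLB.pullback (powMor ![a, b]))^[n] (EB (fun _ : Fin 2 => 1)))) ∧
      arithInt 1 (fun _ : Fin (1 + 1) =>
      HermLB.pullback diagMor ((HermLB.pullback (powMor ![a, b]))^[n] (EB (fun _ : Fin 2 => 1))))
       ≤ 8 * ((a : ℝ) ^ n + (b : ℝ) ^ n) := by
    intro n
    rw [iterate_pullback]
    have := arithInt_diag_bounds (fun i => ![a, b] i ^ n) (hD n 0) (hD n 1)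
    simpa using this
  have hpow : ∀ n : ℕ, (a : ℝ) ^ n ≤ (b : ℝ) ^ n := by
    intro n
    apply pow_le_pow_left₀ (by positivity)
    exact_mod_cast hab.le
  refine tendsto_root _ (b : ℝ) 2 16 (by positivity) (by norm_num) ?_ ?_
  · intro n
    have h1 := (hbd n).1
    have h2 : (0 : ℝ) ≤ (a : ℝ) ^ n := by positivity
    linarith
  · intro n
    have h1 := (hbd n).2
    have h2 := hpow n
    linarith

theorem alpha_eq (a b : ℕ) (ha : 1 ≤ a) (hb : 1 ≤ b) :
    alpha (EB (fun _ : Fin 2 => 1)) (powMor ![a, b]) 2 = a * b := by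
  unfold alpha
  apply Tendsto.limsup_eq
  have hD : ∀ n : ℕ, ∀ i : Fin 2, (![a, b] i) ^ n ≠ 0 := by
    intro n i
    fin_cases i
    · exact pow_ne_zero _ (by simp; omega)
    · exact pow_ne_zero _ (by simp; omega)
  have hbd : ∀ n : ℕ, 2 * ((a : ℝ) ^ n * (b : ℝ) ^ n) ≤ arithInt 2 (fun j : Fin (2 + 1) =>
      if (j : ℕ) < 2 then ((HermLB.pullback (powMor ![a, b]))^[n] (EB (fun _ : Fin 2 => 1)))
      else EB (fun _ : Fin 2 => 1)) ∧
      arithInt 2 (fun j : Fin (2 + 1) =>
      if (j : ℕ) < 2 then ((HermLB.pullback (powMor ![a, b]))^[n] (EB (fun _ : Fin 2 => 1)))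
      else EB (fun _ : Fin 2 => 1)) ≤ 24 * ((a : ℝ) ^ n * (b : ℝ) ^ n) := by
    intro n
    rw [iterate_pullback]
    have := arithInt_two_bounds (fun i => ![a, b] i ^ n) (hD n 0) (hD n 1)
    simpa using this
  refine tendsto_root _ ((a : ℝ) * b) 2 24 (by positivity) (by norm_num) ?_ ?_
  · intro n
    rw [mul_pow]
    exact (hbd n).1
  · intro n
    rw [mul_pow]
    exact (hbd n).2

end Pool.Agent.H92.ArithP1
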