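import Mathlib

/-!
Helper file for MP_82f054_al: the equation `x x^{-a} x^{a^2} = c` over `V ⋊ C_6`.
-/

set_option autoImplicit false

namespace Pool.Agent.H92.Ord42

/-- The automorphism group action of `V^3` by the unipotent matrix
`[[1,0,0],[s,1,0],[s^2,2s,1]]`. -/
def eAut {R V : Type} [CommRing R] [AddCommGroup V] [Module R V] (s : R) :
    MulAut (Multiplicative (V × V × V)) where
  toFun v := Multiplicative.ofAdd ((v.toAdd).1, s • (v.toAdd).1 + (v.toAdd).2.1,
    (s ^ 2) • (v.toAdd).1 + (2 * s) • (v.toAdd).2.1 + (v.toAdd).2.2)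
  invFun v := Multiplicative.ofAdd ((v.toAdd).1, (-s) • (v.toAdd).1 + (v.toAdd).2.1,
    (s ^ 2) • (v.toAdd).1 + (-(2 * s)) • (v.toAdd).2.1 + (v.toAdd).2.2)
  left_inv v := by
    apply Multiplicative.toAdd.injective
    simp only [toAdd_ofAdd]
    ext
    · rfl
    · simp only []
      module
    · simp only []
      module
  right_inv v := by
    apply Multiplicative.toAdd.injective
    simp only [toAdd_ofAdd]
    ext
    · rfl
    · simp only []
      module
    · simp only []
      module
  map_mul' v w := by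
    apply Multiplicative.toAdd.injective
    simp only [toAdd_ofAdd, toAdd_mul]
    ext
    · rfl
    · simp only [Prod.fst_add, Prod.snd_add]
      module
    · simp only [Prod.fst_add, Prod.snd_add]
      module

/-- `s ↦ eAut s` as a homomorphism. -/
def eHom (R V : Type) [CommRing R] [AddCommGroup V] [Module R V] :
    Multiplicative R →* MulAut (Multiplicative (V × V × V)) where
  toFun s := eAut s.toAdd
  map_one' := by
    ext v
    · simp [eAut]
    · simp [eAut]
    · simp [eAut]
  map_mul' s t := by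
    ext v
    · rfl
    · simp only [eAut, toAdd_mul, MulAut.mul_apply, MulEquiv.coe_mk, Equiv.coe_fn_mk, toAdd_ofAdd]
      module
    · simp only [eAut, toAdd_mul, MulAut.mul_apply, MulEquiv.coe_mk, Equiv.coe_fn_mk, toAdd_ofAdd]
      module

/-- The diagonal automorphism `diag(u, 1, u⁻¹)` of `V^3`. -/
def dHom (R V : Type) [CommRing R] [AddCommGroup V] [Module R V] :
    Rˣ →* MulAut (Multiplicative (V × V × V)) where
  toFun u :=
    { toFun := fun v => Multiplicative.ofAdd (u • (v.toAdd).1, (v.toAdd).2.1, u⁻¹ • (v.toAdd).2.2)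
      invFun := fun v => Multiplicative.ofAdd (u⁻¹ • (v.toAdd).1, (v.toAdd).2.1, u • (v.toAdd).2.2)
      left_inv := fun v => by
        apply Multiplicative.toAdd.injective
        simp
      right_inv := fun v => by
        apply Multiplicative.toAdd.injective
        simp
      map_mul' := fun v w => by
        apply Multiplicative.toAdd.injective
        simp }
  map_one' := by
    ext v
    · simp
    · simp
    · simp
  map_mul' s t := by
    ext v
    · simp [mul_smul]
    · simp
    · simp [mul_smul, mul_comm]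

/-- `Rˣ` acting on the additive group of `R` by `s ↦ u⁻¹ s`. -/
def aHom (R : Type) [CommRing R] : Rˣ →* MulAut (Multiplicative R) where
  toFun u :=
    { toFun := fun v => Multiplicative.ofAdd (((u⁻¹ : Rˣ) : R) * v.toAdd)
      invFun := fun v => Multiplicative.ofAdd ((u : R) * v.toAdd)
      left_inv := fun v => by
        apply Multiplicative.toAdd.injective
        simp
      right_inv := fun v => by
        apply Multiplicative.toAdd.injective
        simp
      map_mul' := fun v w => by
        apply Multiplicative.toAdd.injective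
        simp [mul_add] }
  map_one' := by
    ext v
    simp
  map_mul' s t := by
    ext v
    simp [mul_comm, mul_assoc]

/-- `T = R ⋊ C`, where `C` acts through a homomorphism `θ : C → Rˣ`. -/
abbrev TT {R C : Type} [CommRing R] [Group C] (θ : C →* Rˣ) : Type :=
  Multiplicative R ⋊[(aHom R).comp θ] C

/-- the action of `T` on `V^3`. -/
def actHom {R C : Type} (V : Type) [CommRing R] [AddCommGroup V] [Module R V] [Group C]
    (θ : C →* Rˣ) : TT θ →* MulAut (Multiplicative (V × V × V)) :=
  SemidirectProduct.lift (eHom R V) ((dHom R V).comp θ) (by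
    intro g
    have key : ∀ (u : Rˣ) (s : R), eAut (V := V) (((u⁻¹ : Rˣ) : R) * s)
        = (dHom R V) u * eAut s * (dHom R V u)⁻¹ := by
      intro u s
      rw [← map_inv]
      have hu : (u : R) * ((u⁻¹ : Rˣ) : R) = 1 := by simp
      ext v
      · simp [eAut, dHom]
      · simp only [eAut, dHom, MulAut.mul_apply, MulEquiv.coe_mk, Equiv.coe_fn_mk, toAdd_ofAdd,
          MonoidHom.coe_mk, OneHom.coe_mk, inv_inv, Units.smul_def]
        module
      · simp only [eAut, dHom, MulAut.mul_apply, MulEquiv.coe_mk, Equiv.coe_fn_mk, toAdd_ofAdd,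
          MonoidHom.coe_mk, OneHom.coe_mk, inv_inv, Units.smul_def]
        match_scalars
        · ring
        · ring
        · linear_combination -hu
    refine MonoidHom.ext fun s => ?_
    exact key (θ g) (Multiplicative.toAdd s))

/-- A semidirect product of solvable groups is solvable. -/
theorem solvable_semi {N G : Type} [Group N] [Group G] (φ : G →* MulAut N)
    (hN : Group.IsSolvable N) (hG : Group.IsSolvable G) : Group.IsSolvable (N ⋊[φ] G) := by
  refine Group.isSolvable_of_ker_le_range (SemidirectProduct.inl : N →* N ⋊[φ] G)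
    (SemidirectProduct.rightHom : N ⋊[φ] G →* G) ?_
  rw [SemidirectProduct.range_inl_eq_ker_rightHom]

/-- The overgroup `H = V^3 ⋊ (R ⋊ C)`. -/
abbrev HH {R C : Type} (V : Type) [CommRing R] [AddCommGroup V] [Module R V] [Group C]
    (θ : C →* Rˣ) : Type :=
  Multiplicative (V × V × V) ⋊[actHom V θ] (TT θ)

/-- `Rˣ` acting on the additive group of `V` by `v ↦ u⁻¹ v`. -/
def cHom (R V : Type) [CommRing R] [AddCommGroup V] [Module R V] :
    Rˣ →* MulAut (Multiplicative V) where
  toFun u :=
    { toFun := fun v => Multiplicative.ofAdd (u⁻¹ • v.toAdd)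
      invFun := fun v => Multiplicative.ofAdd (u • v.toAdd)
      left_inv := fun v => by
        apply Multiplicative.toAdd.injective
        simp
      right_inv := fun v => by
        apply Multiplicative.toAdd.injective
        simp
      map_mul' := fun v w => by
        apply Multiplicative.toAdd.injective
        simp }
  map_one' := by
    ext v
    simp
  map_mul' s t := by
    ext v
    simp [mul_smul, mul_comm]

/-- The group `G = V ⋊ C`, `C` acting on `V` through the inverse of the character `θ`. -/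
abbrev GG {R C : Type} (V : Type) [CommRing R] [AddCommGroup V] [Module R V] [Group C]
    (θ : C →* Rˣ) : Type :=
  Multiplicative V ⋊[(cHom R V).comp θ] C

section
variable {R C V : Type} [CommRing R] [AddCommGroup V] [Module R V] [Group C] (θ : C →* Rˣ)

/-- elements of `H` with trivial `C`-part -/
def mk (v : V × V × V) (s : R) : HH V θ := ⟨Multiplicative.ofAdd v, ⟨Multiplicative.ofAdd s, 1⟩⟩

theorem actHom_mk (s : R) (g : C) (v : Multiplicative (V × V × V)) :
    actHom V θ ⟨Multiplicative.ofAdd s, g⟩ v = eAut s (dHom R V (θ g) v) := rfl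

/-- action of `E(s)` on triples -/
def E (s : R) (v : V × V × V) : V × V × V :=
  (v.1, s • v.1 + v.2.1, (s ^ 2) • v.1 + (2 * s) • v.2.1 + v.2.2)

theorem mk_mul (v w : V × V × V) (s t : R) :
    mk θ v s * mk θ w t = mk θ (v + E s w) (s + t) := by
  refine SemidirectProduct.ext ?_ (SemidirectProduct.ext ?_ ?_)
  · simp only [mk, SemidirectProduct.mul_left, actHom_mk, map_one, MulAut.one_apply]
    rfl
  · simp [mk]
  · simp [mk]

theorem mk_inv (v : V × V × V) (s : R) :
    (mk θ v s)⁻¹ = mk θ (-(E (-s) v)) (-s) := by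
  rw [inv_eq_iff_mul_eq_one, mk_mul]
  refine SemidirectProduct.ext ?_ (SemidirectProduct.ext ?_ ?_)
  · simp only [mk, SemidirectProduct.one_left]
    apply Multiplicative.toAdd.injective
    ext
    · simp [E]
    · simp only [E, toAdd_ofAdd, toAdd_one, Prod.fst_add, Prod.snd_add, Prod.fst_neg, Prod.snd_neg,
        Prod.fst_zero, Prod.snd_zero]
      module
    · simp only [E, toAdd_ofAdd, toAdd_one, Prod.fst_add, Prod.snd_add, Prod.fst_neg, Prod.snd_neg,
        Prod.fst_zero, Prod.snd_zero]
      module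
  · simp [mk]
  · simp [mk]

/-- `C` inside `H` -/
def cc : C →* HH V θ := (SemidirectProduct.inr).comp SemidirectProduct.inr

theorem conj_mk (g : C) (v : V × V × V) (s : R) :
    (cc (V := V) θ g)⁻¹ * mk θ v s * cc (V := V) θ g
      = mk θ ((θ g)⁻¹ • v.1, v.2.1, (θ g) • v.2.2) ((θ g : R) * s) := by
  rw [← map_inv]
  refine SemidirectProduct.ext ?_ (SemidirectProduct.ext ?_ ?_)
  · simp only [cc, MonoidHom.comp_apply, mk, SemidirectProduct.mul_left, map_inv,
      SemidirectProduct.inv_left, SemidirectProduct.left_inr, inv_one, map_one, one_mul,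
      SemidirectProduct.inv_right, SemidirectProduct.right_inr, mul_one, MulAut.inv_apply]
    rw [MulEquiv.symm_apply_eq]
    apply Multiplicative.toAdd.injective
    show v = _
    have h1 : actHom V θ (SemidirectProduct.inr g)
        (Multiplicative.ofAdd ((θ g)⁻¹ • v.1, v.2.1, θ g • v.2.2)) =
        eAut (0 : R) (dHom R V (θ g)
          (Multiplicative.ofAdd ((θ g)⁻¹ • v.1, v.2.1, θ g • v.2.2))) := rfl
    rw [h1]
    ext <;> simp [eAut, dHom]
  · simp [mk, cc]
    rfl
  · simp [mk, cc]

/-- The embedding `G = V ⋊ C → H`, `V` placed in the third coordinate. -/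
def emb (ψ : C →* MulAut (Multiplicative V))
    (hψ : ∀ (g : C) (v : V), ψ g (Multiplicative.ofAdd v)
      = Multiplicative.ofAdd ((θ g)⁻¹ • v)) :
    Multiplicative V ⋊[ψ] C →* HH V θ where
  toFun g := ⟨Multiplicative.ofAdd (0, 0, Multiplicative.toAdd g.left), ⟨1, g.right⟩⟩
  map_one' := rfl
  map_mul' g h := by
    refine SemidirectProduct.ext ?_ (SemidirectProduct.ext ?_ ?_)
    · apply Multiplicative.toAdd.injective
      have h1 : actHom V θ (⟨1, g.right⟩ : TT θ)
        (Multiplicative.ofAdd (0, 0, Multiplicative.toAdd h.left)) =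
        eAut (0 : R) (dHom R V (θ g.right)
          (Multiplicative.ofAdd (0, 0, Multiplicative.toAdd h.left))) := rfl
      have h2 : ψ g.right h.left = Multiplicative.ofAdd ((θ g.right)⁻¹ •
        (Multiplicative.toAdd h.left)) := hψ g.right (Multiplicative.toAdd h.left)
      simp only [SemidirectProduct.mul_left, h1, h2]
      ext <;> simp [eAut, dHom]
    · simp
    · simp

theorem emb_injective (ψ : C →* MulAut (Multiplicative V))
    (hψ : ∀ (g : C) (v : V), ψ g (Multiplicative.ofAdd v)
      = Multiplicative.ofAdd ((θ g)⁻¹ • v)) : Function.Injective (emb θ ψ hψ) := by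
  intro g h hgh
  have h1 := congrArg SemidirectProduct.left hgh
  have h2 := congrArg (fun t => SemidirectProduct.right (SemidirectProduct.right t)) hgh
  refine SemidirectProduct.ext ?_ h2
  have h3 := congrArg (fun t => (Multiplicative.toAdd t).2.2) h1
  exact Multiplicative.toAdd.injective h3

theorem emb_inr (ψ : C →* MulAut (Multiplicative V))
    (hψ : ∀ (g : C) (v : V), ψ g (Multiplicative.ofAdd v)
      = Multiplicative.ofAdd ((θ g)⁻¹ • v)) (a : C) :
    emb θ ψ hψ (SemidirectProduct.inr a) = cc (V := V) θ a := rfl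

theorem emb_inl (ψ : C →* MulAut (Multiplicative V))
    (hψ : ∀ (g : C) (v : V), ψ g (Multiplicative.ofAdd v)
      = Multiplicative.ofAdd ((θ g)⁻¹ • v)) (γ : V) :
    emb θ ψ hψ (SemidirectProduct.inl (Multiplicative.ofAdd γ)) = mk θ (0, 0, γ) 0 := rfl

theorem key_eq (a : C) (ha : (θ a : R) ^ 2 - θ a + 1 = 0) (γ : V) :
    ∃ x : HH V θ, x * ((cc (V := V) θ a)⁻¹ * x * cc (V := V) θ a)⁻¹ *
      (((cc (V := V) θ a) ^ 2)⁻¹ * x * (cc (V := V) θ a) ^ 2) = mk θ (0, 0, γ) 0 := by
  obtain ⟨l, hl⟩ : ∃ l : R, l = (θ a : R) := ⟨_, rfl⟩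
  have hli : (((θ a)⁻¹ : Rˣ) : R) = 1 - l := by
    have h1 : (θ a : R) * (1 - l) = 1 := by
      rw [hl]; linear_combination -ha
    calc (((θ a)⁻¹ : Rˣ) : R) = (((θ a)⁻¹ : Rˣ) : R) * ((θ a : R) * (1 - l)) := by rw [h1, mul_one]
      _ = 1 - l := by rw [← mul_assoc, Units.inv_mul, one_mul]
  rw [← hl] at ha
  -- x = (v, 1) with v = ((1-l) γ, (1-l)^2 γ, 0)
  refine ⟨mk θ ((1 - l) • γ, ((1 - l) ^ 2) • γ, 0) 1, ?_⟩
  rw [← map_pow, conj_mk, conj_mk, mk_inv, mk_mul, mk_mul]
  simp only [map_pow, Units.smul_def]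
  have hp : ((((θ a)⁻¹ ^ 2 : Rˣ)) : R) = (1 - l) ^ 2 := by
    rw [Units.val_pow_eq_pow_val, hli]
  have hq : ((θ a ^ 2 : Rˣ) : R) = l ^ 2 := by
    rw [Units.val_pow_eq_pow_val, ← hl]
  rw [← inv_pow, hp, hq, hli, ← hl]
  have e1 : ∀ (u v : V × V × V) (s t : R), u = v → s = t → mk θ u s = mk θ v t := by
    intro u v s t h1 h2; rw [h1, h2]
  apply e1
  · ext
    · simp only [E, Prod.fst_add, Prod.fst_neg, Prod.snd_add, Prod.snd_neg]
      match_scalars
      linear_combination (1 - l) * ha
    · simp only [E, Prod.fst_add, Prod.fst_neg, Prod.snd_add, Prod.snd_neg]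
      match_scalars
      linear_combination (l ^ 2 - 2 * l + 1) * ha
    · simp only [E, Prod.fst_add, Prod.fst_neg, Prod.snd_add, Prod.snd_neg]
      match_scalars
      linear_combination (-(l ^ 3 - 3 * l ^ 2 + 2 * l + 1)) * ha
  · linear_combination ha

end

/-- `k ↦ g ^ k` on `ZMod n` when `g ^ n = 1` -/
def zHom (n : ℕ) [NeZero n] {G : Type} [Group G] (g : G) (h : g ^ n = 1) :
    Multiplicative (ZMod n) →* G where
  toFun k := g ^ (Multiplicative.toAdd k).val
  map_one' := by simp
  map_mul' k l := by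
    rw [toAdd_mul, ZMod.val_add, ← pow_eq_pow_mod _ h, pow_add]

/-- the unit `5` of `ZMod 7` -/
def u5 : (ZMod 7)ˣ := ⟨5, 3, by decide, by decide⟩

theorem u5_pow : u5 ^ 6 = 1 := by decide

/-- the character of `C_6` with value `5` at the generator -/
def th : Multiplicative (ZMod 6) →* (ZMod 7)ˣ := zHom 6 u5 u5_pow

theorem th_val (k : Multiplicative (ZMod 6)) : th k = u5 ^ (Multiplicative.toAdd k).val := rfl

theorem val_compat : ∀ (k : ZMod 6) (j : ZMod 7),
    (3 ^ k.val * j.val) % 7 = (((u5 ^ k.val)⁻¹ : (ZMod 7)ˣ) • j).val := by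
  decide

theorem conj_pow_aux {G : Type} [Group G] (a c : G) (h7 : c ^ 7 = 1)
    (hac : a⁻¹ * c * a = c ^ 5) (k j : ℕ) : a ^ k * c ^ j * (a ^ k)⁻¹ = c ^ (3 ^ k * j) := by
  have h3 : a * c * a⁻¹ = c ^ 3 := by
    have h1 : a⁻¹ * c ^ 3 * a = c := by
      calc a⁻¹ * c ^ 3 * a = (a⁻¹ * c * a) ^ 3 := by
            simp only [pow_succ, pow_zero, one_mul]; group
        _ = (c ^ 7) ^ 2 * c := by rw [hac, ← pow_mul, ← pow_mul, ← pow_succ]
        _ = c := by rw [h7, one_pow, one_mul]
    calc a * c * a⁻¹ = a * (a⁻¹ * c ^ 3 * a) * a⁻¹ := by rw [h1]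
      _ = c ^ 3 := by group
  have h3j : ∀ j : ℕ, a * c ^ j * a⁻¹ = c ^ (3 * j) := by
    intro j
    rw [← conj_pow, h3, pow_mul]
  induction k with
  | zero => simp
  | succ k ih =>
    calc a ^ (k + 1) * c ^ j * (a ^ (k + 1))⁻¹ = a * (a ^ k * c ^ j * (a ^ k)⁻¹) * a⁻¹ := by
          rw [pow_succ']; group
      _ = a * c ^ (3 ^ k * j) * a⁻¹ := by rw [ih]
      _ = c ^ (3 ^ (k + 1) * j) := by rw [h3j, pow_succ']; ring_nf

/-- The group of order 42 is the semidirect product. -/
theorem exists_iso {G : Type} [Group G] (a c : G) (ha : orderOf a = 6) (hc : orderOf c = 7)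
    (hac : a⁻¹ * c * a = c ^ 5) (hgen : Subgroup.closure {a, c} = ⊤) :
    ∃ e : (Multiplicative (ZMod 7) ⋊[(cHom (ZMod 7) (ZMod 7)).comp th] Multiplicative (ZMod 6)) ≃* G,
      e (SemidirectProduct.inr (Multiplicative.ofAdd 1)) = a ∧
      e (SemidirectProduct.inl (Multiplicative.ofAdd 1)) = c := by
  have h6 : a ^ 6 = 1 := by rw [← ha]; exact pow_orderOf_eq_one a
  have h7 : c ^ 7 = 1 := by rw [← hc]; exact pow_orderOf_eq_one c
  let fn := zHom 7 c h7
  let fg := zHom 6 a h6
  have hcomp : ∀ g, fn.comp (((cHom (ZMod 7) (ZMod 7)).comp th) g).toMonoidHom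
      = (MulAut.conj (fg g)).toMonoidHom.comp fn := by
    intro g
    refine MonoidHom.ext fun n => ?_
    show c ^ (((th g)⁻¹ • (Multiplicative.toAdd n) : ZMod 7)).val
      = a ^ (Multiplicative.toAdd g).val * c ^ (Multiplicative.toAdd n).val *
        (a ^ (Multiplicative.toAdd g).val)⁻¹
    rw [conj_pow_aux a c h7 hac, th_val, ← val_compat, ← pow_eq_pow_mod _ h7]
  let F := SemidirectProduct.lift fn fg hcomp
  have hinj : Function.Injective F := by
    rw [injective_iff_map_eq_one]
    rintro ⟨n, g⟩ h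
    have h1 : c ^ (Multiplicative.toAdd n).val * a ^ (Multiplicative.toAdd g).val = 1 := h
    have h2 : c ^ (Multiplicative.toAdd n).val = (a ^ (Multiplicative.toAdd g).val)⁻¹ :=
      eq_inv_of_mul_eq_one_left h1
    have h3 : (c ^ (Multiplicative.toAdd n).val) = 1 := by
      have e6 : (c ^ (Multiplicative.toAdd n).val) ^ 6 = 1 := by
        rw [h2, inv_pow, ← pow_mul, mul_comm, pow_mul, h6, one_pow, inv_one]
      have e7 : (c ^ (Multiplicative.toAdd n).val) ^ 7 = 1 := by
        rw [← pow_mul, mul_comm, pow_mul, h7, one_pow]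
      calc c ^ (Multiplicative.toAdd n).val
          = (c ^ (Multiplicative.toAdd n).val) ^ 7 * ((c ^ (Multiplicative.toAdd n).val) ^ 6)⁻¹ := by
            group
        _ = 1 := by rw [e6, e7]; group
    have h4 : a ^ (Multiplicative.toAdd g).val = 1 := by
      rw [h3] at h2
      exact (inv_eq_one.mp h2.symm)
    have h5 : (Multiplicative.toAdd n).val = 0 := by
      have := orderOf_dvd_of_pow_eq_one h3
      rw [hc] at this
      exact Nat.eq_zero_of_dvd_of_lt this (ZMod.val_lt _)
    have h6' : (Multiplicative.toAdd g).val = 0 := by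
      have := orderOf_dvd_of_pow_eq_one h4
      rw [ha] at this
      exact Nat.eq_zero_of_dvd_of_lt this (ZMod.val_lt _)
    refine SemidirectProduct.ext ?_ ?_
    · exact Multiplicative.toAdd.injective ((ZMod.val_eq_zero _).mp h5)
    · exact Multiplicative.toAdd.injective ((ZMod.val_eq_zero _).mp h6')
  have hFa : F (SemidirectProduct.inr (Multiplicative.ofAdd 1)) = a := by
    show SemidirectProduct.lift fn fg hcomp _ = a
    rw [SemidirectProduct.lift_inr]
    show a ^ ((1 : ZMod 6)).val = a
    rw [show ((1 : ZMod 6)).val = 1 from rfl, pow_one]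
  have hFc : F (SemidirectProduct.inl (Multiplicative.ofAdd 1)) = c := by
    show SemidirectProduct.lift fn fg hcomp _ = c
    rw [SemidirectProduct.lift_inl]
    show c ^ ((1 : ZMod 7)).val = c
    rw [show ((1 : ZMod 7)).val = 1 from rfl, pow_one]
  have hsurj : Function.Surjective F := by
    rw [← MonoidHom.range_eq_top, eq_top_iff, ← hgen, Subgroup.closure_le]
    rintro y (rfl | hy)
    · exact ⟨_, hFa⟩
    · rw [Set.mem_singleton_iff] at hy
      subst hy
      exact ⟨_, hFc⟩
  exact ⟨MulEquiv.ofBijective F ⟨hinj, hsurj⟩, hFa, hFc⟩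

end Pool.Agent.H92.Ord42
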