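import Mathlib

set_option autoImplicit false

namespace Pool.Agent.H92.RR

def Gf (S κ N j : ℚ) : ℚ :=
  S * ((6 * N ^ 2 + (192 - 6 * S) * N + 672 - 96 * S + κ) * j
    - (42 * N + 1491 / 2 - 21 * S - 2 * S ^ 2) * j ^ 3 + 147 / 2 * j ^ 5)

def ef (S j : ℚ) : ℚ := 7 / 2 * j * (j + 1) - j * S

def qf (κ n : ℚ) : ℚ := 2 * n ^ 3 + 75 * n ^ 2 + κ * n

lemma G_rec (S κ N j : ℚ) : Gf S κ N j + Gf S κ N (j + 1)
    = qf κ (N - ef S j) - qf κ (N - ef S j - (2 * j + 1) * S) := by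
  unfold Gf qf ef; ring

lemma G_x (S κ x j : ℚ) : Gf S κ (ef S j + x) j = S * j * (6 * x ^ 2 +
    ((42 - 12 * S) * j + 192 - 6 * S) * x + (8 * S ^ 2 - 42 * S) * j ^ 2 +
    (6 * S ^ 2 - 213 * S + 672) * j + 672 - 96 * S + κ) := by
  unfold Gf ef; ring

/-- error bound -/
def Eb (S J : ℚ) : ℚ :=
  if S = 1 then 72 * J ^ 3 + 891 * J ^ 2 + 1596 * J + 8294
  else if S = 2 then 232 * J ^ 3 + 2244 * J ^ 2 + 3384 * J + 8524
  else 594 * J ^ 3 + 4095 * J ^ 2 + 5364 * J + 9765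

lemma Eb1 (J : ℚ) : Eb 1 J = 72 * J ^ 3 + 891 * J ^ 2 + 1596 * J + 8294 := by simp [Eb]
lemma Eb2 (J : ℚ) : Eb 2 J = 232 * J ^ 3 + 2244 * J ^ 2 + 3384 * J + 8524 := by
  norm_num [Eb]
lemma Eb3 (J : ℚ) : Eb 3 J = 594 * J ^ 3 + 4095 * J ^ 2 + 5364 * J + 9765 := by
  norm_num [Eb]

lemma qf_mono {κ x y : ℚ} (hκ : 0 ≤ κ) (hx : 0 ≤ x) (hxy : x ≤ y) : qf κ x ≤ qf κ y := by
  unfold qf
  gcongr

/-- partial last block, upper bound -/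
lemma case1_upper (S κ J x R : ℚ) (hS : S = 1 ∨ S = 2 ∨ S = 3) (hκ : 822 ≤ κ) (hκ' : κ ≤ 828)
    (hJ : 11 ≤ J) (hx : 0 ≤ x) (hxw : x ≤ (2 * J + 1) * S) (hR : R ≤ qf κ x + 6552) :
    R - Gf S κ (ef S J + x) J ≤ Eb S J := by
  have h1 : qf κ x ≤ qf κ ((2 * J + 1) * S) := qf_mono (by linarith) hx hxw
  obtain ⟨t, rfl⟩ : ∃ t, J = 11 + t := ⟨J - 11, by ring⟩
  have ht : 0 ≤ t := by linarith
  obtain ⟨k, rfl⟩ : ∃ k, κ = 822 + k := ⟨κ - 822, by ring⟩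
  have hk : 0 ≤ k := by linarith
  have hk' : k ≤ 6 := by linarith
  rcases hS with rfl | rfl | rfl
  · rw [G_x, Eb1]
    have h2 : 0 ≤ 1 * (11 + t) * (6 * x ^ 2 + ((42 - 12 * 1) * (11 + t) + 192 - 6 * 1) * x) := by
      have : 0 ≤ ((42 - 12 * 1) * (11 + t) + 192 - 6 * 1 : ℚ) := by linarith
      positivity
    unfold qf at *
    have h3 : k * (22 + 2 * t + 1) ≤ 6 * (22 + 2 * t + 1) := by
      apply mul_le_mul_of_nonneg_right hk' (by linarith)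
    have h4 : 0 ≤ k * (11 + t) := by positivity
    nlinarith [mul_nonneg ht ht, mul_nonneg (mul_nonneg ht ht) ht, mul_nonneg hk ht]
  · rw [G_x, Eb2]
    have h2 : 0 ≤ 2 * (11 + t) * (6 * x ^ 2 + ((42 - 12 * 2) * (11 + t) + 192 - 6 * 2) * x) := by
      have : 0 ≤ ((42 - 12 * 2) * (11 + t) + 192 - 6 * 2 : ℚ) := by linarith
      positivity
    unfold qf at *
    have h3 : k * (2 * (22 + 2 * t + 1)) ≤ 6 * (2 * (22 + 2 * t + 1)) := by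
      apply mul_le_mul_of_nonneg_right hk' (by linarith)
    have h4 : 0 ≤ k * (11 + t) := by positivity
    nlinarith [mul_nonneg ht ht, mul_nonneg (mul_nonneg ht ht) ht, mul_nonneg hk ht]
  · rw [G_x, Eb3]
    have h2 : 0 ≤ 3 * (11 + t) * (6 * x ^ 2 + ((42 - 12 * 3) * (11 + t) + 192 - 6 * 3) * x) := by
      have : 0 ≤ ((42 - 12 * 3) * (11 + t) + 192 - 6 * 3 : ℚ) := by linarith
      positivity
    unfold qf at *
    have h3 : k * (3 * (22 + 2 * t + 1)) ≤ 6 * (3 * (22 + 2 * t + 1)) := by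
      apply mul_le_mul_of_nonneg_right hk' (by linarith)
    have h4 : 0 ≤ k * (11 + t) := by positivity
    nlinarith [mul_nonneg ht ht, mul_nonneg (mul_nonneg ht ht) ht, mul_nonneg hk ht]

/-- partial last block, lower bound -/
lemma case1_lower (S κ J x R : ℚ) (hS : S = 1 ∨ S = 2 ∨ S = 3) (hκ : 822 ≤ κ) (hκ' : κ ≤ 828)
    (hJ : 11 ≤ J) (hx : 0 ≤ x) (hxw : x ≤ (2 * J + 1) * S) (hR : 0 ≤ R) :
    -Eb S J ≤ R - Gf S κ (ef S J + x) J := by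
  have hJ0 : 0 ≤ J := by linarith
  have hx2 : x ^ 2 ≤ ((2 * J + 1) * S) ^ 2 := pow_le_pow_left₀ hx hxw 2
  rcases hS with rfl | rfl | rfl
  · rw [G_x, Eb1]
    have h1 : 1 * J * (6 * x ^ 2 + ((42 - 12 * 1) * J + 192 - 6 * 1) * x + (8 * 1 ^ 2 - 42 * 1) * J ^ 2 +
        (6 * 1 ^ 2 - 213 * 1 + 672) * J + 672 - 96 * 1 + κ)
        ≤ 1 * J * (6 * ((2 * J + 1) * 1) ^ 2 + ((42 - 12 * 1) * J + 192 - 6 * 1) * ((2 * J + 1) * 1)
        + (8 * 1 ^ 2 - 42 * 1) * J ^ 2 +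
        (6 * 1 ^ 2 - 213 * 1 + 672) * J + 672 - 96 * 1 + 828) := by
      apply mul_le_mul_of_nonneg_left _ (by linarith)
      have : ((42 - 12 * 1) * J + 192 - 6 * 1) * x ≤ ((42 - 12 * 1) * J + 192 - 6 * 1) * ((2 * J + 1) * 1) :=
        mul_le_mul_of_nonneg_left hxw (by linarith)
      linarith
    nlinarith [mul_nonneg hJ0 hJ0, mul_nonneg (mul_nonneg hJ0 hJ0) hJ0]
  · rw [G_x, Eb2]
    have h1 : 2 * J * (6 * x ^ 2 + ((42 - 12 * 2) * J + 192 - 6 * 2) * x + (8 * 2 ^ 2 - 42 * 2) * J ^ 2 +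
        (6 * 2 ^ 2 - 213 * 2 + 672) * J + 672 - 96 * 2 + κ)
        ≤ 2 * J * (6 * ((2 * J + 1) * 2) ^ 2 + ((42 - 12 * 2) * J + 192 - 6 * 2) * ((2 * J + 1) * 2)
        + (8 * 2 ^ 2 - 42 * 2) * J ^ 2 +
        (6 * 2 ^ 2 - 213 * 2 + 672) * J + 672 - 96 * 2 + 828) := by
      apply mul_le_mul_of_nonneg_left _ (by linarith)
      have : ((42 - 12 * 2) * J + 192 - 6 * 2) * x ≤ ((42 - 12 * 2) * J + 192 - 6 * 2) * ((2 * J + 1) * 2) :=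
        mul_le_mul_of_nonneg_left hxw (by linarith)
      linarith
    nlinarith [mul_nonneg hJ0 hJ0, mul_nonneg (mul_nonneg hJ0 hJ0) hJ0]
  · rw [G_x, Eb3]
    have h1 : 3 * J * (6 * x ^ 2 + ((42 - 12 * 3) * J + 192 - 6 * 3) * x + (8 * 3 ^ 2 - 42 * 3) * J ^ 2 +
        (6 * 3 ^ 2 - 213 * 3 + 672) * J + 672 - 96 * 3 + κ)
        ≤ 3 * J * (6 * ((2 * J + 1) * 3) ^ 2 + ((42 - 12 * 3) * J + 192 - 6 * 3) * ((2 * J + 1) * 3)
        + (8 * 3 ^ 2 - 42 * 3) * J ^ 2 +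
        (6 * 3 ^ 2 - 213 * 3 + 672) * J + 672 - 96 * 3 + 828) := by
      apply mul_le_mul_of_nonneg_left _ (by linarith)
      have : ((42 - 12 * 3) * J + 192 - 6 * 3) * x ≤ ((42 - 12 * 3) * J + 192 - 6 * 3) * ((2 * J + 1) * 3) :=
        mul_le_mul_of_nonneg_left hxw (by linarith)
      linarith
    nlinarith [mul_nonneg hJ0 hJ0, mul_nonneg (mul_nonneg hJ0 hJ0) hJ0]

/-- full last block: bounds for `G` at the next index -/
lemma case2_bound (S κ J y : ℚ) (hS : S = 1 ∨ S = 2 ∨ S = 3) (hκ : 822 ≤ κ) (hκ' : κ ≤ 828)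
    (hJ : 11 ≤ J) (hy : 0 ≤ y) (hyw : y ≤ (7 - 2 * S) * (J + 1)) :
    |Gf S κ (ef S (J + 1) + (-y)) (J + 1)| + 8179 ≤ Eb S J := by
  obtain ⟨t, rfl⟩ : ∃ t, J = 11 + t := ⟨J - 11, by ring⟩
  have ht : 0 ≤ t := by linarith
  have ht2 : 0 ≤ t ^ 2 := by positivity
  have ht3 : 0 ≤ t ^ 3 := by positivity
  rcases hS with rfl | rfl | rfl
  · rw [G_x, Eb1]
    have up : 1 * (11 + t + 1) * (6 * (-y) ^ 2 + ((42 - 12 * 1) * (11 + t + 1) + 192 - 6 * 1) * (-y) +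
        (8 * 1 ^ 2 - 42 * 1) * (11 + t + 1) ^ 2 + (6 * 1 ^ 2 - 213 * 1 + 672) * (11 + t + 1) + 672 - 96 * 1 + κ)
        ≤ (11 + t + 1) * ((8 * 1 ^ 2 - 42 * 1) * (11 + t + 1) ^ 2 +
          (6 * 1 ^ 2 - 213 * 1 + 672) * (11 + t + 1) + 672 - 96 * 1 + 828) := by
      rw [one_mul]
      apply mul_le_mul_of_nonneg_left _ (by linarith)
      have : y * (6 * y - (42 - 12 * 1) * (11 + t + 1)) ≤ 0 := mul_nonpos_of_nonneg_of_nonpos hy (by linarith)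
      nlinarith
    have lo : (11 + t + 1) * (-((42 - 12 * 1) * (11 + t + 1) + 192 - 6 * 1) ^ 2 / 24 +
        (8 * 1 ^ 2 - 42 * 1) * (11 + t + 1) ^ 2 + (6 * 1 ^ 2 - 213 * 1 + 672) * (11 + t + 1) + 672 - 96 * 1 + 822)
        ≤ 1 * (11 + t + 1) * (6 * (-y) ^ 2 + ((42 - 12 * 1) * (11 + t + 1) + 192 - 6 * 1) * (-y) +
        (8 * 1 ^ 2 - 42 * 1) * (11 + t + 1) ^ 2 + (6 * 1 ^ 2 - 213 * 1 + 672) * (11 + t + 1) + 672 - 96 * 1 + κ) := by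
      rw [one_mul]
      apply mul_le_mul_of_nonneg_left _ (by linarith)
      have := sq_nonneg (12 * y - ((42 - 12 * 1) * (11 + t + 1) + 192 - 6 * 1))
      nlinarith
    rw [← le_sub_iff_add_le, abs_le]
    constructor
    · nlinarith
    · nlinarith
  · rw [G_x, Eb2]
    have up : 2 * (11 + t + 1) * (6 * (-y) ^ 2 + ((42 - 12 * 2) * (11 + t + 1) + 192 - 6 * 2) * (-y) +
        (8 * 2 ^ 2 - 42 * 2) * (11 + t + 1) ^ 2 + (6 * 2 ^ 2 - 213 * 2 + 672) * (11 + t + 1) + 672 - 96 * 2 + κ)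
        ≤ 2 * (11 + t + 1) * ((8 * 2 ^ 2 - 42 * 2) * (11 + t + 1) ^ 2 +
          (6 * 2 ^ 2 - 213 * 2 + 672) * (11 + t + 1) + 672 - 96 * 2 + 828) := by
      apply mul_le_mul_of_nonneg_left _ (by linarith)
      have : y * (6 * y - (42 - 12 * 2) * (11 + t + 1)) ≤ 0 := mul_nonpos_of_nonneg_of_nonpos hy (by linarith)
      nlinarith
    have lo : 2 * (11 + t + 1) * (-((42 - 12 * 2) * (11 + t + 1) + 192 - 6 * 2) ^ 2 / 24 +
        (8 * 2 ^ 2 - 42 * 2) * (11 + t + 1) ^ 2 + (6 * 2 ^ 2 - 213 * 2 + 672) * (11 + t + 1) + 672 - 96 * 2 + 822)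
        ≤ 2 * (11 + t + 1) * (6 * (-y) ^ 2 + ((42 - 12 * 2) * (11 + t + 1) + 192 - 6 * 2) * (-y) +
        (8 * 2 ^ 2 - 42 * 2) * (11 + t + 1) ^ 2 + (6 * 2 ^ 2 - 213 * 2 + 672) * (11 + t + 1) + 672 - 96 * 2 + κ) := by
      apply mul_le_mul_of_nonneg_left _ (by linarith)
      have := sq_nonneg (12 * y - ((42 - 12 * 2) * (11 + t + 1) + 192 - 6 * 2))
      nlinarith
    rw [← le_sub_iff_add_le, abs_le]
    constructor
    · nlinarith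
    · nlinarith
  · rw [G_x, Eb3]
    have up : 3 * (11 + t + 1) * (6 * (-y) ^ 2 + ((42 - 12 * 3) * (11 + t + 1) + 192 - 6 * 3) * (-y) +
        (8 * 3 ^ 2 - 42 * 3) * (11 + t + 1) ^ 2 + (6 * 3 ^ 2 - 213 * 3 + 672) * (11 + t + 1) + 672 - 96 * 3 + κ)
        ≤ 3 * (11 + t + 1) * ((8 * 3 ^ 2 - 42 * 3) * (11 + t + 1) ^ 2 +
          (6 * 3 ^ 2 - 213 * 3 + 672) * (11 + t + 1) + 672 - 96 * 3 + 828) := by
      apply mul_le_mul_of_nonneg_left _ (by linarith)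
      have : y * (6 * y - (42 - 12 * 3) * (11 + t + 1)) ≤ 0 := mul_nonpos_of_nonneg_of_nonpos hy (by linarith)
      nlinarith
    have lo : 3 * (11 + t + 1) * (-((42 - 12 * 3) * (11 + t + 1) + 192 - 6 * 3) ^ 2 / 24 +
        (8 * 3 ^ 2 - 42 * 3) * (11 + t + 1) ^ 2 + (6 * 3 ^ 2 - 213 * 3 + 672) * (11 + t + 1) + 672 - 96 * 3 + 822)
        ≤ 3 * (11 + t + 1) * (6 * (-y) ^ 2 + ((42 - 12 * 3) * (11 + t + 1) + 192 - 6 * 3) * (-y) +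
        (8 * 3 ^ 2 - 42 * 3) * (11 + t + 1) ^ 2 + (6 * 3 ^ 2 - 213 * 3 + 672) * (11 + t + 1) + 672 - 96 * 3 + κ) := by
      apply mul_le_mul_of_nonneg_left _ (by linarith)
      have := sq_nonneg (12 * y - ((42 - 12 * 3) * (11 + t + 1) + 192 - 6 * 3))
      nlinarith
    rw [← le_sub_iff_add_le, abs_le]
    constructor
    · nlinarith
    · nlinarith

end Pool.Agent.H92.RR
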