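import Mathlib
import Pool.Agent.H92.RRineq

set_option autoImplicit false

namespace Pool.Agent.H92.RR

lemma fin1 (j m : ℕ) (hj : 1 ≤ j) (hm : 1 ≤ m) (hjm : 11 ≤ j + m) :
    Eb 1 ((j : ℚ) + m) + 8179 * m ≤ Gf 1 822 (ef 1 ((j : ℚ) + m)) j := by
  rw [Eb1]
  unfold Gf ef
  rcases lt_or_ge m 11 with h | h
  · interval_cases m
    · obtain ⟨t, rfl⟩ : ∃ t, j = 10 + t := ⟨j - 10, by omega⟩
      have h0 : (0 : ℚ) ≤ 398 * (t : ℚ) ^ 3 + 13284 * (t : ℚ) ^ 2 + 145416 * (t : ℚ) + 504728 := by positivity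
      push_cast
      linear_combination h0
    · obtain ⟨t, rfl⟩ : ∃ t, j = 9 + t := ⟨j - 9, by omega⟩
      have h0 : (0 : ℚ) ≤ 1490 * (t : ℚ) ^ 3 + 45738 * (t : ℚ) ^ 2 + 462288 * (t : ℚ) + 1510040 := by positivity
      push_cast
      linear_combination h0
    · obtain ⟨t, rfl⟩ : ∃ t, j = 8 + t := ⟨j - 8, by omega⟩
      have h0 : (0 : ℚ) ≤ 3170 * (t : ℚ) ^ 3 + 89910 * (t : ℚ) ^ 2 + 838812 * (t : ℚ) + 2531714 := by positivity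
      push_cast
      linear_combination h0
    · obtain ⟨t, rfl⟩ : ∃ t, j = 7 + t := ⟨j - 7, by omega⟩
      have h0 : (0 : ℚ) ≤ 5438 * (t : ℚ) ^ 3 + 142272 * (t : ℚ) ^ 2 + 1220052 * (t : ℚ) + 3368012 := by positivity
      push_cast
      linear_combination h0
    · obtain ⟨t, rfl⟩ : ∃ t, j = 6 + t := ⟨j - 6, by omega⟩
      have h0 : (0 : ℚ) ≤ 8294 * (t : ℚ) ^ 3 + 199296 * (t : ℚ) ^ 2 + 1559892 * (t : ℚ) + 3887756 := by positivity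
      push_cast
      linear_combination h0
    · obtain ⟨t, rfl⟩ : ∃ t, j = 5 + t := ⟨j - 5, by omega⟩
      have h0 : (0 : ℚ) ≤ 11738 * (t : ℚ) ^ 3 + 257454 * (t : ℚ) ^ 2 + 1821036 * (t : ℚ) + 4021508 := by positivity
      push_cast
      linear_combination h0
    · obtain ⟨t, rfl⟩ : ∃ t, j = 4 + t := ⟨j - 4, by omega⟩
      have h0 : (0 : ℚ) ≤ 15770 * (t : ℚ) ^ 3 + 313218 * (t : ℚ) ^ 2 + 1975008 * (t : ℚ) + 3752750 := by positivity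
      push_cast
      linear_combination h0
    · obtain ⟨t, rfl⟩ : ∃ t, j = 3 + t := ⟨j - 3, by omega⟩
      have h0 : (0 : ℚ) ≤ 20390 * (t : ℚ) ^ 3 + 363060 * (t : ℚ) ^ 2 + 2002152 * (t : ℚ) + 3109064 := by positivity
      push_cast
      linear_combination h0
    · obtain ⟨t, rfl⟩ : ∃ t, j = 2 + t := ⟨j - 2, by omega⟩
      have h0 : (0 : ℚ) ≤ 25598 * (t : ℚ) ^ 3 + 403452 * (t : ℚ) ^ 2 + 1891632 * (t : ℚ) + 2153312 := by positivity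
      push_cast
      linear_combination h0
    · obtain ⟨t, rfl⟩ : ∃ t, j = 1 + t := ⟨j - 1, by omega⟩
      have h0 : (0 : ℚ) ≤ 31394 * (t : ℚ) ^ 3 + 430866 * (t : ℚ) ^ 2 + 1641432 * (t : ℚ) + 974816 := by positivity
      push_cast
      linear_combination h0
  · obtain ⟨u, rfl⟩ : ∃ u, m = 11 + u := ⟨m - 11, by omega⟩
    obtain ⟨v, rfl⟩ : ∃ v, j = 1 + v := ⟨j - 1, by omega⟩
    have h0 : (0 : ℚ) ≤ 294 * (u : ℚ) ^ 2 * (v : ℚ) ^ 3 + 294 * (u : ℚ) ^ 3 * (v : ℚ) ^ 2 + 147/2 * (u : ℚ) ^ 4 * (v : ℚ) + 6678 * (u : ℚ) * (v : ℚ) ^ 3 + 10899 * (u : ℚ) ^ 2 * (v : ℚ) ^ 2 + 3927 * (u : ℚ) ^ 3 * (v : ℚ) + 147/2 * (u : ℚ) ^ 4 + 134847 * (u : ℚ) * (v : ℚ) ^ 2 + 156429/2 * (u : ℚ) ^ 2 * (v : ℚ) + 3561 * (u : ℚ) ^ 3 + 37778 * (v : ℚ) ^ 3 + 688167 * (u : ℚ) * (v : ℚ) + 128685/2 * (u : ℚ) ^ 2 + 555108 * (v : ℚ) ^ 2 + 504485 * (u : ℚ) + 2255238 * (v : ℚ)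 + 1418446 := by positivity
    push_cast
    linear_combination h0

lemma fin2 (j m : ℕ) (hj : 1 ≤ j) (hm : 1 ≤ m) (hjm : 11 ≤ j + m) :
    Eb 2 ((j : ℚ) + m) + 8179 * m ≤ Gf 2 822 (ef 2 ((j : ℚ) + m)) j := by
  rw [Eb2]
  unfold Gf ef
  rcases lt_or_ge m 11 with h | h
  · interval_cases m
    · obtain ⟨t, rfl⟩ : ∃ t, j = 10 + t := ⟨j - 10, by omega⟩
      have h0 : (0 : ℚ) ≤ 504 * (t : ℚ) ^ 3 + 16260 * (t : ℚ) ^ 2 + 170136 * (t : ℚ) + 556797 := by positivity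
      push_cast
      linear_combination h0
    · obtain ⟨t, rfl⟩ : ∃ t, j = 9 + t := ⟨j - 9, by omega⟩
      have h0 : (0 : ℚ) ≤ 2520 * (t : ℚ) ^ 3 + 76308 * (t : ℚ) ^ 2 + 758232 * (t : ℚ) + 2437738 := by positivity
      push_cast
      linear_combination h0
    · obtain ⟨t, rfl⟩ : ∃ t, j = 8 + t := ⟨j - 8, by omega⟩
      have h0 : (0 : ℚ) ≤ 5712 * (t : ℚ) ^ 3 + 160296 * (t : ℚ) ^ 2 + 1476036 * (t : ℚ) + 4404215 := by positivity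
      push_cast
      linear_combination h0
    · obtain ⟨t, rfl⟩ : ∃ t, j = 7 + t := ⟨j - 7, by omega⟩
      have h0 : (0 : ℚ) ≤ 10080 * (t : ℚ) ^ 3 + 261168 * (t : ℚ) ^ 2 + 2213172 * (t : ℚ) + 6046884 := by positivity
      push_cast
      linear_combination h0
    · obtain ⟨t, rfl⟩ : ∃ t, j = 6 + t := ⟨j - 6, by omega⟩
      have h0 : (0 : ℚ) ≤ 15624 * (t : ℚ) ^ 3 + 371868 * (t : ℚ) ^ 2 + 2876904 * (t : ℚ) + 7097521 := by positivity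
      push_cast
      linear_combination h0
    · obtain ⟨t, rfl⟩ : ∃ t, j = 5 + t := ⟨j - 5, by omega⟩
      have h0 : (0 : ℚ) ≤ 22344 * (t : ℚ) ^ 3 + 485340 * (t : ℚ) ^ 2 + 3392136 * (t : ℚ) + 7411382 := by positivity
      push_cast
      linear_combination h0
    · obtain ⟨t, rfl⟩ : ∃ t, j = 4 + t := ⟨j - 4, by omega⟩
      have h0 : (0 : ℚ) ≤ 30240 * (t : ℚ) ^ 3 + 594528 * (t : ℚ) ^ 2 + 3701412 * (t : ℚ) + 6949563 := by positivity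
      push_cast
      linear_combination h0
    · obtain ⟨t, rfl⟩ : ∃ t, j = 3 + t := ⟨j - 3, by omega⟩
      have h0 : (0 : ℚ) ≤ 39312 * (t : ℚ) ^ 3 + 692376 * (t : ℚ) ^ 2 + 3764916 * (t : ℚ) + 5761360 := by positivity
      push_cast
      linear_combination h0
    · obtain ⟨t, rfl⟩ : ∃ t, j = 2 + t := ⟨j - 2, by omega⟩
      have h0 : (0 : ℚ) ≤ 49560 * (t : ℚ) ^ 3 + 771828 * (t : ℚ) ^ 2 + 3560472 * (t : ℚ) + 3966629 := by positivity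
      push_cast
      linear_combination h0
    · obtain ⟨t, rfl⟩ : ∃ t, j = 1 + t := ⟨j - 1, by omega⟩
      have h0 : (0 : ℚ) ≤ 60984 * (t : ℚ) ^ 3 + 825828 * (t : ℚ) ^ 2 + 3083544 * (t : ℚ) + 1738146 := by positivity
      push_cast
      linear_combination h0
  · obtain ⟨u, rfl⟩ : ∃ u, m = 11 + u := ⟨m - 11, by omega⟩
    obtain ⟨v, rfl⟩ : ∃ v, j = 1 + v := ⟨j - 1, by omega⟩
    have h0 : (0 : ℚ) ≤ 588 * (u : ℚ) ^ 2 * (v : ℚ) ^ 3 + 588 * (u : ℚ) ^ 3 * (v : ℚ) ^ 2 + 147 * (u : ℚ) ^ 4 * (v : ℚ) + 13188 * (u : ℚ) * (v : ℚ) ^ 3 + 21546 * (u : ℚ) ^ 2 * (v : ℚ) ^ 2 + 7770 * (u : ℚ) ^ 3 * (v : ℚ) + 147 * (u : ℚ) ^ 4 + 263202 * (u : ℚ) * (v : ℚ) ^ 2 + 152799 * (u : ℚ) ^ 2 * (v : ℚ) + 6950 * (u : ℚ) ^ 3 + 73584 * (v : ℚ) ^ 3 + 1324260 * (u : ℚ) * (v : ℚ) + 121941 * (u : ℚ) ^ 2 + 1068072 * (v : ℚ) ^ 2 + 929099 * (u : ℚ) + 4262628 * (v : ℚ) + 2552107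 := by positivity
    push_cast
    linear_combination h0

lemma fin3 (j m : ℕ) (hj : 1 ≤ j) (hm : 1 ≤ m) (hjm : 11 ≤ j + m) :
    Eb 3 ((j : ℚ) + m) + 8179 * m ≤ Gf 3 822 (ef 3 ((j : ℚ) + m)) j := by
  rw [Eb3]
  unfold Gf ef
  rcases lt_or_ge m 11 with h | h
  · interval_cases m
    · obtain ⟨t, rfl⟩ : ∃ t, j = 10 + t := ⟨j - 10, by omega⟩
      have h0 : (0 : ℚ) ≤ 252 * (t : ℚ) ^ 3 + 6678 * (t : ℚ) ^ 2 + 48618 * (t : ℚ) + 42383 := by positivity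
      push_cast
      linear_combination h0
    · obtain ⟨t, rfl⟩ : ∃ t, j = 9 + t := ⟨j - 9, by omega⟩
      have h0 : (0 : ℚ) ≤ 3024 * (t : ℚ) ^ 3 + 89388 * (t : ℚ) ^ 2 + 860778 * (t : ℚ) + 2653087 := by positivity
      push_cast
      linear_combination h0
    · obtain ⟨t, rfl⟩ : ∃ t, j = 8 + t := ⟨j - 8, by omega⟩
      have h0 : (0 : ℚ) ≤ 7560 * (t : ℚ) ^ 3 + 208764 * (t : ℚ) ^ 2 + 1883178 * (t : ℚ) + 5471961 := by positivity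
      push_cast
      linear_combination h0
    · obtain ⟨t, rfl⟩ : ∃ t, j = 7 + t := ⟨j - 7, by omega⟩
      have h0 : (0 : ℚ) ≤ 13860 * (t : ℚ) ^ 3 + 354222 * (t : ℚ) ^ 2 + 2949498 * (t : ℚ) + 7876115 := by positivity
      push_cast
      linear_combination h0
    · obtain ⟨t, rfl⟩ : ∃ t, j = 6 + t := ⟨j - 6, by omega⟩
      have h0 : (0 : ℚ) ≤ 21924 * (t : ℚ) ^ 3 + 515178 * (t : ℚ) ^ 2 + 3919878 * (t : ℚ) + 9454339 := by positivity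
      push_cast
      linear_combination h0
    · obtain ⟨t, rfl⟩ : ∃ t, j = 5 + t := ⟨j - 5, by omega⟩
      have h0 : (0 : ℚ) ≤ 31752 * (t : ℚ) ^ 3 + 681048 * (t : ℚ) ^ 2 + 4680918 * (t : ℚ) + 9980643 := by positivity
      push_cast
      linear_combination h0
    · obtain ⟨t, rfl⟩ : ∃ t, j = 4 + t := ⟨j - 4, by omega⟩
      have h0 : (0 : ℚ) ≤ 43344 * (t : ℚ) ^ 3 + 841248 * (t : ℚ) ^ 2 + 5145678 * (t : ℚ) + 9387797 := by positivity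
      push_cast
      linear_combination h0
    · obtain ⟨t, rfl⟩ : ∃ t, j = 3 + t := ⟨j - 3, by omega⟩
      have h0 : (0 : ℚ) ≤ 56700 * (t : ℚ) ^ 3 + 985194 * (t : ℚ) ^ 2 + 5253678 * (t : ℚ) + 7740871 := by positivity
      push_cast
      linear_combination h0
    · obtain ⟨t, rfl⟩ : ∃ t, j = 2 + t := ⟨j - 2, by omega⟩
      have h0 : (0 : ℚ) ≤ 71820 * (t : ℚ) ^ 3 + 1102302 * (t : ℚ) ^ 2 + 4970898 * (t : ℚ) + 5210775 := by positivity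
      push_cast
      linear_combination h0
    · obtain ⟨t, rfl⟩ : ∃ t, j = 1 + t := ⟨j - 1, by omega⟩
      have h0 : (0 : ℚ) ≤ 88704 * (t : ℚ) ^ 3 + 1181988 * (t : ℚ) ^ 2 + 4289778 * (t : ℚ) + 2047799 := by positivity
      push_cast
      linear_combination h0
  · obtain ⟨u, rfl⟩ : ∃ u, m = 11 + u := ⟨m - 11, by omega⟩
    obtain ⟨v, rfl⟩ : ∃ v, j = 1 + v := ⟨j - 1, by omega⟩
    have h0 : (0 : ℚ) ≤ 882 * (u : ℚ) ^ 2 * (v : ℚ) ^ 3 + 882 * (u : ℚ) ^ 3 * (v : ℚ) ^ 2 + 441/2 * (u : ℚ) ^ 4 * (v : ℚ) + 19530 * (u : ℚ) * (v : ℚ) ^ 3 + 31941 * (u : ℚ) ^ 2 * (v : ℚ) ^ 2 + 11529 * (u : ℚ) ^ 3 * (v : ℚ) + 441/2 * (u : ℚ) ^ 4 + 384795 * (u : ℚ) * (v : ℚ) ^ 2 + 446895/2 * (u : ℚ) ^ 2 * (v : ℚ) + 10053 * (u : ℚ) ^ 3 + 107352 * (v : ℚ) ^ 3 + 1900971 * (u : ℚ) * (v : ℚ) + 337383/2 * (u : ℚ) ^ 2 + 1535724 * (v : ℚ) ^ 2 + 1216451 * (u : ℚ) + 5978610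 * (v : ℚ) + 3105391 := by positivity
    push_cast
    linear_combination h0

lemma final_ineq (S κ x : ℚ) (j m : ℕ) (hS : S = 1 ∨ S = 2 ∨ S = 3) (hκ : 822 ≤ κ) (hx : 0 ≤ x)
    (hj : 1 ≤ j) (hm : 1 ≤ m) (hjm : 11 ≤ j + m) :
    Eb S ((j : ℚ) + m) + 8179 * m ≤ Gf S κ (ef S ((j : ℚ) + m) + x) j := by
  have hj' : (1 : ℚ) ≤ j := by exact_mod_cast hj
  have hm' : (1 : ℚ) ≤ m := by exact_mod_cast hm
  have hmono : Gf S 822 (ef S ((j : ℚ) + m)) j ≤ Gf S κ (ef S ((j : ℚ) + m) + x) j := by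
    have e1 : ef S ((j : ℚ) + m) = ef S j + (7 * j * m + 7 / 2 * m ^ 2 + (7 / 2 - S) * m) := by
      unfold ef; ring
    have e2 : ef S ((j : ℚ) + m) + x = ef S j + ((7 * j * m + 7 / 2 * m ^ 2 + (7 / 2 - S) * m) + x) := by
      unfold ef; ring
    rw [e1, ← e1, e2, e1, G_x, G_x]
    have hX : 0 ≤ (7 * (j : ℚ) * m + 7 / 2 * m ^ 2 + (7 / 2 - S) * m) := by
      have : 0 ≤ (7 / 2 - S) := by rcases hS with rfl | rfl | rfl <;> norm_num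
      positivity
    have hc : 0 ≤ ((42 - 12 * S) * j + 192 - 6 * S) := by
      have h1 : 0 ≤ (42 - 12 * S) := by rcases hS with rfl | rfl | rfl <;> norm_num
      have h2 : 0 ≤ 192 - 6 * S := by rcases hS with rfl | rfl | rfl <;> norm_num
      have h3 : 0 ≤ (42 - 12 * S) * (j : ℚ) := mul_nonneg h1 (by linarith)
      linarith
    have hS0 : 0 ≤ S * (j : ℚ) := by
      have : 0 ≤ S := by rcases hS with rfl | rfl | rfl <;> norm_num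
      positivity
    apply mul_le_mul_of_nonneg_left _ hS0
    have h5 := mul_nonneg hc hx
    have h6 := mul_nonneg hX hx
    nlinarith [mul_nonneg hx hx]
  refine le_trans ?_ hmono
  rcases hS with rfl | rfl | rfl
  · exact fin1 j m hj hm hjm
  · exact fin2 j m hj hm hjm
  · exact fin3 j m hj hm hjm

end Pool.Agent.H92.RR
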