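import Mathlib

set_option autoImplicit false

namespace Pool.Agent.H92.RR

/-- coefficients of `f(q) / (1 - q^b)` -/
def conv (b : ℕ) (f : ℕ → ℤ) (n : ℕ) : ℤ := ∑ i ∈ Finset.range (n / b + 1), f (n - b * i)

lemma conv_small (b : ℕ) (f : ℕ → ℤ) (n : ℕ) (h : n < b) : conv b f n = f n := by
  unfold conv
  rw [Nat.div_eq_of_lt h]
  simp

lemma conv_add (b : ℕ) (hb : 0 < b) (f : ℕ → ℤ) (n : ℕ) :
    conv b f (n + b) = f (n + b) + conv b f n := by
  unfold conv
  have h1 : (n + b) / b + 1 = (n / b + 1) + 1 := by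
    rw [Nat.add_div_right _ hb]
  rw [h1, Finset.sum_range_succ']
  rw [add_comm]
  congr 1
  refine Finset.sum_congr rfl fun i hi => ?_
  congr 1
  have : b * (i + 1) = b * i + b := by ring
  omega

/-- one step of the table: the reversed table of `conv b f` from the values of `f` -/
def stepT (b : ℕ) (acc : List ℤ) (x : ℤ) : List ℤ := (x + acc.getD (b - 1) 0) :: acc

def revT (f : ℕ → ℤ) (N : ℕ) : List ℤ := ((List.range N).map f).reverse

lemma revT_succ (f : ℕ → ℤ) (N : ℕ) : revT f (N + 1) = f N :: revT f N := by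
  unfold revT
  simp [List.range_succ]

lemma revT_getD (f : ℕ → ℤ) (N i : ℕ) : (revT f N).getD i 0 = if i < N then f (N - 1 - i) else 0 := by
  induction N generalizing i with
  | zero => simp [revT]
  | succ N ih =>
    rw [revT_succ]
    cases i with
    | zero => simp
    | succ i =>
      simp only [List.getD_cons_succ]
      rw [ih]
      by_cases h : i < N
      · have h' : i + 1 < N + 1 := by omega
        simp only [h, h', if_true]
        congr 1
        omega
      · have h' : ¬ (i + 1 < N + 1) := by omega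
        simp only [h, h', if_false]

lemma fold_eq (b : ℕ) (hb : 0 < b) (f : ℕ → ℤ) (N : ℕ) :
    ((List.range N).map f).foldl (stepT b) [] = revT (conv b f) N := by
  induction N with
  | zero => simp [revT]
  | succ N ih =>
    rw [List.range_succ, List.map_append, List.foldl_append, ih, revT_succ]
    simp only [List.map_cons, List.map_nil, List.foldl_cons, List.foldl_nil, stepT]
    congr 1
    rw [revT_getD]
    by_cases h : N < b
    · have h' : ¬ (b - 1 < N) := by omega
      simp only [h', if_false]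
      rw [conv_small b f N h]
      ring
    · have h' : b - 1 < N := by omega
      simp only [h', if_true]
      obtain ⟨m, rfl⟩ : ∃ m, N = m + b := ⟨N - b, by omega⟩
      rw [conv_add b hb]
      congr 2
      omega

/-- table of `conv b f` from the table of `f` -/
def tab (b : ℕ) (l : List ℤ) : List ℤ := (l.foldl (stepT b) []).reverse

lemma tab_eq (b : ℕ) (hb : 0 < b) (f : ℕ → ℤ) (N : ℕ) :
    tab b ((List.range N).map f) = (List.range N).map (conv b f) := by
  unfold tab
  rw [fold_eq b hb]
  simp [revT]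

/-- quasi-periodicity -/
lemma conv_period (b L : ℕ) (hb : 0 < b) (m : ℤ) (f : ℕ → ℤ) (σ τ : ℕ → ℤ)
    (hf : ∀ n, m * f (n + L) = m * f n + σ n) (hτ : ∀ n, τ (n + b) = σ (n + b) + τ n)
    (h0 : ∀ n < b, m * conv b f (n + L) = m * conv b f n + τ n) (n : ℕ) :
    m * conv b f (n + L) = m * conv b f n + τ n := by
  induction n using Nat.strong_induction_on with
  | _ n ih =>
    rcases lt_or_ge n b with h | h
    · exact h0 n h
    · obtain ⟨k, rfl⟩ : ∃ k, n = k + b := ⟨n - b, by omega⟩
      have h1 := ih k (by omega)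
      have h2 : k + b + L = (k + L) + b := by ring
      rw [h2, conv_add b hb, conv_add b hb, hτ]
      have h3 := hf (k + b)
      have h4 : k + L + b = k + b + L := by ring
      rw [h4]
      linarith

/-- `{1,4,9,11}` -/
def f1 : ℕ → ℤ := fun _ => 1
def f4 : ℕ → ℤ := conv 4 f1
def f9 : ℕ → ℤ := conv 9 f4
def cF : ℕ → ℤ := conv 11 f9

/-- `{2,3,7,13}` -/
def g2 : ℕ → ℤ := fun n => if n % 2 = 0 then 1 else 0
def g3 : ℕ → ℤ := conv 3 g2
def g7 : ℕ → ℤ := conv 7 g3
def cG : ℕ → ℤ := conv 13 g7

def tF1 (N : ℕ) : List ℤ := (List.range N).map f1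
def tF4 (N : ℕ) : List ℤ := tab 4 (tF1 N)
def tF9 (N : ℕ) : List ℤ := tab 9 (tF4 N)
def tF (N : ℕ) : List ℤ := tab 11 (tF9 N)
def tG2 (N : ℕ) : List ℤ := (List.range N).map g2
def tG3 (N : ℕ) : List ℤ := tab 3 (tG2 N)
def tG7 (N : ℕ) : List ℤ := tab 7 (tG3 N)
def tG (N : ℕ) : List ℤ := tab 13 (tG7 N)

lemma tF4_eq (N : ℕ) : tF4 N = (List.range N).map f4 := tab_eq 4 (by norm_num) _ _
lemma tF9_eq (N : ℕ) : tF9 N = (List.range N).map f9 := by
  unfold tF9; rw [tF4_eq]; exact tab_eq 9 (by norm_num) _ _
lemma tF_eq (N : ℕ) : tF N = (List.range N).map cF := by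
  unfold tF; rw [tF9_eq]; exact tab_eq 11 (by norm_num) _ _
lemma tG3_eq (N : ℕ) : tG3 N = (List.range N).map g3 := tab_eq 3 (by norm_num) _ _
lemma tG7_eq (N : ℕ) : tG7 N = (List.range N).map g7 := by
  unfold tG7; rw [tG3_eq]; exact tab_eq 7 (by norm_num) _ _
lemma tG_eq (N : ℕ) : tG N = (List.range N).map cG := by
  unfold tG; rw [tG7_eq]; exact tab_eq 13 (by norm_num) _ _

/-- checks a property of all pairs (index, value) of a table -/
def chk (p : ℕ → ℤ → Bool) : ℕ → List ℤ → Bool
  | _, [] => true
  | i, x :: l => p i x && chk p (i + 1) l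

lemma chk_spec (p : ℕ → ℤ → Bool) (f : ℕ → ℤ) (N : ℕ) (i : ℕ)
    (h : chk p i ((List.range N).map (fun n => f (i + n))) = true) :
    ∀ n < N, p (i + n) (f (i + n)) = true := by
  induction N generalizing i with
  | zero => intro n hn; omega
  | succ N ih =>
    rw [List.range_succ_eq_map, List.map_cons, List.map_map, chk, Bool.and_eq_true] at h
    intro n hn
    cases n with
    | zero => exact h.1
    | succ n =>
      have h2 : (List.range N).map ((fun n => f (i + n)) ∘ Nat.succ)
          = (List.range N).map (fun n => f (i + 1 + n)) := by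
        apply List.map_congr_left
        intro a _
        simp only [Function.comp, Nat.succ_eq_add_one]
        congr 1; ring
      rw [h2] at h
      have h3 := ih (i + 1) h.2 n (by omega)
      have h4 : i + 1 + n = i + (n + 1) := by ring
      rwa [h4] at h3

lemma chk_spec0 (p : ℕ → ℤ → Bool) (f : ℕ → ℤ) (N : ℕ)
    (h : chk p 0 ((List.range N).map f) = true) : ∀ n < N, p n (f n) = true := by
  have := chk_spec p f N 0 (by simpa using h)
  simpa using this

end Pool.Agent.H92.RR
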