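import Mathlib
import Pool.Agent.H92.RRconv

set_option autoImplicit false
set_option maxRecDepth 100000

namespace Pool.Agent.H92.RR

lemma base_of_chk (c : ℕ → ℤ) (L b : ℕ) (τ : ℕ → ℤ)
    (h : chk (fun n x => decide (L ≤ n → 2 * x = 2 * c (n - L) + τ (n - L))) 0
      ((List.range (L + b)).map c) = true) (n : ℕ) (hn : n < b) :
    2 * c (n + L) = 2 * c n + τ n := by
  have h2 := chk_spec0 _ _ _ h (n + L) (by omega)
  simp only [decide_eq_true_eq] at h2
  have h4 := h2 (by omega)
  simpa using h4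

lemma f4_period (n : ℕ) : 2 * f4 (n + 396) = 2 * f4 n + 198 := by
  refine conv_period 4 396 (by norm_num) 2 f1 (fun _ => 0) (fun _ => 198) ?_ ?_ ?_ n
  · intro n; simp [f1]
  · intro n; simp
  · intro n hn
    refine base_of_chk f4 396 4 (fun _ => 198) ?_ n hn
    rw [← tF4_eq]
    decide +kernel

lemma f9_period (n : ℕ) : 2 * f9 (n + 396) = 2 * f9 n + (22 * (n : ℤ) + 4510) := by
  refine conv_period 9 396 (by norm_num) 2 f4 (fun _ => 198) (fun n => 22 * (n : ℤ) + 4510) ?_ ?_ ?_ n
  · intro n; exact f4_period n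
  · intro n; push_cast; ring
  · intro n hn
    refine base_of_chk f9 396 9 (fun n => 22 * (n : ℤ) + 4510) ?_ n hn
    rw [← tF9_eq]
    decide +kernel

lemma cF_period (n : ℕ) : 2 * cF (n + 396) = 2 * cF n + ((n : ℤ) ^ 2 + 421 * n + 57360) := by
  refine conv_period 11 396 (by norm_num) 2 f9 (fun n => 22 * (n : ℤ) + 4510)
    (fun n => (n : ℤ) ^ 2 + 421 * n + 57360) ?_ ?_ ?_ n
  · intro n; exact f9_period n
  · intro n; push_cast; ring
  · intro n hn
    refine base_of_chk cF 396 11 (fun n => (n : ℤ) ^ 2 + 421 * n + 57360) ?_ n hn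
    rw [← tF_eq]
    decide +kernel

lemma g3_period (n : ℕ) : 2 * g3 (n + 546) = 2 * g3 n + 182 := by
  refine conv_period 3 546 (by norm_num) 2 g2 (fun _ => 0) (fun _ => 182) ?_ ?_ ?_ n
  · intro n
    have : (n + 546) % 2 = n % 2 := by omega
    simp [g2, this]
  · intro n; simp
  · intro n hn
    refine base_of_chk g3 546 3 (fun _ => 182) ?_ n hn
    rw [← tG3_eq]
    decide +kernel

lemma g7_period (n : ℕ) : 2 * g7 (n + 546) = 2 * g7 n + (26 * (n : ℤ) + 7254) := by
  refine conv_period 7 546 (by norm_num) 2 g3 (fun _ => 182) (fun n => 26 * (n : ℤ) + 7254) ?_ ?_ ?_ n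
  · intro n; exact g3_period n
  · intro n; push_cast; ring
  · intro n hn
    refine base_of_chk g7 546 7 (fun n => 26 * (n : ℤ) + 7254) ?_ n hn
    rw [← tG7_eq]
    decide +kernel

lemma cG_period (n : ℕ) : 2 * cG (n + 546) = 2 * cG n + ((n : ℤ) ^ 2 + 571 * n + 106334) := by
  refine conv_period 13 546 (by norm_num) 2 g7 (fun n => 26 * (n : ℤ) + 7254)
    (fun n => (n : ℤ) ^ 2 + 571 * n + 106334) ?_ ?_ ?_ n
  · intro n; exact g7_period n
  · intro n; push_cast; ring
  · intro n hn
    refine base_of_chk cG 546 13 (fun n => (n : ℤ) ^ 2 + 571 * n + 106334) ?_ n hn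
    rw [← tG_eq]
    decide +kernel

/-- the main cubic polynomial -/
def q (κ n : ℤ) : ℤ := 2 * n ^ 3 + 75 * n ^ 2 + κ * n

lemma cF_small : ∀ n < 396, -1627 ≤ 4752 * cF n - q 828 n ∧ 4752 * cF n - q 828 n ≤ 6552 := by
  have h : chk (fun n x => decide (-1627 ≤ 4752 * x - q 828 n ∧ 4752 * x - q 828 n ≤ 6552)) 0
      (tF 396) = true := by decide +kernel
  rw [tF_eq] at h
  intro n hn
  simpa using chk_spec0 _ _ _ h n hn

lemma cG_small : ∀ n < 546, -1627 ≤ 6552 * cG n - q 822 n ∧ 6552 * cG n - q 822 n ≤ 6552 := by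
  have h : chk (fun n x => decide (-1627 ≤ 6552 * x - q 822 n ∧ 6552 * x - q 822 n ≤ 6552)) 0
      (tG 546) = true := by decide +kernel
  rw [tG_eq] at h
  intro n hn
  simpa using chk_spec0 _ _ _ h n hn

lemma cF_bounds (n : ℕ) : -1627 ≤ 4752 * cF n - q 828 n ∧ 4752 * cF n - q 828 n ≤ 6552 := by
  induction n using Nat.strong_induction_on with
  | _ n ih =>
    rcases lt_or_ge n 396 with h | h
    · exact cF_small n h
    · obtain ⟨k, rfl⟩ : ∃ k, n = k + 396 := ⟨n - 396, by omega⟩
      have h1 := ih k (by omega)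
      have h2 := cF_period k
      have h3 : 4752 * cF (k + 396) - q 828 ((k + 396 : ℕ) : ℤ) = 4752 * cF k - q 828 k := by
        unfold q
        push_cast
        linear_combination 2376 * h2
      rw [h3]
      exact h1

lemma cG_bounds (n : ℕ) : -1627 ≤ 6552 * cG n - q 822 n ∧ 6552 * cG n - q 822 n ≤ 6552 := by
  induction n using Nat.strong_induction_on with
  | _ n ih =>
    rcases lt_or_ge n 546 with h | h
    · exact cG_small n h
    · obtain ⟨k, rfl⟩ : ∃ k, n = k + 546 := ⟨n - 546, by omega⟩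
      have h1 := ih k (by omega)
      have h2 := cG_period k
      have h3 : 6552 * cG (k + 546) - q 822 ((k + 546 : ℕ) : ℤ) = 6552 * cG k - q 822 k := by
        unfold q
        push_cast
        linear_combination 3276 * h2
      rw [h3]
      exact h1

end Pool.Agent.H92.RR
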