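import Mathlib
import Pool.Agent.H92.RRfin
import Pool.Agent.H92.RRquasi

set_option autoImplicit false

namespace Pool.Agent.H92.RR

/-- the exponents `7 j (j+1) / 2 - j S` -/
def eN (S j : ℕ) : ℕ := 7 * j * (j + 1) / 2 - j * S

def sh (c : ℕ → ℤ) (d N : ℕ) : ℤ := if d ≤ N then c (N - d) else 0

def Dd (c : ℕ → ℤ) (S N j : ℕ) : ℤ := sh c (eN S j) N - sh c (eN S j + (2 * j + 1) * S) N

def Rf (c : ℕ → ℤ) (S N : ℕ) : ℕ → ℕ → ℤ
  | 0, _ => 0
  | m + 1, j => Dd c S N j - Rf c S N m (j + 1)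

lemma two_eN (S j : ℕ) (hS : S ≤ 6) : 2 * eN S j + 2 * (j * S) = 7 * j * (j + 1) := by
  unfold eN
  have h1 : 2 ∣ 7 * j * (j + 1) := by
    have h2 : 2 ∣ j * (j + 1) := (Nat.even_mul_succ_self j).two_dvd
    have h3 : 7 * j * (j + 1) = 7 * (j * (j + 1)) := by ring
    rw [h3]
    exact Dvd.dvd.mul_left h2 7
  have h2 : 2 * (7 * j * (j + 1) / 2) = 7 * j * (j + 1) := Nat.mul_div_cancel' h1
  have h3 : j * S ≤ 7 * j * (j + 1) / 2 := by
    rw [Nat.le_div_iff_mul_le (by norm_num)]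
    rcases Nat.eq_zero_or_pos j with h | h
    · subst h; simp
    · nlinarith
  omega

lemma eN_cast (S j : ℕ) (hS : S ≤ 6) : (eN S j : ℚ) = ef S j := by
  have h := two_eN S j hS
  have h' : (2 * (eN S j : ℚ) + 2 * (j * S)) = 7 * j * (j + 1) := by exact_mod_cast h
  unfold ef
  linarith

lemma eN_succ (S j : ℕ) (hS : S ≤ 6) : eN S (j + 1) + S = eN S j + 7 * (j + 1) := by
  have h1 := two_eN S j hS
  have h2 := two_eN S (j + 1) hS
  nlinarith

lemma eN_lt_succ (S j : ℕ) (hS : S ≤ 6) : eN S j < eN S (j + 1) := by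
  have := eN_succ S j hS
  omega

lemma eN_mono (S : ℕ) (hS : S ≤ 6) : Monotone (eN S) :=
  monotone_nat_of_le_succ fun j => (eN_lt_succ S j hS).le

lemma le_eN (S j : ℕ) (hS : S ≤ 6) : j ≤ eN S j := by
  induction j with
  | zero => simp
  | succ j ih => have := eN_lt_succ S j hS; omega

lemma Rf_zero (c : ℕ → ℤ) (S N : ℕ) (hS : S ≤ 6) (m j : ℕ) (h : N < eN S j) :
    Rf c S N m j = 0 := by
  induction m generalizing j with
  | zero => rfl
  | succ m ih =>
    have h2 := eN_lt_succ S j hS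
    rw [Rf, ih (j + 1) (by omega)]
    unfold Dd sh
    have h3 : ¬ (eN S j ≤ N) := by omega
    have h4 : ¬ (eN S j + (2 * j + 1) * S ≤ N) := by omega
    simp [h3, h4]

lemma Rf_stable (c : ℕ → ℤ) (S N : ℕ) (hS : S ≤ 6) (m k j : ℕ) (h : N < eN S (j + m)) :
    Rf c S N (m + k) j = Rf c S N m j := by
  induction m generalizing j with
  | zero =>
    rw [Nat.zero_add]
    exact (Rf_zero c S N hS k j h).trans rfl
  | succ m ih =>
    have h1 : m + 1 + k = (m + k) + 1 := by ring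
    rw [h1, Rf, Rf, ih (j + 1)]
    have : j + 1 + m = j + (m + 1) := by ring
    rwa [this]

/-- assumptions on the coefficient function -/
structure Good (c : ℕ → ℤ) (T κ : ℤ) : Prop where
  nonneg : ∀ n, 0 ≤ c n
  Tpos : 0 < T
  κlo : 822 ≤ κ
  κhi : κ ≤ 828
  bd : ∀ n : ℕ, -1627 ≤ T * c n - q κ n ∧ T * c n - q κ n ≤ 6552

lemma q_cast (κ : ℤ) (n : ℕ) : ((q κ n : ℤ) : ℚ) = qf κ n := by
  unfold q qf
  push_cast
  ring

lemma Good.bdq {c : ℕ → ℤ} {T κ : ℤ} (h : Good c T κ) (n : ℕ) :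
    -1627 ≤ (T : ℚ) * c n - qf κ n ∧ (T : ℚ) * c n - qf κ n ≤ 6552 := by
  have h1 := h.bd n
  rw [← q_cast]
  exact ⟨by exact_mod_cast h1.1, by exact_mod_cast h1.2⟩

lemma sh_of_le (c : ℕ → ℤ) {d N : ℕ} (h : d ≤ N) : sh c d N = c (N - d) := by
  simp [sh, h]

/-- difference of two values against the polynomial -/
lemma Good.diff {c : ℕ → ℤ} {T κ : ℤ} (h : Good c T κ) (a b : ℕ) :
    |(T : ℚ) * ((c a : ℚ) - c b) - (qf κ a - qf κ b)| ≤ 8179 := by
  have h1 := h.bdq a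
  have h2 := h.bdq b
  rw [abs_le]
  constructor <;> linarith [h1.1, h1.2, h2.1, h2.2]

lemma D_full {c : ℕ → ℤ} {T κ : ℤ} (h : Good c T κ) (S N i : ℕ) (hS6 : S ≤ 6)
    (hi : eN S i + (2 * i + 1) * S ≤ N) :
    |(T : ℚ) * Dd c S N i - (Gf S κ N i + Gf S κ N (i + 1))| ≤ 8179 := by
  have h1 := h.diff (N - eN S i) (N - (eN S i + (2 * i + 1) * S))
  have hi' : eN S i ≤ N := by omega
  unfold Dd
  rw [sh_of_le c hi', sh_of_le c hi, G_rec]
  have e1 : ((N - eN S i : ℕ) : ℚ) = (N : ℚ) - ef S i := by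
    rw [Nat.cast_sub hi', eN_cast S i hS6]
  have e2 : ((N - (eN S i + (2 * i + 1) * S) : ℕ) : ℚ) = (N : ℚ) - ef S i - (2 * i + 1) * S := by
    rw [Nat.cast_sub hi]
    push_cast
    rw [eN_cast S i hS6]
    ring
  rw [e1, e2] at h1
  push_cast
  exact h1

lemma base_bound {c : ℕ → ℤ} {T κ : ℤ} (h : Good c T κ) (S N J : ℕ) (hS : S = 1 ∨ S = 2 ∨ S = 3)
    (hJ : 11 ≤ J) (hN : eN S J ≤ N) (hN' : N < eN S (J + 1)) :
    |(T : ℚ) * Rf c S N 1 J - Gf S κ N J| ≤ Eb S J := by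
  have hS6 : S ≤ 6 := by rcases hS with rfl | rfl | rfl <;> norm_num
  have hSq : (S : ℚ) = 1 ∨ (S : ℚ) = 2 ∨ (S : ℚ) = 3 := by
    rcases hS with rfl | rfl | rfl <;> norm_num
  have hκ1 : (822 : ℚ) ≤ κ := by exact_mod_cast h.κlo
  have hκ2 : (κ : ℚ) ≤ 828 := by exact_mod_cast h.κhi
  have hJq : (11 : ℚ) ≤ J := by exact_mod_cast hJ
  have hR : Rf c S N 1 J = Dd c S N J := by
    rw [Rf, Rf]; ring
  rw [hR]
  rcases lt_or_ge N (eN S J + (2 * J + 1) * S) with hlt | hge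
  · -- partial block
    have hD : Dd c S N J = c (N - eN S J) := by
      unfold Dd
      rw [sh_of_le c hN]
      have : ¬ (eN S J + (2 * J + 1) * S ≤ N) := by omega
      simp [sh, this]
    rw [hD]
    obtain ⟨x, hx⟩ : ∃ x, N = eN S J + x := ⟨N - eN S J, by omega⟩
    have hx' : N - eN S J = x := by omega
    rw [hx']
    have hNq : (N : ℚ) = ef S J + x := by
      rw [hx]; push_cast; rw [eN_cast S J hS6]
    rw [hNq]
    have hxw : (x : ℚ) ≤ (2 * J + 1) * S := by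
      have : x ≤ (2 * J + 1) * S := by omega
      exact_mod_cast this
    have hb := h.bdq x
    have hTc : (0 : ℚ) ≤ T * c x := by
      have := mul_nonneg h.Tpos.le (h.nonneg x)
      exact_mod_cast this
    rw [abs_le]
    exact ⟨case1_lower S κ J x _ hSq hκ1 hκ2 hJq (by positivity) hxw hTc,
      case1_upper S κ J x _ hSq hκ1 hκ2 hJq (by positivity) hxw (by linarith [hb.2])⟩
  · -- full block
    have h1 := D_full h S N J hS6 hge
    have hs := eN_succ S J hS6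
    obtain ⟨y, hy⟩ : ∃ y, eN S (J + 1) = N + y := ⟨eN S (J + 1) - N, by omega⟩
    have hNq : (N : ℚ) = ef S ((J : ℚ) + 1) + (-(y : ℚ)) := by
      have h2 : ((eN S (J + 1) : ℕ) : ℚ) = ef S ((J : ℚ) + 1) := by
        rw [eN_cast S (J + 1) hS6]; push_cast; ring_nf
      rw [← h2, hy]; push_cast; ring
    have hyw : (y : ℚ) ≤ (7 - 2 * S) * (J + 1) := by
      have h3 : y + (2 * J + 1) * S + S ≤ 7 * (J + 1) := by omega
      have h4 : (y : ℚ) + (2 * J + 1) * S + S ≤ 7 * (J + 1) := by exact_mod_cast h3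
      linarith
    have h2 := case2_bound S κ J y hSq hκ1 hκ2 hJq (by positivity) hyw
    rw [← hNq] at h2
    have h3 : (T : ℚ) * Dd c S N J - Gf S κ N J
        = ((T : ℚ) * Dd c S N J - (Gf S κ N J + Gf S κ N (J + 1))) + Gf S κ N (J + 1) := by ring
    rw [h3]
    refine (abs_add_le _ _).trans ?_
    linarith

lemma tail_bound {c : ℕ → ℤ} {T κ : ℤ} (h : Good c T κ) (S N J : ℕ) (hS : S = 1 ∨ S = 2 ∨ S = 3)
    (hJ : 11 ≤ J) (hN : eN S J ≤ N) (hN' : N < eN S (J + 1)) (m j : ℕ) (hjm : j + m = J) :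
    |(T : ℚ) * Rf c S N (m + 1) j - Gf S κ N j| ≤ Eb S J + 8179 * m := by
  have hS6 : S ≤ 6 := by rcases hS with rfl | rfl | rfl <;> norm_num
  induction m generalizing j with
  | zero =>
    have : j = J := by omega
    subst this
    simpa using base_bound h S N j hS hJ hN hN'
  | succ m ih =>
    have h1 := ih (j + 1) (by omega)
    have hle : eN S j + (2 * j + 1) * S ≤ N := by
      have h2 := eN_succ S j hS6
      have h3 : eN S (j + 1) ≤ eN S J := eN_mono S hS6 (by omega)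
      have h4 : (2 * j + 1) * S + S ≤ 7 * (j + 1) := by
        rcases hS with rfl | rfl | rfl <;> omega
      omega
    have h2 := D_full h S N j hS6 hle
    have h3 : Rf c S N (m + 1 + 1) j = Dd c S N j - Rf c S N (m + 1) (j + 1) := rfl
    rw [h3]
    have h4 : (T : ℚ) * ((Dd c S N j - Rf c S N (m + 1) (j + 1) : ℤ) : ℚ) - Gf S κ N j
        = ((T : ℚ) * Dd c S N j - (Gf S κ N j + Gf S κ N (j + 1)))
          - ((T : ℚ) * Rf c S N (m + 1) (j + 1) - Gf S κ N ((j + 1 : ℕ) : ℚ)) := by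
      push_cast; ring
    rw [h4]
    refine (abs_sub _ _).trans ?_
    push_cast
    push_cast at h1
    linarith

lemma q_super {κ : ℚ} (hκ : 0 ≤ κ) {a w : ℚ} (ha : 0 ≤ a) (hw : 0 ≤ w) :
    qf κ a + qf κ w ≤ qf κ (a + w) := by
  unfold qf
  have h1 : 0 ≤ a * w := mul_nonneg ha hw
  have h2 : 0 ≤ a * w * a := mul_nonneg h1 ha
  have h3 : 0 ≤ a * w * w := mul_nonneg h1 hw
  nlinarith

theorem main_large {c : ℕ → ℤ} {T κ : ℤ} (h : Good c T κ) (S N J : ℕ) (hS : S = 1 ∨ S = 2 ∨ S = 3)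
    (hJ : 11 ≤ J) (hN : eN S J ≤ N) (hN' : N < eN S (J + 1)) (m j : ℕ) (hjm : j + m = J)
    (hj : 1 ≤ j) : 0 ≤ Rf c S N (m + 1) j := by
  have hS6 : S ≤ 6 := by rcases hS with rfl | rfl | rfl <;> norm_num
  have hSq : (S : ℚ) = 1 ∨ (S : ℚ) = 2 ∨ (S : ℚ) = 3 := by
    rcases hS with rfl | rfl | rfl <;> norm_num
  have hκ1 : (822 : ℚ) ≤ κ := by exact_mod_cast h.κlo
  have hT : (0 : ℚ) < T := by exact_mod_cast h.Tpos
  rcases Nat.eq_zero_or_pos m with hm | hm
  · -- the last block alone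
    subst hm
    have hjJ : j = J := by omega
    subst hjJ
    have hR : Rf c S N (0 + 1) j = Dd c S N j := by
      rw [Rf, Rf]; ring
    rw [hR]
    rcases lt_or_ge N (eN S j + (2 * j + 1) * S) with hlt | hge
    · have hD : Dd c S N j = c (N - eN S j) := by
        unfold Dd
        rw [sh_of_le c hN]
        have : ¬ (eN S j + (2 * j + 1) * S ≤ N) := by omega
        simp [sh, this]
      rw [hD]
      exact h.nonneg _
    · unfold Dd
      rw [sh_of_le c hN, sh_of_le c hge]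
      have h1 := (abs_le.1 (h.diff (N - eN S j) (N - (eN S j + (2 * j + 1) * S)))).1
      have e1 : ((N - eN S j : ℕ) : ℚ) = ((N - (eN S j + (2 * j + 1) * S) : ℕ) : ℚ) + (2 * j + 1) * S := by
        have : N - eN S j = (N - (eN S j + (2 * j + 1) * S)) + (2 * j + 1) * S := by omega
        rw [this]; push_cast; ring
      rw [e1] at h1
      have hw : (23 : ℚ) ≤ (2 * j + 1) * S := by
        have : 23 ≤ (2 * j + 1) * S := by
          rcases hS with rfl | rfl | rfl <;> omega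
        exact_mod_cast this
      have h2 := q_super (κ := κ) (by linarith)
        (a := ((N - (eN S j + (2 * j + 1) * S) : ℕ) : ℚ)) (by positivity)
        (w := (2 * j + 1) * S) (by linarith)
      have h3 : qf κ 23 ≤ qf κ ((2 * j + 1) * S) := qf_mono (by linarith) (by norm_num) hw
      have h4 : (82915 : ℚ) ≤ qf κ 23 := by unfold qf; linarith
      have h5 : 0 ≤ (T : ℚ) * ((c (N - eN S j) : ℚ) - c (N - (eN S j + (2 * j + 1) * S))) := by
        linarith
      have h6 : (0 : ℚ) ≤ (c (N - eN S j) : ℚ) - c (N - (eN S j + (2 * j + 1) * S)) :=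
        nonneg_of_mul_nonneg_right h5 hT
      exact_mod_cast h6
  · have h1 := (abs_le.1 (tail_bound h S N J hS hJ hN hN' m j hjm)).1
    obtain ⟨x, hx⟩ : ∃ x, N = eN S J + x := ⟨N - eN S J, by omega⟩
    have hJq : (J : ℚ) = (j : ℚ) + m := by rw [← hjm]; push_cast; ring
    have hNq : (N : ℚ) = ef S ((j : ℚ) + m) + x := by
      rw [hx]; push_cast; rw [eN_cast S J hS6, hJq]
    have h2 := final_ineq S κ x j m hSq hκ1 (by positivity) hj hm (by omega)
    rw [← hNq, ← hJq] at h2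
    have h5 : 0 ≤ (T : ℚ) * Rf c S N (m + 1) j := by linarith
    have h6 : (0 : ℚ) ≤ Rf c S N (m + 1) j := nonneg_of_mul_nonneg_right h5 hT
    exact_mod_cast h6

end Pool.Agent.H92.RR
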