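import Mathlib
import Pool.Agent.H92.RRmain

set_option autoImplicit false
set_option maxRecDepth 100000

namespace Pool.Agent.H92.RR

def shL (d : ℕ) (l : List ℤ) : List ℤ := (List.replicate d 0 ++ l).take l.length

def subL (l l' : List ℤ) : List ℤ := List.zipWith (fun a b => a - b) l l'

def RL (S : ℕ) (l : List ℤ) : ℕ → ℕ → List ℤ
  | 0, _ => l.map (fun _ => 0)
  | m + 1, j => subL (subL (shL (eN S j) l) (shL (eN S j + (2 * j + 1) * S) l)) (RL S l m (j + 1))

lemma shL_eq (c : ℕ → ℤ) (d M : ℕ) :
    shL d ((List.range M).map c) = (List.range M).map (sh c d) := by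
  unfold shL
  apply List.ext_getElem
  · simp
  · intro n h1 h2
    simp only [List.length_take, List.length_append, List.length_replicate, List.length_map,
      List.length_range, lt_min_iff] at h1
    rw [List.getElem_take, List.getElem_map, List.getElem_range]
    unfold sh
    by_cases h : d ≤ n
    · rw [List.getElem_append_right (by simpa using h)]
      simp [h]
    · rw [List.getElem_append_left (by simpa using h)]
      simp [h]

lemma subL_eq (f g : ℕ → ℤ) (M : ℕ) :
    subL ((List.range M).map f) ((List.range M).map g) = (List.range M).map (fun n => f n - g n) := by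
  unfold subL
  apply List.ext_getElem
  · simp
  · intro n h1 h2
    simp

lemma RL_eq (c : ℕ → ℤ) (S M m j : ℕ) :
    RL S ((List.range M).map c) m j = (List.range M).map (fun N => Rf c S N m j) := by
  induction m generalizing j with
  | zero =>
    rw [RL, List.map_map]
    rfl
  | succ m ih =>
    rw [RL, ih, shL_eq, shL_eq, subL_eq, subL_eq]
    rfl

def allNonneg (l : List ℤ) : Bool := l.all (fun x => decide (0 ≤ x))

def checkAll (l : List ℤ) : Bool :=
  (List.range 6).all fun s => (List.range 11).all fun j => allNonneg (RL (s + 1) l (11 - j) (j + 1))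

lemma checkAll_spec (c : ℕ → ℤ) (M : ℕ) (h : checkAll ((List.range M).map c) = true)
    (S j N : ℕ) (hS1 : 1 ≤ S) (hS6 : S ≤ 6) (hj1 : 1 ≤ j) (hj : j ≤ 11) (hN : N < M) :
    0 ≤ Rf c S N (12 - j) j := by
  unfold checkAll at h
  rw [List.all_eq_true] at h
  have h1 := h (S - 1) (by simp; omega)
  rw [List.all_eq_true] at h1
  have h2 := h1 (j - 1) (by simp; omega)
  have e1 : S - 1 + 1 = S := by omega
  have e2 : j - 1 + 1 = j := by omega
  have e3 : 11 - (j - 1) = 12 - j := by omega
  rw [e1, e2, e3, RL_eq] at h2
  unfold allNonneg at h2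
  rw [List.all_eq_true] at h2
  have h3 := h2 (Rf c S N (12 - j) j) (by
    rw [List.mem_map]
    exact ⟨N, by simpa using hN, rfl⟩)
  simpa using h3

lemma checkF : checkAll ((List.range 451).map cF) = true := by
  rw [← tF_eq]
  decide +kernel

lemma checkG : checkAll ((List.range 451).map cG) = true := by
  rw [← tG_eq]
  decide +kernel

end Pool.Agent.H92.RR
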