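import Mathlib
import Pool.Agent.H92.RRcheck

set_option autoImplicit false
set_option maxRecDepth 100000

namespace Pool.Agent.H92.RR

lemma conv_nonneg (b : ℕ) (f : ℕ → ℤ) (hf : ∀ n, 0 ≤ f n) (n : ℕ) : 0 ≤ conv b f n :=
  Finset.sum_nonneg fun _ _ => hf _

lemma cF_nonneg (n : ℕ) : 0 ≤ cF n :=
  conv_nonneg _ _ (conv_nonneg _ _ (conv_nonneg _ _ fun _ => by simp [f1])) n

lemma cG_nonneg (n : ℕ) : 0 ≤ cG n :=
  conv_nonneg _ _ (conv_nonneg _ _ (conv_nonneg _ _ fun n => by unfold g2; split_ifs <;> norm_num)) n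

lemma goodF : Good cF 4752 828 where
  nonneg := cF_nonneg
  Tpos := by norm_num
  κlo := by norm_num
  κhi := by norm_num
  bd := cF_bounds

lemma goodG : Good cG 6552 822 where
  nonneg := cG_nonneg
  Tpos := by norm_num
  κlo := by norm_num
  κhi := by norm_num
  bd := cG_bounds

lemma Good.mono_large {c : ℕ → ℤ} {T κ : ℤ} (h : Good c T κ) (n : ℕ) (hn : 25 ≤ n) :
    c n ≤ c (n + 1) := by
  have h1 := (h.bd (n + 1)).1
  have h2 := (h.bd n).2
  have h3 := h.κlo
  have h4 := h.Tpos
  by_contra hlt
  push Not at hlt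
  have h5 : c (n + 1) + 1 ≤ c n := hlt
  have h6 : T * (c (n + 1) + 1) ≤ T * c n := mul_le_mul_of_nonneg_left h5 h4.le
  have hn' : (25 : ℤ) ≤ n := by exact_mod_cast hn
  unfold q at h1 h2
  push_cast at h1
  nlinarith

/-- all we need of the coefficient function -/
structure Good2 (c : ℕ → ℤ) (T κ : ℤ) : Prop extends Good c T κ where
  mono : ∀ n, 1 ≤ n → c n ≤ c (n + 1)
  zero_two : c 0 ≤ c 2
  chk : checkAll ((List.range 451).map c) = true

lemma good2F : Good2 cF 4752 828 where
  toGood := goodF
  mono := by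
    intro n hn
    rcases lt_or_ge n 25 with h | h
    · have h1 : ∀ n < 25, cF n ≤ cF (n + 1) := by decide +kernel
      exact h1 n h
    · exact goodF.mono_large n h
  zero_two := by decide +kernel
  chk := checkF

lemma good2G : Good2 cG 6552 822 where
  toGood := goodG
  mono := by
    intro n hn
    rcases lt_or_ge n 25 with h | h
    · have h1 : ∀ n < 25, 1 ≤ n → cG n ≤ cG (n + 1) := by decide +kernel
      exact h1 n h hn
    · exact goodG.mono_large n h
  zero_two := by decide +kernel
  chk := checkG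

lemma Good2.mono' {c : ℕ → ℤ} {T κ : ℤ} (h : Good2 c T κ) (b a : ℕ) (hb : 1 ≤ b) (hab : b ≤ a) :
    c b ≤ c a := by
  induction a, hab using Nat.le_induction with
  | base => exact le_refl _
  | succ a ha ih => exact ih.trans (h.mono a (by omega))

lemma Good2.zero_le {c : ℕ → ℤ} {T κ : ℤ} (h : Good2 c T κ) (a : ℕ) (ha : 2 ≤ a) : c 0 ≤ c a :=
  h.zero_two.trans (h.mono' 2 a (by norm_num) ha)

/-- for `S ≤ 3` -/
lemma small_S {c : ℕ → ℤ} {T κ : ℤ} (h : Good2 c T κ) (S N k m : ℕ) (hS : S = 1 ∨ S = 2 ∨ S = 3)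
    (hN : 451 ≤ N) (hk : 1 ≤ k) (hm : N < eN S (k + m)) : 0 ≤ Rf c S N m k := by
  have hS6 : S ≤ 6 := by rcases hS with rfl | rfl | rfl <;> norm_num
  rcases lt_or_ge N (eN S k) with hlt | hge
  · rw [Rf_zero c S N hS6 m k hlt]
  -- the last index `J`
  obtain ⟨J, hJ1, hJ2⟩ : ∃ J, eN S J ≤ N ∧ N < eN S (J + 1) := by
    have hex : ∃ J, N < eN S J := ⟨k + m, hm⟩
    classical
    have hmin := Nat.find_spec hex
    have hpos : Nat.find hex ≠ 0 := by
      intro h0
      rw [h0] at hmin
      have : eN S 0 = 0 := by simp [eN]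
      omega
    obtain ⟨J, hJ⟩ := Nat.exists_eq_succ_of_ne_zero hpos
    refine ⟨J, ?_, ?_⟩
    · have := Nat.find_min hex (m := J) (by omega)
      omega
    · rw [← Nat.succ_eq_add_one, ← hJ]; exact hmin
  have hkJ : k ≤ J := by
    by_contra hc
    have : eN S (J + 1) ≤ eN S k := eN_mono S hS6 (by omega)
    omega
  have hJ11 : 11 ≤ J := by
    by_contra hc
    have h1 : eN S (J + 1) ≤ eN S 11 := eN_mono S hS6 (by omega)
    have h2 : eN S 11 ≤ 451 := by
      rcases hS with rfl | rfl | rfl <;> decide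
    omega
  have hJm : J + 1 ≤ k + m := by
    by_contra hc
    have : eN S (k + m) ≤ eN S J := eN_mono S hS6 (by omega)
    omega
  obtain ⟨i, hi⟩ : ∃ i, m = (J - k + 1) + i := ⟨m - (J - k + 1), by omega⟩
  rw [hi, Rf_stable c S N hS6 (J - k + 1) i k (by
    have : k + (J - k + 1) = J + 1 := by omega
    rw [this]; exact hJ2)]
  exact main_large h.toGood S N J hS hJ11 hJ1 hJ2 (J - k) k (by omega) hk

lemma finite_part {c : ℕ → ℤ} {T κ : ℤ} (h : Good2 c T κ) (S N k m : ℕ) (hS1 : 1 ≤ S) (hS6 : S ≤ 6)
    (hN : N < 451) (hk : 1 ≤ k) (hm : N < eN S (k + m)) : 0 ≤ Rf c S N m k := by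
  rcases lt_or_ge N (eN S k) with hlt | hge
  · rw [Rf_zero c S N hS6 m k hlt]
  have h12 : 451 ≤ eN S 12 := by
    interval_cases S <;> decide
  have hk11 : k ≤ 11 := by
    by_contra hc
    have : eN S 12 ≤ eN S k := eN_mono S hS6 (by omega)
    omega
  have h1 := checkAll_spec c 451 h.chk S k N hS1 hS6 hk hk11 hN
  have h2 : Rf c S N (12 - k) k = Rf c S N (max m (12 - k)) k := by
    obtain ⟨i, hi⟩ : ∃ i, max m (12 - k) = (12 - k) + i := ⟨max m (12 - k) - (12 - k), by omega⟩
    rw [hi, Rf_stable c S N hS6 (12 - k) i k (by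
      have : k + (12 - k) = 12 := by omega
      rw [this]; omega)]
  have h3 : Rf c S N m k = Rf c S N (max m (12 - k)) k := by
    obtain ⟨i, hi⟩ : ∃ i, max m (12 - k) = m + i := ⟨max m (12 - k) - m, by omega⟩
    rw [hi, Rf_stable c S N hS6 m i k hm]
  rw [h3, ← h2]
  exact h1

/-- the reflection `S ↦ 7 - S` -/
lemma reflect (c : ℕ → ℤ) (S S' N : ℕ) (hS : S ≤ 6) (hS' : S' ≤ 6) (hsum : S + S' = 7) (m k : ℕ) :
    Rf c S N m k - Rf c S' N m k =
      (sh c (eN S k) N - sh c (eN S' k) N) -
      (-1) ^ m * (sh c (eN S (k + m)) N - sh c (eN S' (k + m)) N) := by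
  have key : ∀ j, eN S j + (2 * j + 1) * S = eN S' (j + 1) := by
    intro j
    have h1 := two_eN S j hS
    have h2 := two_eN S' (j + 1) hS'
    have h3 : S' = 7 - S := by omega
    obtain ⟨d, hd⟩ : ∃ d, 7 = S + d := ⟨7 - S, by omega⟩
    have : S' = d := by omega
    subst this
    nlinarith
  have key' : ∀ j, eN S' j + (2 * j + 1) * S' = eN S (j + 1) := by
    intro j
    have h1 := two_eN S' j hS'
    have h2 := two_eN S (j + 1) hS
    nlinarith
  induction m generalizing k with
  | zero => simp [Rf]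
  | succ m ih =>
    have h1 := ih (k + 1)
    rw [Rf, Rf]
    unfold Dd
    rw [key k, key' k]
    have e : k + 1 + m = k + (m + 1) := by ring
    rw [e] at h1
    rw [pow_succ]
    linear_combination -h1

theorem R_nonneg {c : ℕ → ℤ} {T κ : ℤ} (h : Good2 c T κ) (S N k m : ℕ) (hS1 : 1 ≤ S) (hS6 : S ≤ 6)
    (hk : 1 ≤ k) (hm : ∀ S' ≤ 6, N < eN S' (k + m)) : 0 ≤ Rf c S N m k := by
  rcases lt_or_ge N 451 with hN | hN
  · exact finite_part h S N k m hS1 hS6 hN hk (hm S hS6)
  rcases lt_or_ge S 4 with hS | hS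
  · exact small_S h S N k m (by omega) hN hk (hm S hS6)
  · -- reflect
    have h1 := small_S h (7 - S) N k m (by omega) hN hk (hm _ (by omega))
    have h2 := reflect c S (7 - S) N hS6 (by omega) (by omega) m k
    have h3 : sh c (eN S (k + m)) N = 0 := by
      have := hm S hS6
      unfold sh
      rw [if_neg (by omega)]
    have h4 : sh c (eN (7 - S) (k + m)) N = 0 := by
      have := hm (7 - S) (by omega)
      unfold sh
      rw [if_neg (by omega)]
    rw [h3, h4] at h2
    have h5 : 0 ≤ sh c (eN S k) N - sh c (eN (7 - S) k) N := by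
      have e1 := two_eN S k hS6
      have e2 := two_eN (7 - S) k (by omega)
      have e3 : eN S k + k * S = eN (7 - S) k + k * (7 - S) := by
        have : 2 * (k * (7 - S)) = 2 * (k * (7 - S)) := rfl
        omega
      have hkS : k * (7 - S) + k ≤ k * S := by
        have : k * (7 - S) + k = k * (7 - S + 1) := by ring
        rw [this]
        exact Nat.mul_le_mul_left k (by omega)
      unfold sh
      split_ifs with ha hb hb
      · -- both present
        have hab : N - eN (7 - S) k + 1 ≤ N - eN S k := by omega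
        rcases Nat.eq_zero_or_pos (N - eN (7 - S) k) with h0 | h0
        · rcases lt_or_ge (N - eN S k) 2 with h2' | h2'
          · exfalso
            -- then `k = 1` and `N = 4`
            have hd : k * S = k * (7 - S) + 1 := by omega
            have hk1 : k = 1 := by
              have : k * (7 - S) + k ≤ k * (7 - S) + 1 := by omega
              omega
            subst hk1
            have : S = 4 := by omega
            subst this
            have : eN 3 1 = 4 := by decide
            have h7 : 7 - 4 = 3 := rfl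
            rw [h7] at h0 hb
            omega
          · rw [h0]
            have := h.zero_le _ h2'
            linarith
        · have := h.mono' (N - eN (7 - S) k) (N - eN S k) h0 (by omega)
          linarith
      · have := h.nonneg (N - eN S k)
        linarith
      · exfalso; omega
      · simp
    have h6 : Rf c S N m k = Rf c (7 - S) N m k + (sh c (eN S k) N - sh c (eN (7 - S) k) N) := by
      linear_combination h2
    rw [h6]
    linarith

end Pool.Agent.H92.RR
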