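import Mathlib
import Pool.Agent.H92.RRall

set_option autoImplicit false

open PowerSeries Filter
open scoped PowerSeries.WithPiTopology Topology

namespace Pool.Agent.H92.RR

/-- `T_{k,S}(q) = ∑_{j ≥ k} (-1)^j q^(7j(j+1)/2 - jS) (1 - q^((2j+1)S))` -/
noncomputable def thetaTail (k S : ℕ) : ℚ⟦X⟧ :=
  ∑' i : ℕ, (-1) ^ (k + i) * X ^ (7 * (k + i) * (k + i + 1) / 2 - (k + i) * S) *
    (1 - X ^ ((2 * (k + i) + 1) * S))

/-- `(q^a, q^b; q^5)_∞` -/
noncomputable def poch (a b : ℕ) : ℚ⟦X⟧ :=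
  ∏' i : ℕ, (1 - X ^ (5 * i + a)) * (1 - X ^ (5 * i + b))

/-! ### congruences -/

def Cong (N : ℕ) (A B : ℚ⟦X⟧) : Prop := X ^ N ∣ A - B

lemma cong_iff (N : ℕ) (A B : ℚ⟦X⟧) : Cong N A B ↔ ∀ m < N, coeff m A = coeff m B := by
  unfold Cong
  rw [X_pow_dvd_iff]
  constructor
  · intro h m hm
    have := h m hm
    rw [map_sub] at this
    exact sub_eq_zero.1 this
  · intro h m hm
    rw [map_sub, h m hm, sub_self]

lemma Cong.mul {N : ℕ} {A B A' B' : ℚ⟦X⟧} (h : Cong N A A') (h' : Cong N B B') :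
    Cong N (A * B) (A' * B') := by
  unfold Cong at *
  have : A * B - A' * B' = (A - A') * B + A' * (B - B') := by ring
  rw [this]
  exact dvd_add (Dvd.dvd.mul_right h _) (Dvd.dvd.mul_left h' _)

lemma Cong.inv {N : ℕ} {A B : ℚ⟦X⟧} (h : Cong N A B) (hA : constantCoeff A ≠ 0)
    (hB : constantCoeff B ≠ 0) : Cong N A⁻¹ B⁻¹ := by
  unfold Cong at *
  have h1 : A * A⁻¹ = 1 := PowerSeries.mul_inv_cancel A hA
  have h2 : B * B⁻¹ = 1 := PowerSeries.mul_inv_cancel B hB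
  have : A⁻¹ - B⁻¹ = -(A⁻¹ * B⁻¹ * (A - B)) := by
    have e1 : A⁻¹ * B⁻¹ * (A - B) = (A * A⁻¹) * B⁻¹ - (B * B⁻¹) * A⁻¹ := by ring
    rw [e1, h1, h2]; ring
  rw [this]
  exact (Dvd.dvd.mul_left h _).neg_right

lemma Cong.refl' (N : ℕ) (A : ℚ⟦X⟧) : Cong N A A := by
  unfold Cong; simp

/-! ### the infinite product -/

noncomputable def fac (a b i : ℕ) : ℚ⟦X⟧ := (1 - X ^ (5 * i + a)) * (1 - X ^ (5 * i + b))

lemma multipliable_fac (a b : ℕ) : Multipliable (fac a b) := by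
  have h : fac a b = fun i => 1 + (fac a b i - 1) := by funext i; ring
  rw [h]
  apply WithPiTopology.multipliable_one_add_of_tendsto_order_atTop_nhds_top
  refine ENat.tendsto_nhds_top_iff_natCast_lt.mpr (fun n ↦ Filter.eventually_atTop.mpr ⟨n + 1, ?_⟩)
  intro m hm
  have h1 : (X : ℚ⟦X⟧) ^ m ∣ fac a b m - 1 := by
    have h2 : fac a b m - 1 = X ^ m * (-(X ^ (4 * m + a)) - X ^ (4 * m + b)
        + X ^ (4 * m + a) * X ^ (5 * m + b)) := by
      unfold fac
      ring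
    rw [h2]
    exact dvd_mul_right _ _
  have h3 : (m : ℕ∞) ≤ (fac a b m - 1).order := by
    apply PowerSeries.le_order
    intro i hi
    exact (X_pow_dvd_iff.1 h1) i (by exact_mod_cast hi)
  refine lt_of_lt_of_le ?_ h3
  exact_mod_cast hm

lemma coeff_partial (a b M n : ℕ) (hn : n < M) (k : ℕ) :
    coeff n (∏ i ∈ Finset.range (M + k), fac a b i) = coeff n (∏ i ∈ Finset.range M, fac a b i) := by
  induction k with
  | zero => rfl
  | succ k ih =>
    rw [← ih, ← add_assoc, Finset.prod_range_succ]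
    have h1 : Cong (n + 1) (fac a b (M + k)) 1 := by
      unfold Cong fac
      have h2 : (1 - X ^ (5 * (M + k) + a)) * (1 - X ^ (5 * (M + k) + b)) - 1
          = (X : ℚ⟦X⟧) ^ (M + k) * (-(X ^ (4 * (M + k) + a)) - X ^ (4 * (M + k) + b)
            + X ^ (4 * (M + k) + a) * X ^ (5 * (M + k) + b)) := by ring
      rw [h2]
      exact Dvd.dvd.mul_right (pow_dvd_pow X (by omega)) _
    have h2 := (Cong.refl' (n + 1) (∏ i ∈ Finset.range (M + k), fac a b i)).mul h1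
    rw [mul_one] at h2
    exact (cong_iff _ _ _).1 h2 n (by omega)

lemma cong_poch (a b M : ℕ) : Cong M (poch a b) (∏ i ∈ Finset.range M, fac a b i) := by
  rw [cong_iff]
  intro n hn
  have hprod : HasProd (fac a b) (poch a b) := (multipliable_fac a b).hasProd
  have ht := hprod.tendsto_prod_nat
  rw [WithPiTopology.tendsto_iff_coeff_tendsto] at ht
  have ht2 := ht n
  have hc : Tendsto (fun i : ℕ => coeff n (∏ i ∈ Finset.range i, fac a b i)) atTop
      (𝓝 (coeff n (∏ i ∈ Finset.range M, fac a b i))) := by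
    apply tendsto_atTop_of_eventually_const (i₀ := M)
    intro i hi
    obtain ⟨k, rfl⟩ := Nat.exists_eq_add_of_le hi
    exact coeff_partial a b M n hn k
  exact tendsto_nhds_unique ht2 hc

/-! ### the theta tail -/

noncomputable def term (k S i : ℕ) : ℚ⟦X⟧ :=
  (-1) ^ (k + i) * X ^ (eN S (k + i)) * (1 - X ^ ((2 * (k + i) + 1) * S))

lemma term_dvd (k S i : ℕ) (hS : S ≤ 6) : (X : ℚ⟦X⟧) ^ i ∣ term k S i := by
  unfold term
  have h1 : (X : ℚ⟦X⟧) ^ i ∣ X ^ (eN S (k + i)) := pow_dvd_pow X (by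
    have := le_eN S (k + i) hS
    omega)
  exact Dvd.dvd.mul_right (Dvd.dvd.mul_left h1 _) _

lemma summable_term (k S : ℕ) (hS : S ≤ 6) : Summable (term k S) := by
  apply WithPiTopology.summable_of_tendsto_order_atTop_nhds_top
  refine ENat.tendsto_nhds_top_iff_natCast_lt.mpr (fun n ↦ Filter.eventually_atTop.mpr ⟨n + 1, ?_⟩)
  intro m hm
  have h3 : (m : ℕ∞) ≤ (term k S m).order := by
    apply PowerSeries.le_order
    intro i hi
    exact (X_pow_dvd_iff.1 (term_dvd k S m hS)) i (by exact_mod_cast hi)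
  refine lt_of_lt_of_le ?_ h3
  exact_mod_cast hm

lemma thetaTail_eq (k S : ℕ) : thetaTail k S = ∑' i, term k S i := rfl

lemma cong_theta (k S M : ℕ) (hS : S ≤ 6) :
    Cong M (thetaTail k S) (∑ i ∈ Finset.range M, term k S i) := by
  rw [cong_iff]
  intro n hn
  have hsum : HasSum (term k S) (thetaTail k S) := (summable_term k S hS).hasSum
  have ht := hsum.tendsto_sum_nat
  rw [WithPiTopology.tendsto_iff_coeff_tendsto] at ht
  have ht2 := ht n
  have hc : Tendsto (fun i : ℕ => coeff n (∑ i ∈ Finset.range i, term k S i)) atTop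
      (𝓝 (coeff n (∑ i ∈ Finset.range M, term k S i))) := by
    apply tendsto_atTop_of_eventually_const (i₀ := M)
    intro i hi
    obtain ⟨l, rfl⟩ := Nat.exists_eq_add_of_le hi
    rw [map_sum, map_sum, Finset.sum_range_add]
    have : ∑ x ∈ Finset.range l, coeff n (term k S (M + x)) = 0 := by
      apply Finset.sum_eq_zero
      intro x _
      exact (X_pow_dvd_iff.1 (term_dvd k S (M + x) hS)) n (by omega)
    rw [this, add_zero]
  exact tendsto_nhds_unique ht2 hc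

/-! ### nonnegativity -/

def NN (A : ℚ⟦X⟧) : Prop := ∀ n, 0 ≤ coeff n A

lemma NN.mul {A B : ℚ⟦X⟧} (hA : NN A) (hB : NN B) : NN (A * B) := by
  intro n
  rw [coeff_mul]
  exact Finset.sum_nonneg fun p _ => mul_nonneg (hA _) (hB _)

lemma NN_one : NN (1 : ℚ⟦X⟧) := by
  intro n
  rw [coeff_one]
  split_ifs <;> norm_num

lemma constantCoeff_one_sub (b : ℕ) (hb : 0 < b) : constantCoeff (1 - X ^ b : ℚ⟦X⟧) = 1 := by
  simp [hb.ne']

lemma NN_geom (b : ℕ) (hb : 0 < b) : NN ((1 - X ^ b : ℚ⟦X⟧)⁻¹) := by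
  set A := (1 - X ^ b : ℚ⟦X⟧)⁻¹ with hA
  have h1 : (1 - X ^ b : ℚ⟦X⟧) * A = 1 :=
    PowerSeries.mul_inv_cancel _ (by rw [constantCoeff_one_sub b hb]; norm_num)
  have h2 : A = 1 + X ^ b * A := by linear_combination h1
  intro n
  induction n using Nat.strong_induction_on with
  | _ n ih =>
    rw [h2, map_add, coeff_X_pow_mul']
    have h3 : (0 : ℚ) ≤ coeff n (1 : ℚ⟦X⟧) := NN_one n
    split_ifs with h
    · have := ih (n - b) (by omega)
      linarith
    · linarith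

lemma NN_prod {ι : Type} (s : Finset ι) (f : ι → ℚ⟦X⟧) (h : ∀ i ∈ s, NN (f i)) :
    NN (∏ i ∈ s, f i) := by
  classical
  induction s using Finset.induction_on with
  | empty => simpa using NN_one
  | insert a s ha ih =>
    rw [Finset.prod_insert ha]
    exact (h a (Finset.mem_insert_self a s)).mul (ih fun i hi => h i (Finset.mem_insert_of_mem hi))

/-! ### the generating function of `conv` -/

noncomputable def gen (f : ℕ → ℤ) : ℚ⟦X⟧ := PowerSeries.mk fun n => (f n : ℚ)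

lemma gen_conv (b : ℕ) (hb : 0 < b) (f : ℕ → ℤ) : (1 - X ^ b) * gen (conv b f) = gen f := by
  ext n
  rw [sub_mul, one_mul, map_sub, coeff_X_pow_mul']
  unfold gen
  simp only [coeff_mk]
  split_ifs with h
  · obtain ⟨m, rfl⟩ : ∃ m, n = m + b := ⟨n - b, by omega⟩
    rw [conv_add b hb]
    have : m + b - b = m := by omega
    rw [this]
    push_cast
    ring
  · rw [conv_small b f n (by omega)]
    ring

lemma gen_f1 : (1 - X ^ 1) * gen f1 = 1 := by
  ext n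
  rw [sub_mul, one_mul, map_sub, coeff_X_pow_mul']
  unfold gen f1
  rw [coeff_mk, coeff_one]
  rcases Nat.eq_zero_or_pos n with h | h
  · subst h; simp
  · have h1 : 1 ≤ n := h
    have h2 : n ≠ 0 := by omega
    simp [h1, h2]

lemma gen_g2 : (1 - X ^ 2) * gen g2 = 1 := by
  ext n
  rw [sub_mul, one_mul, map_sub, coeff_X_pow_mul']
  unfold gen g2
  simp only [coeff_mk, coeff_one]
  rcases Nat.lt_or_ge n 2 with h | h
  · interval_cases n <;> norm_num
  · have h1 : (n - 2) % 2 = n % 2 := by omega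
    have h2 : n ≠ 0 := by omega
    rw [h1]
    simp [h, h2]

lemma genF : ((1 - X ^ 1) * (1 - X ^ 4)) * ((1 - X ^ 9) * (1 - X ^ 11)) * gen cF = 1 := by
  have h1 := gen_conv 11 (by norm_num) f9
  have h2 := gen_conv 9 (by norm_num) f4
  have h3 := gen_conv 4 (by norm_num) f1
  have h4 := gen_f1
  have e1 : conv 11 f9 = cF := rfl
  have e2 : conv 9 f4 = f9 := rfl
  have e3 : conv 4 f1 = f4 := rfl
  rw [e1] at h1
  rw [e2] at h2
  rw [e3] at h3
  calc ((1 - X ^ 1) * (1 - X ^ 4)) * ((1 - X ^ 9) * (1 - X ^ 11)) * gen cF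
      = (1 - X ^ 1) * ((1 - X ^ 4) * ((1 - X ^ 9) * ((1 - X ^ 11) * gen cF))) := by ring
    _ = 1 := by rw [h1, h2, h3, h4]

lemma genG : ((1 - X ^ 2) * (1 - X ^ 3)) * ((1 - X ^ 7) * (1 - X ^ 13)) * gen cG = 1 := by
  have h1 := gen_conv 13 (by norm_num) g7
  have h2 := gen_conv 7 (by norm_num) g3
  have h3 := gen_conv 3 (by norm_num) g2
  have h4 := gen_g2
  have e1 : conv 13 g7 = cG := rfl
  have e2 : conv 7 g3 = g7 := rfl
  have e3 : conv 3 g2 = g3 := rfl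
  rw [e1] at h1
  rw [e2] at h2
  rw [e3] at h3
  calc ((1 - X ^ 2) * (1 - X ^ 3)) * ((1 - X ^ 7) * (1 - X ^ 13)) * gen cG
      = (1 - X ^ 2) * ((1 - X ^ 3) * ((1 - X ^ 7) * ((1 - X ^ 13) * gen cG))) := by ring
    _ = 1 := by rw [h1, h2, h3, h4]

lemma Rf_eq_sum (c : ℕ → ℤ) (S N M k : ℕ) :
    Rf c S N M k = ∑ i ∈ Finset.range M, (-1) ^ i * Dd c S N (k + i) := by
  induction M generalizing k with
  | zero => simp [Rf]
  | succ M ih =>
    rw [Rf, ih, Finset.sum_range_succ', ]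
    have : ∑ i ∈ Finset.range M, (-1 : ℤ) ^ (i + 1) * Dd c S N (k + (i + 1))
        = -∑ i ∈ Finset.range M, (-1 : ℤ) ^ i * Dd c S N (k + 1 + i) := by
      rw [← Finset.sum_neg_distrib]
      refine Finset.sum_congr rfl fun i _ => ?_
      have e : k + 1 + i = k + (i + 1) := by ring
      rw [e, pow_succ]
      ring
    rw [this]
    simp
    ring

lemma coeff_shift (c : ℕ → ℤ) (d N : ℕ) : coeff N (X ^ d * gen c) = (sh c d N : ℚ) := by
  rw [coeff_X_pow_mul']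
  unfold sh gen
  split_ifs with h
  · rw [coeff_mk]
  · simp

lemma coeff_partial_theta (c : ℕ → ℤ) (S k M N : ℕ) :
    coeff N ((-1) ^ k * (∑ i ∈ Finset.range M, term k S i) * gen c) = (Rf c S N M k : ℚ) := by
  rw [Rf_eq_sum, Finset.mul_sum, Finset.sum_mul, map_sum]
  push_cast
  refine Finset.sum_congr rfl fun i _ => ?_
  have h1 : (-1 : ℚ⟦X⟧) ^ k * term k S i * gen c
      = (C ((-1 : ℚ) ^ i)) * (X ^ (eN S (k + i)) * gen c
        - X ^ (eN S (k + i) + (2 * (k + i) + 1) * S) * gen c) := by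
    unfold term
    have h2 : (-1 : ℚ⟦X⟧) ^ k * (-1) ^ (k + i) = (C ((-1 : ℚ) ^ i)) := by
      rw [map_pow, map_neg, map_one, pow_add, ← mul_assoc, ← pow_add, ← two_mul, pow_mul]
      simp
    rw [← h2]
    ring
  rw [h1, coeff_C_mul, map_sub, coeff_shift, coeff_shift]
  unfold Dd
  push_cast
  rfl

/-- main positivity for truncated data -/
lemma trunc_pos {c : ℕ → ℤ} {T κ : ℤ} (h : Good2 c T κ) (S k M n : ℕ) (hS1 : 1 ≤ S) (hS6 : S ≤ 6)
    (hk : 1 ≤ k) (hM : n < M) (B : ℚ⟦X⟧) (hB : NN B) :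
    0 ≤ coeff n ((-1) ^ k * (∑ i ∈ Finset.range M, term k S i) * (gen c * B)) := by
  have h1 : (-1) ^ k * (∑ i ∈ Finset.range M, term k S i) * (gen c * B)
      = ((-1) ^ k * (∑ i ∈ Finset.range M, term k S i) * gen c) * B := by ring
  rw [h1, coeff_mul]
  refine Finset.sum_nonneg fun p hp => mul_nonneg ?_ (hB _)
  rw [coeff_partial_theta]
  have hp1 : p.1 ≤ n := by
    have := Finset.HasAntidiagonal.mem_antidiagonal.1 hp
    omega
  have := R_nonneg h S p.1 k M hS1 hS6 hk (by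
    intro S' hS'
    have := le_eN S' (k + M) hS'
    omega)
  exact_mod_cast this

lemma fac_constant (a b i : ℕ) (ha : 0 < a) (hb : 0 < b) : constantCoeff (fac a b i) = 1 := by
  unfold fac
  rw [map_mul, constantCoeff_one_sub _ (by omega), constantCoeff_one_sub _ (by omega), one_mul]

lemma poch_constant (a b : ℕ) (ha : 0 < a) (hb : 0 < b) : constantCoeff (poch a b) = 1 := by
  have h := (cong_iff _ _ _).1 (cong_poch a b 1) 0 (by norm_num)
  rw [coeff_zero_eq_constantCoeff] at h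
  rw [h]
  simp [fac_constant a b 0 ha hb]

lemma prod_constant (a b M : ℕ) (ha : 0 < a) (hb : 0 < b) :
    constantCoeff (∏ i ∈ Finset.range M, fac a b i) = 1 := by
  rw [map_prod]
  exact Finset.prod_eq_one fun i _ => fac_constant a b i ha hb

lemma NN_fac_inv (a b i : ℕ) (ha : 0 < a) (hb : 0 < b) : NN (fac a b i)⁻¹ := by
  unfold fac
  rw [PowerSeries.mul_inv_rev]
  exact (NN_geom _ (by omega)).mul (NN_geom _ (by omega))

theorem coeff_nonneg_of {c : ℕ → ℤ} {T κ : ℤ} (h : Good2 c T κ) (a b S k n : ℕ) (ha : 0 < a)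
    (hb : 0 < b) (hS1 : 1 ≤ S) (hS6 : S ≤ 6) (hk : 1 ≤ k)
    (hfac : ∃ B : ℚ⟦X⟧, NN B ∧ (∏ i ∈ Finset.range 3, fac a b i) * (gen c * B) = 1) :
    0 ≤ coeff n ((-1) ^ k * thetaTail k S * (poch a b)⁻¹) := by
  obtain ⟨B, hB, hB1⟩ := hfac
  set M := n + 4 with hMdef
  -- the inverse of the partial product
  have hinv : (∏ i ∈ Finset.range M, fac a b i)⁻¹
      = gen c * (B * ∏ i ∈ Finset.range (n + 1), (fac a b (3 + i))⁻¹) := by
    rw [PowerSeries.inv_eq_iff_mul_eq_one (by rw [prod_constant a b M ha hb]; norm_num)]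
    have h1 : ∏ i ∈ Finset.range M, fac a b i
        = (∏ i ∈ Finset.range 3, fac a b i) * ∏ i ∈ Finset.range (n + 1), fac a b (3 + i) := by
      have : M = 3 + (n + 1) := by omega
      rw [this, Finset.prod_range_add]
    have h2 : (∏ i ∈ Finset.range (n + 1), fac a b (3 + i)) *
        ∏ i ∈ Finset.range (n + 1), (fac a b (3 + i))⁻¹ = 1 := by
      rw [← Finset.prod_mul_distrib]
      refine Finset.prod_eq_one fun i _ => ?_
      exact PowerSeries.mul_inv_cancel _ (by rw [fac_constant a b _ ha hb]; norm_num)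
    rw [h1]
    calc gen c * (B * ∏ i ∈ Finset.range (n + 1), (fac a b (3 + i))⁻¹) *
          ((∏ i ∈ Finset.range 3, fac a b i) * ∏ i ∈ Finset.range (n + 1), fac a b (3 + i))
        = ((∏ i ∈ Finset.range 3, fac a b i) * (gen c * B)) *
          ((∏ i ∈ Finset.range (n + 1), fac a b (3 + i)) *
            ∏ i ∈ Finset.range (n + 1), (fac a b (3 + i))⁻¹) := by ring
      _ = 1 := by rw [hB1, h2, one_mul]
  have hcong : Cong M ((-1) ^ k * thetaTail k S * (poch a b)⁻¹)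
      ((-1) ^ k * (∑ i ∈ Finset.range M, term k S i) * (∏ i ∈ Finset.range M, fac a b i)⁻¹) :=
    ((Cong.refl' M _).mul (cong_theta k S M hS6)).mul
      ((cong_poch a b M).inv (by rw [poch_constant a b ha hb]; norm_num)
        (by rw [prod_constant a b M ha hb]; norm_num))
  rw [(cong_iff _ _ _).1 hcong n (by omega), hinv]
  refine trunc_pos h S k M n hS1 hS6 hk (by omega) _ (hB.mul (NN_prod _ _ fun i _ => ?_))
  exact NN_fac_inv a b _ ha hb

theorem F_nonneg (S k n : ℕ) (hS1 : 1 ≤ S) (hS6 : S ≤ 6) (hk : 1 ≤ k) :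
    0 ≤ coeff n ((-1) ^ k * thetaTail k S * (poch 1 4)⁻¹) := by
  refine coeff_nonneg_of good2F 1 4 S k n (by norm_num) (by norm_num) hS1 hS6 hk
    ⟨(1 - X ^ 6)⁻¹ * (1 - X ^ 14)⁻¹, (NN_geom 6 (by norm_num)).mul (NN_geom 14 (by norm_num)), ?_⟩
  have h6 : (1 - X ^ 6 : ℚ⟦X⟧) * (1 - X ^ 6)⁻¹ = 1 :=
    PowerSeries.mul_inv_cancel _ (by rw [constantCoeff_one_sub 6 (by norm_num)]; norm_num)
  have h14 : (1 - X ^ 14 : ℚ⟦X⟧) * (1 - X ^ 14)⁻¹ = 1 :=
    PowerSeries.mul_inv_cancel _ (by rw [constantCoeff_one_sub 14 (by norm_num)]; norm_num)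
  simp only [Finset.prod_range_succ, Finset.prod_range_zero, one_mul, fac]
  norm_num only
  calc (1 - X ^ 1) * (1 - X ^ 4) * ((1 - X ^ 6) * (1 - X ^ 9)) * ((1 - X ^ 11) * (1 - X ^ 14)) *
        (gen cF * ((1 - X ^ 6)⁻¹ * (1 - X ^ 14)⁻¹))
      = (((1 - X ^ 1) * (1 - X ^ 4)) * ((1 - X ^ 9) * (1 - X ^ 11)) * gen cF) *
        (((1 - X ^ 6) * (1 - X ^ 6)⁻¹) * ((1 - X ^ 14) * (1 - X ^ 14)⁻¹)) := by ring
    _ = 1 := by rw [genF, h6, h14]; ring

theorem G_nonneg (S k n : ℕ) (hS1 : 1 ≤ S) (hS6 : S ≤ 6) (hk : 1 ≤ k) :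
    0 ≤ coeff n ((-1) ^ k * thetaTail k S * (poch 2 3)⁻¹) := by
  refine coeff_nonneg_of good2G 2 3 S k n (by norm_num) (by norm_num) hS1 hS6 hk
    ⟨(1 - X ^ 8)⁻¹ * (1 - X ^ 12)⁻¹, (NN_geom 8 (by norm_num)).mul (NN_geom 12 (by norm_num)), ?_⟩
  have h8 : (1 - X ^ 8 : ℚ⟦X⟧) * (1 - X ^ 8)⁻¹ = 1 :=
    PowerSeries.mul_inv_cancel _ (by rw [constantCoeff_one_sub 8 (by norm_num)]; norm_num)
  have h12 : (1 - X ^ 12 : ℚ⟦X⟧) * (1 - X ^ 12)⁻¹ = 1 :=
    PowerSeries.mul_inv_cancel _ (by rw [constantCoeff_one_sub 12 (by norm_num)]; norm_num)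
  simp only [Finset.prod_range_succ, Finset.prod_range_zero, one_mul, fac]
  norm_num only
  calc (1 - X ^ 2) * (1 - X ^ 3) * ((1 - X ^ 7) * (1 - X ^ 8)) * ((1 - X ^ 12) * (1 - X ^ 13)) *
        (gen cG * ((1 - X ^ 8)⁻¹ * (1 - X ^ 12)⁻¹))
      = (((1 - X ^ 2) * (1 - X ^ 3)) * ((1 - X ^ 7) * (1 - X ^ 13)) * gen cG) *
        (((1 - X ^ 8) * (1 - X ^ 8)⁻¹) * ((1 - X ^ 12) * (1 - X ^ 12)⁻¹)) := by ring
    _ = 1 := by rw [genG, h8, h12]; ring

end Pool.Agent.H92.RR
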